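import Pool.Agent.J4.H19.LC.Lc
import Pool.Agent.Y169.CH.Clo

/-!
Covers of projective space which are branched along hypersurfaces with normal crossings.
-/

set_option autoImplicit false
set_option linter.overlappingInstances false
set_option linter.unusedSectionVars false
set_option maxHeartbeats 400000

open FF MvPolynomial Pool.Agent.W603.LV Pool.Agent.W602.GT Pool.Agent.W602.Cov
open Pool.Agent.TH122.AB Pool.Agent.Y169.CH

open Pool.Agent.Y169.TH

namespace Pool.Agent.J4.H19.LC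

section deh

variable {n : ℕ}

/-- the dehomogenisation -/
noncomputable def deh : MvPolynomial (Fin (n + 1)) ℂ →ₐ[ℂ] MvPolynomial (Fin n) ℂ :=
  aeval (Fin.cases 1 fun b => X b : Fin (n + 1) → MvPolynomial (Fin n) ℂ)

theorem aeval_deh {K : Type} [Field K] [Algebra ℂ K] {x : Fin (n + 1) → K} (hx0 : x 0 = 1)
    (P : MvPolynomial (Fin (n + 1)) ℂ) :
    aeval (fun b : Fin n => x b.succ) (deh P) = aeval x P := by
  unfold deh
  have h2 := MvPolynomial.comp_aeval_apply
    (Fin.cases 1 fun b => X b : Fin (n + 1) → MvPolynomial (Fin n) ℂ)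
    (aeval (R := ℂ) fun b : Fin n => x b.succ) P
  rw [h2]
  congr 2
  funext j
  refine Fin.cases ?_ (fun l => ?_) j
  · rw [Fin.cases_zero, map_one, hx0]
  · rw [Fin.cases_succ, aeval_X]

theorem deh_monomial (a : Fin (n + 1) →₀ ℕ) (c : ℂ) :
    deh (monomial a c) = monomial (Finsupp.tail a) c := by
  classical
  unfold deh
  rw [aeval_monomial, Finsupp.prod_fintype _ _ fun _ => pow_zero _, Fin.prod_univ_succ,
    Fin.cases_zero, one_pow, one_mul]
  simp only [Fin.cases_succ]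
  rw [monomial_eq, Finsupp.prod_fintype _ _ fun _ => pow_zero _]
  rfl

theorem deh_eq (F : MvPolynomial (Fin (n + 1)) ℂ) :
    deh F = ∑ a ∈ F.support, monomial (Finsupp.tail a) (coeff a F) := by
  classical
  conv_lhs => rw [F.as_sum]
  rw [map_sum]
  exact Finset.sum_congr rfl fun a _ => deh_monomial a _

theorem sum_hom' {m dF : ℕ} {F : MvPolynomial (Fin m) ℂ} (hh : F.IsHomogeneous dF)
    {a : Fin m →₀ ℕ} (ha : a ∈ F.support) : ∑ i, a i = dF := by
  have h2 := hh (mem_support_iff.1 ha)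
  rw [← h2, Finsupp.weight_apply, Finsupp.sum_fintype _ _ fun i => by simp]
  simp

theorem coeff_deh {F : MvPolynomial (Fin (n + 1)) ℂ} {D : ℕ} (hh : F.IsHomogeneous D)
    {a : Fin (n + 1) →₀ ℕ} (ha : a ∈ F.support) :
    coeff (Finsupp.tail a) (deh F) = coeff a F := by
  classical
  rw [deh_eq, coeff_sum, Finset.sum_eq_single a]
  · rw [coeff_monomial, if_pos rfl]
  · intro b hb hne
    rw [coeff_monomial, if_neg]
    intro h
    apply hne
    have h1 := sum_hom' hh ha
    have h2 := sum_hom' hh hb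
    rw [Fin.sum_univ_succ] at h1 h2
    have h3 : ∀ i : Fin n, b i.succ = a i.succ := fun i => by
      have := congrArg (fun f => f i) h
      simpa [Finsupp.tail_apply] using this
    simp only [h3] at h2
    ext i
    refine Fin.cases ?_ (fun l => h3 l) i
    omega
  · intro h
    exact absurd ha h

theorem supp_deh {F : MvPolynomial (Fin (n + 1)) ℂ} {t : Fin n →₀ ℕ} (ht : t ∈ (deh F).support) :
    ∃ a ∈ F.support, Finsupp.tail a = t := by
  classical
  rw [deh_eq] at ht
  have h1 := support_sum ht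
  rw [Finset.mem_biUnion] at h1
  obtain ⟨a, ha, h2⟩ := h1
  have h3 := support_monomial_subset h2
  rw [Finset.mem_singleton] at h3
  exact ⟨a, ha, h3.symm⟩

theorem deh_ne {F : MvPolynomial (Fin (n + 1)) ℂ} {D : ℕ} (hh : F.IsHomogeneous D)
    (hF : F ≠ 0) : deh F ≠ 0 := by
  obtain ⟨a, ha⟩ := support_nonempty.2 hF
  intro h0
  have h1 := coeff_deh hh ha
  rw [h0, coeff_zero] at h1
  exact (mem_support_iff.1 ha) h1.symm

theorem degB_deh {F : MvPolynomial (Fin (n + 1 + 1)) ℂ} {D : ℕ} (hh : F.IsHomogeneous D)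
    (hI : ∃ a ∈ F.support, a 0 = 0) : Pool.Agent.TH756.PN.degB Finset.univ (deh F) = D := by
  classical
  unfold Pool.Agent.TH756.PN.degB
  apply le_antisymm
  · refine Finset.sup_le fun t ht => ?_
    obtain ⟨a, ha, rfl⟩ := supp_deh ht
    have h1 := sum_hom' hh ha
    rw [Fin.sum_univ_succ] at h1
    simp only [Finsupp.tail_apply]
    omega
  · obtain ⟨a, ha, ha0⟩ := hI
    have h1 : Finsupp.tail a ∈ (deh F).support := by
      rw [mem_support_iff, coeff_deh hh ha]
      exact mem_support_iff.1 ha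
    refine le_trans ?_ (Finset.le_sup (f := fun m : Fin (n + 1) →₀ ℕ => ∑ b, m b) h1)
    have h2 := sum_hom' hh ha
    rw [Fin.sum_univ_succ, ha0, zero_add] at h2
    rw [← h2]
    exact le_of_eq (Finset.sum_congr rfl fun b _ => (Finsupp.tail_apply b a).symm)

/-- the homogenisation -/
theorem exists_hom {P : MvPolynomial (Fin n) ℂ} {D : ℕ} (hP : ∀ m ∈ P.support, ∑ b, m b ≤ D) :
    ∃ H : MvPolynomial (Fin (n + 1)) ℂ, H.IsHomogeneous D ∧ deh H = P := by
  classical
  refine ⟨∑ m ∈ P.support, monomial (Finsupp.cons (D - ∑ b, m b) m) (coeff m P), ?_, ?_⟩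
  · refine IsHomogeneous.sum _ _ _ fun m hm => ?_
    apply isHomogeneous_monomial
    rw [Finsupp.degree_eq_sum, Fin.sum_univ_succ]
    simp only [Finsupp.cons_zero, Finsupp.cons_succ]
    have := hP m hm
    omega
  · rw [map_sum]
    conv_rhs => rw [P.as_sum]
    refine Finset.sum_congr rfl fun m _ => ?_
    rw [deh_monomial, Finsupp.tail_cons]

end deh

/-- forms without a common zero, with a log canonical sum; the hyperplane `x 0 = 0` is not one of
their components -/
structure Arr (n : ℕ) where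
  /-- the forms -/
  F : Fin (n + 1) → MvPolynomial (Fin (n + 1)) ℂ
  /-- their degrees -/
  dF : Fin (n + 1) → ℕ
  hd : ∀ k, 0 < dF k
  hh : ∀ k, (F k).IsHomogeneous (dF k)
  hN : Noc F
  hL : Lca F
  hI : ∀ k, ∃ a ∈ (F k).support, a 0 = 0

namespace Arr

variable {n : ℕ} (Φ : Arr n)

/-- the complementary degrees -/
noncomputable def ee (k : Fin (n + 1)) : ℕ := ∏ i ∈ Finset.univ.erase k, Φ.dF i

/-- the common degree -/
noncomputable def E : ℕ := ∏ i, Φ.dF i

theorem d_ee (k : Fin (n + 1)) : Φ.dF k * Φ.ee k = Φ.E :=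
  Finset.mul_prod_erase _ _ (Finset.mem_univ k)

theorem E_pos : 0 < Φ.E := Finset.prod_pos fun k _ => Φ.hd k

theorem ee_pos (k : Fin (n + 1)) : 0 < Φ.ee k := Finset.prod_pos fun k _ => Φ.hd k

/-- the forms of the common degree -/
noncomputable def G (k : Fin (n + 1)) : MvPolynomial (Fin (n + 1)) ℂ := Φ.F k ^ Φ.ee k

theorem G_hom (k : Fin (n + 1)) : (Φ.G k).IsHomogeneous Φ.E := by
  have h := (Φ.hh k).pow (Φ.ee k)
  rwa [Φ.d_ee] at h

theorem F_ne (k : Fin (n + 1)) : Φ.F k ≠ 0 := by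
  obtain ⟨a, ha, -⟩ := Φ.hI k
  exact support_nonempty.1 ⟨a, ha⟩

theorem G_ne (k : Fin (n + 1)) : Φ.G k ≠ 0 := pow_ne_zero _ (Φ.F_ne k)

end Arr

/-- the field `K` is generated by the affine coordinates and by roots of products of the forms -/
structure Cv {n : ℕ} (Φ : Arr n) (K : Type) [Field K] [Algebra ℂ K] (R : ℕ) where
  /-- the coordinates -/
  x : Fin (n + 1) → K
  hx0 : x 0 = 1
  hbas : IsTranscendenceBasis ℂ fun b : Fin n => x b.succ
  /-- the roots -/
  z : Fin R → K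
  /-- their exponents -/
  M : Fin R → ℕ
  hM : ∀ j, 0 < M j
  /-- the exponents of the forms -/
  a : Fin R → Fin (n + 1) → ℕ
  hz : ∀ j, z j ^ M j = ∏ k, aeval x (Φ.F k) ^ a j k
  hdiv : ∀ j, M j ∣ ∑ k, a j k * Φ.dF k
  hgen : IntermediateField.adjoin ℂ (Set.range (fun b : Fin n => x b.succ) ∪ Set.range z) = ⊤

namespace Cv

variable {n : ℕ} {Φ : Arr n} {K : Type} [Field K] [Algebra ℂ K] {R : ℕ} (C : Cv Φ K R)

/-- the affine coordinates -/
def u (b : Fin n) : K := C.x b.succ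

theorem u_bas : IsTranscendenceBasis ℂ C.u := C.hbas

theorem ae_deh (P : MvPolynomial (Fin (n + 1)) ℂ) : aeval C.u (deh P) = aeval C.x P :=
  aeval_deh C.hx0 P

theorem ae_ne {P : MvPolynomial (Fin n) ℂ} (hP : P ≠ 0) : aeval C.u P ≠ 0 := by
  intro h
  exact hP ((injective_iff_map_eq_zero _).1 C.hbas.1 P h)

theorem hom_ne {P : MvPolynomial (Fin (n + 1)) ℂ} {D : ℕ} (hh : P.IsHomogeneous D) (hP : P ≠ 0) :
    aeval C.x P ≠ 0 := by
  rw [← C.ae_deh]
  exact C.ae_ne (deh_ne hh hP)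

theorem F_ne (k : Fin (n + 1)) : aeval C.x (Φ.F k) ≠ 0 := C.hom_ne (Φ.hh k) (Φ.F_ne k)

theorem G_ne (k : Fin (n + 1)) : aeval C.x (Φ.G k) ≠ 0 := C.hom_ne (Φ.G_hom k) (Φ.G_ne k)

theorem ae_G (y : Fin (n + 1) → K) (k : Fin (n + 1)) :
    aeval y (Φ.G k) = aeval y (Φ.F k) ^ Φ.ee k := by
  unfold Arr.G
  rw [map_pow]

theorem x_ne (l : Fin (n + 1)) : C.x l ≠ 0 := by
  have h := C.hom_ne (isHomogeneous_X ℂ l) (X_ne_zero l)
  rwa [aeval_X] at h

theorem z_ne (j : Fin R) : C.z j ≠ 0 := by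
  intro h
  have h1 := C.hz j
  rw [h, zero_pow (C.hM j).ne'] at h1
  exact (Finset.prod_ne_zero_iff.2 fun t _ => pow_ne_zero _ (C.F_ne t)) h1.symm

theorem fin_u : FiniteDimensional
    (IntermediateField.adjoin ℂ (Set.range fun b : Fin n => C.x b.succ)) K := by
  classical
  obtain ⟨L, hL⟩ : ∃ L, L = IntermediateField.adjoin ℂ
    (Set.range fun b : Fin n => C.x b.succ) := ⟨_, rfl⟩
  rw [← hL]
  have hx : ∀ l, C.x l ∈ L := by
    intro l
    refine Fin.cases ?_ (fun b => ?_) l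
    · rw [C.hx0]
      exact L.one_mem
    · rw [hL]
      exact IntermediateField.subset_adjoin ℂ _ ⟨b, rfl⟩
  have hae : ∀ P : MvPolynomial (Fin (n + 1)) ℂ, aeval C.x P ∈ L := by
    intro P
    rw [aeval_def, eval₂_eq']
    refine L.sum_mem fun m _ => L.mul_mem (L.algebraMap_mem _) (L.prod_mem fun i _ =>
      pow_mem (hx i) _)
  refine (fin_of_gen L (S := Set.range (fun b : Fin n => C.x b.succ) ∪ Set.range C.z)
    ((Set.finite_range _).union (Set.finite_range _)) (fun L _ hSL => ?_) (fun x hx' => ?_)).1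
  · rw [eq_top_iff, ← C.hgen, IntermediateField.adjoin_le_iff]
    exact hSL
  · rcases hx' with ⟨b, rfl⟩ | ⟨j, rfl⟩
    · exact isIntegral_algebraMap (R := L) (x := (⟨_, hx b.succ⟩ : L))
    · refine IsIntegral.of_pow (C.hM j) ?_
      rw [C.hz]
      exact IsIntegral.prod _ fun k _ =>
        (isIntegral_algebraMap (R := L) (x := (⟨_, hae _⟩ : L))).pow _

include C in
theorem ess : Algebra.EssFiniteType ℂ K := by
  rw [← IntermediateField.fg_top_iff, ← C.hgen]
  exact IntermediateField.fg_adjoin_of_finite ((Set.finite_range _).union (Set.finite_range _))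

/-- the toric coordinates -/
noncomputable def Y (b : Fin n) : K := aeval C.x (Φ.G b.succ) / aeval C.x (Φ.G 0)

theorem Y_ne (b : Fin n) : C.Y b ≠ 0 := div_ne_zero (C.G_ne _) (C.G_ne _)

/-- forms are bounded by the forms `G` -/
theorem val_hom (V : ValuationSubring K) (hV : ∀ b, C.Y b ∈ V) {H : MvPolynomial (Fin (n + 1)) ℂ}
    {q : ℕ} (hH : H.IsHomogeneous (Φ.E * q)) (hc : ∀ c : ℂ, algebraMap ℂ K c ∈ V) :
    aeval C.x H / aeval C.x (Φ.G 0) ^ q ∈ V := by
  classical
  obtain ⟨l, hl⟩ := Finite.exists_max fun l => V.valuation (C.x l)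
  have hle := fun b => (V.valuation_le_one_iff b)
  obtain ⟨y, hy⟩ : ∃ y : Fin (n + 1) → K, y = fun b => C.x b / C.x l := ⟨_, rfl⟩
  have hvl : V.valuation (C.x l) ≠ 0 := by
    rw [Ne, map_eq_zero]
    exact C.x_ne l
  have hyV : ∀ b, y b ∈ V := by
    intro b
    rw [← hle, hy]
    dsimp only
    rw [map_div₀]
    exact div_le_one_of_le₀ (hl b) zero_le
  have hyl : y l = 1 := by
    rw [hy]
    exact div_self (C.x_ne l)
  have hae : ∀ P : MvPolynomial (Fin (n + 1)) ℂ, aeval y P ∈ V := by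
    intro P
    rw [aeval_def, eval₂_eq']
    refine V.toSubring.sum_mem fun m _ => V.toSubring.mul_mem (hc _)
      (V.toSubring.prod_mem fun i _ => V.toSubring.pow_mem (hyV i) _)
  have hscale : ∀ (D : ℕ) (P : MvPolynomial (Fin (n + 1)) ℂ), P.IsHomogeneous D →
      aeval C.x P = C.x l ^ D * aeval y P := by
    intro D P hP
    rw [← aeval_smul_form hP]
    congr 2
    funext b
    rw [hy]
    dsimp only
    rw [mul_div_cancel₀ _ (C.x_ne l)]
  -- one of the forms is a unit
  obtain ⟨k, hk⟩ : ∃ k, V.valuation (aeval y (Φ.F k)) = 1 := by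
    by_contra hcon
    push Not at hcon
    have h1 : ∀ k, V.valuation (aeval y (Φ.F k)) < 1 := fun k =>
      lt_of_le_of_ne ((hle _).2 (hae _)) (hcon k)
    obtain ⟨M, A, hA⟩ := null_cert2 Φ.hN l
    have h2 := congrArg (aeval y) hA
    rw [map_pow, aeval_X, hyl, one_pow, map_sum] at h2
    have h3 : V.valuation (∑ k, aeval y (A k * Φ.F k)) < 1 := by
      refine V.valuation.map_sum_lt one_ne_zero fun k _ => ?_
      rw [map_mul, map_mul]
      exact lt_of_le_of_lt (mul_le_of_le_one_left' ((hle _).2 (hae _))) (h1 k)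
    rw [← h2, map_one] at h3
    exact lt_irrefl _ h3
  have hG : ∀ i, aeval C.x (Φ.G i) / aeval C.x (Φ.G 0) = aeval y (Φ.G i) / aeval y (Φ.G 0) := by
    intro i
    rw [hscale _ _ (Φ.G_hom i), hscale _ _ (Φ.G_hom 0),
      mul_div_mul_left _ _ (pow_ne_zero _ (C.x_ne l))]
  have hG0 : aeval y (Φ.G 0) ≠ 0 := by
    intro h0
    apply C.G_ne 0
    rw [hscale _ _ (Φ.G_hom 0), h0, mul_zero]
  have hunit : V.valuation (aeval y (Φ.G 0)) = 1 := by
    apply le_antisymm ((hle _).2 (hae _))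
    have h1 : V.valuation (aeval y (Φ.G k) / aeval y (Φ.G 0)) ≤ 1 := by
      rw [hle, ← hG]
      refine Fin.cases ?_ (fun b => ?_) k
      · rw [div_self (C.G_ne 0)]
        exact V.one_mem
      · exact hV b
    have h2 : V.valuation (aeval y (Φ.G k)) = 1 := by
      rw [ae_G, map_pow, hk, one_pow]
    rw [map_div₀, h2] at h1
    have h3 : V.valuation (aeval y (Φ.G 0)) ≠ 0 := by
      rw [Ne, map_eq_zero]
      exact hG0
    rwa [div_le_one₀ (zero_lt_iff.2 h3)] at h1
  have h1 : aeval C.x H / aeval C.x (Φ.G 0) ^ q = aeval y H / aeval y (Φ.G 0) ^ q := by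
    rw [hscale _ _ hH, hscale _ _ (Φ.G_hom 0), mul_pow, ← pow_mul,
      mul_div_mul_left _ _ (pow_ne_zero _ (C.x_ne l))]
  rw [h1, ← hle, map_div₀, map_pow, hunit, one_pow, div_one]
  exact (hle _).2 (hae _)

theorem int_of_val {A : Subalgebra ℂ K} {z : K}
    (h : ∀ V : ValuationSubring K, (∀ a ∈ A, a ∈ V) → z ∈ V) : IsIntegral A z := by
  have h1 : z ∈ (integralClosure (Subring.closure (A : Set K)) K).toSubring := by
    rw [← iInf_valuationSubring_superset, Subring.mem_iInf]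
    intro V
    exact h V.1 fun a ha => V.2 ha
  have hle : Subring.closure (A : Set K) ≤ A.toSubring := Subring.closure_le.2 fun a ha => ha
  obtain ⟨p, hp, hp0⟩ := h1
  refine ⟨p.map (Subring.inclusion hle), hp.map _, ?_⟩
  rw [Polynomial.eval₂_map]
  exact hp0

/-- **Integrality.** -/
theorem int_hom {H : MvPolynomial (Fin (n + 1)) ℂ} {q : ℕ} (hH : H.IsHomogeneous (Φ.E * q)) :
    IsIntegral (Algebra.adjoin ℂ (Set.range C.Y)) (aeval C.x H / aeval C.x (Φ.G 0) ^ q) :=
  int_of_val fun V hV => C.val_hom V (fun b => hV _ (Algebra.subset_adjoin ⟨b, rfl⟩)) hH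
    fun c => hV _ (Subalgebra.algebraMap_mem _ c)

theorem int_u {P : MvPolynomial (Fin n) ℂ} {q : ℕ} (hP : ∀ m ∈ P.support, ∑ b, m b ≤ Φ.E * q) :
    IsIntegral (Algebra.adjoin ℂ (Set.range C.Y)) (aeval C.u P / aeval C.x (Φ.G 0) ^ q) := by
  obtain ⟨H, hH, rfl⟩ := exists_hom hP
  rw [C.ae_deh]
  exact C.int_hom hH

theorem fin_Y : FiniteDimensional (IntermediateField.adjoin ℂ (Set.range C.Y)) K := by
  classical
  obtain ⟨L, hL⟩ : ∃ L, L = IntermediateField.adjoin ℂ (Set.range C.Y) := ⟨_, rfl⟩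
  rw [← hL]
  have hAE : Algebra.adjoin ℂ (Set.range C.Y) ≤ L.toSubalgebra := by
    rw [hL]
    exact IntermediateField.algebra_adjoin_le_adjoin ℂ _
  have hint : ∀ z : K, IsIntegral (Algebra.adjoin ℂ (Set.range C.Y)) z → IsIntegral L z := by
    rintro z ⟨p, hp, hp0⟩
    refine ⟨p.map (Subalgebra.inclusion hAE).toRingHom, hp.map _, ?_⟩
    rw [Polynomial.eval₂_map]
    exact hp0
  have hx : ∀ l, IsIntegral L (C.x l) := by
    intro l
    have h1 : ∀ l, IsIntegral L (C.x l ^ Φ.E / aeval C.x (Φ.G 0)) := by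
      intro l
      have h2 := hint _ (C.int_hom (H := X l ^ Φ.E) (q := 1) (by
        simpa using (isHomogeneous_X ℂ l).pow Φ.E))
      rwa [map_pow, aeval_X, pow_one] at h2
    have h2 := h1 0
    rw [C.hx0, one_pow] at h2
    have h3 : IsIntegral L (C.x l ^ Φ.E) := by
      have h4 : C.x l ^ Φ.E = C.x l ^ Φ.E / aeval C.x (Φ.G 0) * (1 / aeval C.x (Φ.G 0))⁻¹ := by
        rw [one_div, inv_inv, div_mul_cancel₀ _ (C.G_ne 0)]
      rw [h4]
      exact (h1 l).mul h2.inv
    exact IsIntegral.of_pow Φ.E_pos h3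
  have hae : ∀ P : MvPolynomial (Fin (n + 1)) ℂ, IsIntegral L (aeval C.x P) := by
    intro P
    rw [aeval_def, eval₂_eq']
    refine IsIntegral.sum _ fun m _ => IsIntegral.mul ?_ (IsIntegral.prod _ fun i _ => (hx i).pow _)
    exact isIntegral_algebraMap (R := L) (x := algebraMap ℂ L _)
  refine (fin_of_gen L (S := Set.range (fun b : Fin n => C.x b.succ) ∪ Set.range C.z)
    ((Set.finite_range _).union (Set.finite_range _)) (fun L _ hSL => ?_) (fun x hx' => ?_)).1
  · rw [eq_top_iff, ← C.hgen, IntermediateField.adjoin_le_iff]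
    exact hSL
  · rcases hx' with ⟨b, rfl⟩ | ⟨j, rfl⟩
    · exact hx _
    · refine IsIntegral.of_pow (C.hM j) ?_
      rw [C.hz]
      exact IsIntegral.prod _ fun k _ => (hae _).pow _

theorem bas_Y : IsTranscendenceBasis ℂ C.Y := by
  classical
  have hfd := C.fin_Y
  have h1 : Algebra.IsAlgebraic (IntermediateField.adjoin ℂ (Set.range C.Y)) K :=
    Algebra.IsAlgebraic.of_finite _ _
  have h2 : Algebra.IsAlgebraic (Algebra.adjoin ℂ (Set.range C.Y)) K := by
    open scoped IntermediateField.algebraAdjoinAdjoin in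
    exact IsFractionRing.comap_isAlgebraic_iff.2 h1
  have htr := Pool.Agent.W602.GT.trdeg_of_basis C.hbas
  exact Algebra.IsAlgebraic.isTranscendenceBasis_of_le_trdeg_of_finite ℂ C.Y (by rw [htr]; simp)

theorem adj_le : IntermediateField.adjoin ℂ (Set.range C.Y) ≤
    IntermediateField.adjoin ℂ (Set.range C.u) := by
  rw [IntermediateField.adjoin_le_iff]
  rintro _ ⟨b, rfl⟩
  have h1 : ∀ P : MvPolynomial (Fin (n + 1)) ℂ, aeval C.x P ∈
      IntermediateField.adjoin ℂ (Set.range C.u) := by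
    intro P
    rw [← C.ae_deh]
    have h1 : aeval C.u (deh P) ∈ Algebra.adjoin ℂ (Set.range C.u) := by
      rw [Algebra.adjoin_range_eq_range_aeval]
      exact ⟨_, rfl⟩
    exact IntermediateField.algebra_adjoin_le_adjoin ℂ _ h1
  exact div_mem (h1 _) (h1 _)

include C in
theorem fin_all' (y : Fin n → K) (hy : IsTranscendenceBasis ℂ y) :
    FiniteDimensional (IntermediateField.adjoin ℂ (Set.range y)) K :=
  Pool.Agent.TH756.PN.fin_all C.fin_Y hy

end Cv

end Pool.Agent.J4.H19.LC
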