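import Pool.Agent.J4.H19.LC.Mak

/-!
Families of hypersurfaces with normal crossings, with any number of members.
-/

set_option autoImplicit false
set_option linter.overlappingInstances false
set_option linter.unusedSectionVars false
set_option maxHeartbeats 400000

open FF MvPolynomial Pool.Agent.W603.LV Pool.Agent.W602.GT Pool.Agent.W602.Cov
open Pool.Agent.W602.Cov.G Pool.Agent.TH152.AC
open Pool.Agent.TH122.AB Pool.Agent.Y169.CH

namespace Pool.Agent.J4.H19.LC.Nc

open Pool.Agent.J4.H19.LC

section exch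

variable {N : ℕ} {ι : Type} {k : Type} [Field k]

/-- the columns: basis vectors or the vectors `w` -/
def colS {R : Type} [Zero R] [One R] (w : ι → Fin N → R) (c : Fin N → Option ι) :
    Matrix (Fin N) (Fin N) R :=
  Matrix.of fun l b => (c b).elim (if l = b then 1 else 0) fun k => w k l

/-- all the elements of `J`, and only these, are selected -/
def Cov (J : Finset ι) (c : Fin N → Option ι) : Prop :=
  (∀ k ∈ J, ∃ b, c b = some k) ∧ ∀ b k, c b = some k → k ∈ J

theorem exists_sel (J : Finset ι) (w : ι → Fin N → k)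
    (hw : LinearIndependent k fun i : J => w i) (J' : Finset ι) (hJ : J' ⊆ J) :
    ∃ c, Cov J' c ∧ (colS w c).det ≠ 0 := by
  classical
  induction J' using Finset.induction_on with
  | empty =>
    refine ⟨fun _ => none, ⟨by simp, by simp⟩, ?_⟩
    have h1 : colS w (fun _ => none) = 1 := by
      ext l b
      unfold colS
      rw [Matrix.of_apply, Matrix.one_apply]
      rfl
    rw [h1, Matrix.det_one]
    exact one_ne_zero
  | insert i J' hi ih =>
    obtain ⟨c, hc, hdet⟩ := ih fun x hx => hJ (Finset.mem_insert_of_mem hx)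
    have hiJ : i ∈ J := hJ (Finset.mem_insert_self _ _)
    have hunit : IsUnit (colS w c).det := isUnit_iff_ne_zero.2 hdet
    obtain ⟨α, hα⟩ : ∃ α : Fin N → k, α = (colS w c)⁻¹.mulVec (w i) := ⟨_, rfl⟩
    have hwα : ∀ l, w i l = ∑ b, α b • colS w c l b := by
      intro l
      have h1 : (colS w c).mulVec α = w i := by
        rw [hα, Matrix.mulVec_mulVec, Matrix.mul_nonsing_inv _ hunit, Matrix.one_mulVec]
      have h2 := congrFun h1 l
      rw [← h2, Matrix.mulVec, dotProduct]
      exact Finset.sum_congr rfl fun b _ => by rw [smul_eq_mul, mul_comm]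
    obtain ⟨b, hb, hαb⟩ : ∃ b, c b = none ∧ α b ≠ 0 := by
      by_contra hcon
      push Not at hcon
      have h1 := hw.notMem_span_image (s := {j : J | j.1 ∈ J'}) (x := ⟨i, hiJ⟩) hi
      apply h1
      have h2 : w i = ∑ b, α b • fun l => colS w c l b := by
        funext l
        rw [hwα l, Finset.sum_apply]
        rfl
      change w i ∈ _
      rw [h2]
      refine Submodule.sum_mem _ fun b _ => ?_
      rcases hcb : c b with _ | j
      · rw [hcon b hcb, zero_smul]
        exact Submodule.zero_mem _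
      · refine Submodule.smul_mem _ _ (Submodule.subset_span ?_)
        have hjJ' := hc.2 b j hcb
        refine ⟨⟨j, hJ (Finset.mem_insert_of_mem hjJ')⟩, hjJ', ?_⟩
        funext l
        unfold colS
        rw [Matrix.of_apply, hcb]
        rfl
    refine ⟨Function.update c b (some i), ⟨?_, ?_⟩, ?_⟩
    · intro j hj
      rcases Finset.mem_insert.1 hj with rfl | hj
      · exact ⟨b, Function.update_self _ _ _⟩
      · obtain ⟨b', hb'⟩ := hc.1 j hj
        refine ⟨b', ?_⟩
        rw [Function.update_of_ne]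
        · exact hb'
        · rintro rfl
          rw [hb] at hb'
          exact absurd hb' (by simp)
    · intro b' j hb'
      by_cases hbb : b' = b
      · subst hbb
        rw [Function.update_self] at hb'
        rw [Finset.mem_insert]
        left
        exact (Option.some.inj hb').symm
      · rw [Function.update_of_ne hbb] at hb'
        exact Finset.mem_insert_of_mem (hc.2 b' j hb')
    · have h1 : colS w (Function.update c b (some i)) =
          (colS w c).updateCol b fun l => ∑ b, α b • colS w c l b := by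
        ext l b'
        rw [Matrix.updateCol_apply]
        by_cases hbb : b' = b
        · subst hbb
          rw [if_pos rfl, ← hwα]
          unfold colS
          rw [Matrix.of_apply, Function.update_self]
          rfl
        · rw [if_neg hbb]
          unfold colS
          rw [Matrix.of_apply, Matrix.of_apply, Function.update_of_ne hbb]
      rw [h1, Matrix.det_updateCol_sum, smul_eq_mul]
      exact mul_ne_zero hαb hdet

end exch

variable {n : ℕ} {ι : Type}

/-- the gradients of the forms which vanish at a point are linearly independent -/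
def Ncr (F : ι → MvPolynomial (Fin (n + 1)) ℂ) : Prop :=
  ∀ x : Fin (n + 1) → ℂ, x ≠ 0 → LinearIndependent ℂ
    fun (k : {k // eval x (F k) = 0}) (l : Fin (n + 1)) => eval x (pderiv l (F k.1))

/-- the gradients -/
noncomputable def grd (F : ι → MvPolynomial (Fin (n + 1)) ℂ) (k : ι) (l : Fin (n + 1)) :
    MvPolynomial (Fin (n + 1)) ℂ := pderiv l (F k)

/-- the selections -/
abbrev Sel (n : ℕ) (J : Finset ι) : Type := {c : Fin (n + 1) → Option ι // Cov J c}

theorem map_colS {R S : Type} [CommRing R] [CommRing S] (f : R →+* S) {N : ℕ}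
    (w : ι → Fin N → R) (c : Fin N → Option ι) :
    f (colS w c).det = (colS (fun i l => f (w i l)) c).det := by
  rw [RingHom.map_det]
  congr 1
  ext l b
  unfold colS
  rw [RingHom.mapMatrix_apply, Matrix.map_apply, Matrix.of_apply, Matrix.of_apply]
  rcases c b with _ | j
  · change f (if l = b then 1 else 0) = if l = b then 1 else 0
    split_ifs
    · exact map_one f
    · exact map_zero f
  · rfl

variable [Finite ι] {F : ι → MvPolynomial (Fin (n + 1)) ℂ}

/-- **The certificate.** -/
theorem sel_cert (hS : Ncr F) (J : Finset ι) (j : Fin (n + 1)) :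
    ∃ (M : ℕ) (A : ι → MvPolynomial (Fin (n + 1)) ℂ)
      (B : Sel n J → MvPolynomial (Fin (n + 1)) ℂ),
      X j ^ M = ∑ k ∈ J, A k * F k + ∑ᶠ c : Sel n J, B c * (colS (grd F) c.1).det := by
  classical
  haveI : Fintype (Sel n J) := Fintype.ofFinite _
  let gen : ({k // k ∈ J} ⊕ Sel n J) → MvPolynomial (Fin (n + 1)) ℂ :=
    Sum.elim (fun k => F k.1) fun c => (colS (grd F) c.1).det
  obtain ⟨I, hI⟩ : ∃ I : Ideal (MvPolynomial (Fin (n + 1)) ℂ), I = Ideal.span (Set.range gen) :=
    ⟨_, rfl⟩
  have h1 : (X j : MvPolynomial (Fin (n + 1)) ℂ) ∈ vanishingIdeal ℂ (zeroLocus ℂ I) := by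
    rw [mem_vanishingIdeal_iff]
    intro x hx
    have hx0 : x = 0 := by
      by_contra hne
      rw [mem_zeroLocus_iff] at hx
      have hz : ∀ i, eval x (gen i) = 0 := fun i =>
        hx (gen i) (by rw [hI]; exact Ideal.subset_span ⟨i, rfl⟩)
      have hlin := hS x hne
      have hw : LinearIndependent ℂ
          fun (i : J) (l : Fin (n + 1)) => eval x (grd F i.1 l) :=
        hlin.comp (fun i : J => (⟨i.1, hz (Sum.inl i)⟩ : {k // eval x (F k) = 0}))
          (fun a b hab => Subtype.ext (congrArg (fun z => z.1) hab))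
      obtain ⟨c, hc, hdet⟩ := exists_sel (k := ℂ) J (fun i l => eval x (grd F i l)) hw J
        (Finset.Subset.refl J)
      apply hdet
      rw [← map_colS (eval x) (grd F) c]
      exact hz (Sum.inr ⟨c, hc⟩)
    rw [hx0, aeval_X]
    rfl
  rw [vanishingIdeal_zeroLocus_eq_radical] at h1
  obtain ⟨M, hM⟩ := h1
  rw [hI, Ideal.mem_span_range_iff_exists_fun] at hM
  obtain ⟨A, hA⟩ := hM
  refine ⟨M, fun k => if h : k ∈ J then A (Sum.inl ⟨k, h⟩) else 0, fun c => A (Sum.inr c), ?_⟩
  rw [← hA, Fintype.sum_sum_type, finsum_eq_sum_of_fintype]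
  congr 1
  rw [← Finset.sum_coe_sort J]
  refine Finset.sum_congr rfl fun i _ => ?_
  dsimp only
  rw [dif_pos i.2]
  rfl

section

variable {K : Type} [Field K] [Algebra ℂ K]

/-- a selection with a determinant which is a unit -/
theorem exists_unit_sel (P : Place ℂ K) (hS : Ncr F) {y : Fin (n + 1) → K}
    (hy : ∀ l, P.Reg (y l)) {j : Fin (n + 1)} (hj0 : y j ≠ 0) (hj : P.ord (y j) = 0) (J : Finset ι)
    (hJ : ∀ k ∈ J, Ge P 1 (aeval y (F k))) :
    ∃ c, Cov J c ∧ aeval y (colS (grd F) c).det ≠ 0 ∧
      P.ord (aeval y (colS (grd F) c).det) = 0 := by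
  classical
  haveI : Fintype (Sel n J) := Fintype.ofFinite _
  by_contra hcon
  push Not at hcon
  have h1 : ∀ c : Sel n J, Ge P 1 (aeval y (colS (grd F) c.1).det) := by
    intro c
    by_cases h0 : aeval y (colS (grd F) c.1).det = 0
    · exact Or.inl h0
    · right
      have h2 := hcon c.1 c.2 h0
      have h3 := (reg_aeval hy (colS (grd F) c.1).det).resolve_left h0
      omega
  obtain ⟨M, A, B, hA⟩ := sel_cert hS J j
  have h4 : Ge P 1 (y j ^ M) := by
    have h5 := congrArg (aeval y) hA
    rw [map_pow, aeval_X, map_add, map_sum, finsum_eq_sum_of_fintype, map_sum] at h5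
    rw [h5]
    refine Ge.add (Ge.sum _ _ fun k hk => ?_) (Ge.sum _ _ fun c _ => ?_)
    · rw [map_mul]
      have h6 := (show Ge P 0 (aeval y (A k)) from reg_aeval hy (A k)).mul (hJ k hk)
      simpa using h6
    · rw [map_mul]
      have h6 := (show Ge P 0 (aeval y (B c)) from reg_aeval hy (B c)).mul (h1 c)
      simpa using h6
  rcases h4 with h4 | h4
  · exact pow_ne_zero _ hj0 h4
  · rw [P.ord_pow, hj, mul_zero] at h4
    omega

/-- the new coordinates -/
noncomputable def sel (F : ι → MvPolynomial (Fin (n + 1)) ℂ)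
    (c : Fin (n + 1) → Option ι) (y : Fin (n + 1) → K) (b : Fin (n + 1)) : K :=
  (c b).elim (y b) fun k => aeval y (F k)

/-- their degrees -/
def seld (dF : ι → ℕ) (c : Fin (n + 1) → Option ι) (b : Fin (n + 1)) : ℕ :=
  (c b).elim 1 dF

theorem euler {dF : ι → ℕ} (hh : ∀ k, (F k).IsHomogeneous (dF k)) (y : Fin (n + 1) → K)
    (k : ι) : ∑ l, y l * aeval y (pderiv l (F k)) = (dF k : K) * aeval y (F k) := by
  have h := congrArg (aeval y) (hh k).sum_X_mul_pderiv
  rw [map_sum, map_nsmul, nsmul_eq_mul] at h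
  rw [← h]
  exact Finset.sum_congr rfl fun l _ => by rw [map_mul, aeval_X]

/-- **The change of the coordinates.** -/
theorem bw_sel {dF : ι → ℕ} (hh : ∀ k, (F k).IsHomogeneous (dF k))
    (D : Fin n → Derivation ℂ K K) (y : Fin (n + 1) → K) (c : Fin (n + 1) → Option ι) :
    bw D y * aeval y (colS (grd F) c).det = (Pool.Agent.Y169.TH.wm D (seld dF c) (sel F c y)).det := by
  have h0 : aeval y (colS (grd F) c).det = (colS (fun i l => aeval y (grd F i l)) c).det :=
    map_colS (aeval y : MvPolynomial (Fin (n + 1)) ℂ →ₐ[ℂ] K).toRingHom (grd F) c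
  rw [Pool.Agent.Y169.TH.bw_wm, h0, ← Matrix.det_mul]
  congr 1
  ext i b
  rw [Matrix.mul_apply]
  rcases hc : c b with _ | k
  · have h1 : ∀ l, colS (fun i l => aeval y (grd F i l)) c l b = if l = b then (1 : K) else 0 := by
      intro l
      unfold colS
      rw [Matrix.of_apply, hc]
      rfl
    simp only [h1, mul_ite, mul_one, mul_zero, Finset.sum_ite_eq', Finset.mem_univ, if_true]
    refine Fin.cases ?_ (fun l => ?_) i
    · unfold Pool.Agent.Y169.TH.wm sel seld
      simp only [Matrix.of_apply, Fin.cases_zero, hc, Option.elim_none]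
    · unfold Pool.Agent.Y169.TH.wm sel seld
      simp only [Matrix.of_apply, Fin.cases_succ, hc, Option.elim_none]
  · have h1 : ∀ l, colS (fun i l => aeval y (grd F i l)) c l b = aeval y (pderiv l (F k)) := by
      intro l
      unfold colS
      rw [Matrix.of_apply, hc]
      rfl
    simp only [h1]
    refine Fin.cases ?_ (fun l => ?_) i
    · unfold Pool.Agent.Y169.TH.wm sel seld
      simp only [Matrix.of_apply, Fin.cases_zero, hc, Option.elim_some]
      rw [← euler hh]
      exact Finset.sum_congr rfl fun l _ => by rw [Nat.cast_one, one_mul]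
    · unfold Pool.Agent.Y169.TH.wm sel seld
      simp only [Matrix.of_apply, Fin.cases_succ, hc, Option.elim_some]
      rw [Pool.Agent.Y169.CH.chain]
      exact Finset.sum_congr rfl fun l _ => by rw [mul_comm]


/-- **The order of the canonical form.** -/
theorem ord_nc [Fintype ι] (hS : Ncr F) {dF : ι → ℕ} (hh : ∀ k, (F k).IsHomogeneous (dF k))
    {P : Place ℂ K} {y : Fin (n + 1) → K} (hyreg : ∀ l, P.Reg (y l)) (hyne : ∀ l, y l ≠ 0)
    {j : Fin (n + 1)} (hj : P.ord (y j) = 0) (hFne : ∀ k, aeval y (F k) ≠ 0)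
    {D : Fin n → Derivation ℂ K K} (hD : ∀ l, DerReg P (D l)) :
    Ge P (∑ k, P.ord (aeval y (F k)) - 1) (bw D y) := by
  classical
  have hnn : ∀ k, 0 ≤ P.ord (aeval y (F k)) := fun k => (reg_aeval hyreg (F k)).resolve_left (hFne k)
  obtain ⟨J, hJ⟩ : ∃ J : Finset ι, J = Finset.univ.filter fun k => P.ord (aeval y (F k)) ≠ 0 :=
    ⟨_, rfl⟩
  obtain ⟨c, hc, hc0, hc1⟩ := exists_unit_sel P hS hyreg (hyne j) hj J fun k hk => by
    right
    rw [hJ, Finset.mem_filter] at hk
    have := hk.2
    have := hnn k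
    omega
  have hsne : ∀ b, sel F c y b ≠ 0 := by
    intro b
    unfold sel
    rcases c b with _ | k
    · exact hyne b
    · exact hFne k
  have hs0 : ∀ b, 0 ≤ P.ord (sel F c y b) := by
    intro b
    unfold sel
    rcases c b with _ | k
    · exact (hyreg b).resolve_left (hyne b)
    · exact hnn k
  have hsum : ∑ k, P.ord (aeval y (F k)) ≤ ∑ b, P.ord (sel F c y b) := by
    have h1 : ∀ k : J, ∃ b, c b = some k.1 := fun k => hc.1 k.1 k.2
    choose φ hφ using h1
    have hinj : Function.Injective φ := by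
      intro a b hab
      have h2 := hφ a
      rw [hab, hφ] at h2
      exact Subtype.ext (Option.some.inj h2).symm
    have h2 : ∑ k, P.ord (aeval y (F k)) = ∑ k : J, P.ord (aeval y (F k.1)) := by
      rw [Finset.sum_coe_sort J fun k => P.ord (aeval y (F k)), hJ, Finset.sum_filter]
      refine Finset.sum_congr rfl fun k _ => ?_
      by_cases hk : P.ord (aeval y (F k)) = 0
      · rw [if_neg (by simpa using hk), hk]
      · rw [if_pos hk]
    have h3 : ∑ k : J, P.ord (aeval y (F k.1)) =
        ∑ b ∈ Finset.univ.image φ, P.ord (sel F c y b) := by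
      rw [Finset.sum_image fun a _ b _ hab => hinj hab]
      refine Finset.sum_congr rfl fun k _ => ?_
      unfold sel
      rw [hφ]
      rfl
    rw [h2, h3]
    exact Finset.sum_le_sum_of_subset_of_nonneg (Finset.subset_univ _) fun b _ _ => hs0 b
  have h2 : Ge P (∑ k, P.ord (aeval y (F k)) + -1)
      (Pool.Agent.Y169.TH.wm D (seld dF c) (sel F c y)).det := by
    rw [Pool.Agent.Y169.TH.wm_lm D _ hsne]
    have h3 := (ge_ord P (∏ b, sel F c y b)).mul
      (Pool.Agent.Y169.TH.lm_reg P hD (seld dF c) hsne)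
    rw [ord_prod' P Finset.univ _ fun b _ => hsne b] at h3
    exact h3.mono (by linarith)
  rw [← bw_sel hh] at h2
  rcases h2 with h2 | h2
  · exact Or.inl ((mul_eq_zero.1 h2).resolve_right hc0)
  · by_cases h0 : bw D y = 0
    · exact Or.inl h0
    · right
      rw [P.ord_mul h0 hc0, hc1, add_zero] at h2
      exact h2

end

theorem ncr_ne {F : ι → MvPolynomial (Fin (n + 1)) ℂ} (hS : Ncr F) (k : ι) : F k ≠ 0 := by
  intro h0
  have h1 := hS (Pi.single 0 1) (by
    intro h
    have := congrFun h 0
    simp at this)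
  have h2 := h1.ne_zero ⟨k, by rw [h0, map_zero]⟩
  apply h2
  funext l
  change eval _ (pderiv l (F k)) = 0
  rw [h0, map_zero, map_zero]

/-- homogeneous polynomials in the coordinates -/
theorem hom_ne' {K : Type} [Field K] [Algebra ℂ K] {x : Fin (n + 1) → K} (hx0 : x 0 ≠ 0)
    (hbas : AlgebraicIndependent ℂ fun b : Fin n => x b.succ / x 0)
    {H : MvPolynomial (Fin (n + 1)) ℂ} {D : ℕ} (hH : H.IsHomogeneous D) (h0 : H ≠ 0) :
    aeval x H ≠ 0 := by
  have h1 := scale' (y := fun l => x l / x 0) hx0 (fun l => rfl) hH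
  rw [h1]
  refine mul_ne_zero (pow_ne_zero _ hx0) ?_
  rw [← aeval_deh (x := fun l => x l / x 0) (div_self hx0)]
  intro h2
  exact deh_ne hH h0 ((injective_iff_map_eq_zero _).1 hbas _ h2)

/-- **Normal crossing families are log canonical.** -/
theorem nc_lca [Fintype ι] {G : ι → MvPolynomial (Fin (n + 1)) ℂ} {dG : ι → ℕ}
    (hh : ∀ i, (G i).IsHomogeneous (dG i)) (hS : Ncr G) (c : ι → Fin (n + 1))
    {F : Fin (n + 1) → MvPolynomial (Fin (n + 1)) ℂ}
    (hF : ∀ k, F k = ∏ i with c i = k, G i) : Lca F := by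
  classical
  intro K _ _ x hx0 hbas htop P hP hreg hex D hD
  have hxne : ∀ l, x l ≠ 0 := by
    intro l
    refine Fin.cases hx0 (fun b => ?_) l
    intro h0
    have h1 := hbas.1.ne_zero b
    rw [h0, zero_div] at h1
    exact h1 rfl
  obtain ⟨j, hj⟩ := hex
  have hG : ∀ i, aeval x (G i) ≠ 0 := fun i => hom_ne' hx0 hbas.1 (hh i) (ncr_ne hS i)
  have h1 := ord_nc hS hh (fun l => Or.inr (hreg l)) hxne hj hG hD
  rcases h1 with h1 | h1
  · exact Or.inl h1
  · right
    refine le_trans (le_of_eq ?_) h1
    congr 1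
    have h2 : ∀ k, P.ord (aeval x (F k)) = ∑ i with c i = k, P.ord (aeval x (G i)) := by
      intro k
      rw [hF, map_prod, ord_prod' P _ _ fun i _ => hG i]
    rw [Finset.sum_congr rfl fun k _ => h2 k]
    exact Finset.sum_fiberwise _ _ _

theorem nc_noc [Fintype ι] {G : ι → MvPolynomial (Fin (n + 1)) ℂ} {dG : ι → ℕ}
    (hh : ∀ i, (G i).IsHomogeneous (dG i)) (hS : Ncr G) (c : ι → Fin (n + 1))
    {F : Fin (n + 1) → MvPolynomial (Fin (n + 1)) ℂ}
    (hF : ∀ k, F k = ∏ i with c i = k, G i) : Noc F := by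
  classical
  intro x hx
  by_contra hcon
  push Not at hcon
  have hex : ∀ k, ∃ i, c i = k ∧ eval x (G i) = 0 := by
    intro k
    have h1 := hcon k
    rw [hF, map_prod, Finset.prod_eq_zero_iff] at h1
    obtain ⟨i, hi, h2⟩ := h1
    exact ⟨i, (Finset.mem_filter.1 hi).2, h2⟩
  choose i hi1 hi2 using hex
  have hinj : Function.Injective i := fun a b hab => by rw [← hi1 a, hab, hi1]
  have h1 := hS x hx
  have h2 : LinearIndependent ℂ fun (k l : Fin (n + 1)) => eval x (pderiv l (G (i k))) :=
    h1.comp (fun k => (⟨i k, hi2 k⟩ : {k // eval x (G k) = 0})) fun a b hab =>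
      hinj (congrArg (fun z => z.1) hab)
  have h3 : IsUnit (Matrix.of fun (k l : Fin (n + 1)) => eval x (pderiv l (G (i k)))) :=
    Matrix.linearIndependent_rows_iff_isUnit.1 h2
  apply hx
  have h4 : (Matrix.of fun (k l : Fin (n + 1)) => eval x (pderiv l (G (i k)))).mulVec x = 0 := by
    funext k
    have h5 := congrArg (eval x) (hh (i k)).sum_X_mul_pderiv
    rw [map_sum, map_nsmul, hi2, smul_zero] at h5
    rw [Matrix.mulVec, dotProduct, Pi.zero_apply, ← h5]
    refine Finset.sum_congr rfl fun l _ => ?_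
    rw [map_mul, eval_X, Matrix.of_apply, mul_comm]
  have h6 := congrArg (fun v => (Matrix.of fun (k l : Fin (n + 1)) =>
    eval x (pderiv l (G (i k))))⁻¹.mulVec v) h4
  simp only [Matrix.mulVec_mulVec, Matrix.mulVec_zero] at h6
  rw [Matrix.nonsing_inv_mul _ ((Matrix.isUnit_iff_isUnit_det _).1 h3), Matrix.one_mulVec] at h6
  exact h6

end Pool.Agent.J4.H19.LC.Nc
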