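import Pool.Agent.J4.H19.LC.Mon
import Pool.Agent.J4.H19.LC.Nc

/-!
Effective semiampleness for covers which are branched along log canonical hypersurfaces.
-/

set_option autoImplicit false
set_option linter.overlappingInstances false
set_option linter.unusedSectionVars false
set_option maxHeartbeats 1000000

open FF MvPolynomial IntermediateField Pool.Agent.W603.LV Pool.Agent.W602.GT Pool.Agent.W602.Cov
open Pool.Agent.W602.Cov.G Pool.Agent.TH152.AC Pool.Agent.TH122.AB Pool.Agent.Y169.CH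

open Pool.Agent.Y169.TH

namespace Pool.Agent.J4.H19.LC

namespace Cv

variable {d : ℕ} {Φ : Arr (d + 1)} {K : Type} [Field K] [Algebra ℂ K] {R : ℕ} (C : Cv Φ K R)

include C in
/-- there is a divisorial place -/
theorem exists_div : ∃ Q : Place ℂ K, Divisorial (d + 1) Q := by
  obtain ⟨L, hL⟩ : ∃ L, L = IntermediateField.adjoin ℂ (Set.range C.u) := ⟨_, rfl⟩
  have hfin : FiniteDimensional L K := by
    rw [hL]
    exact C.fin_u
  obtain ⟨X, hXu⟩ : ∃ X : Fin (d + 1) → L, ∀ b, ((X b : L) : K) = C.u b :=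
    ⟨fun b => ⟨C.u b, by rw [hL]; exact IntermediateField.subset_adjoin ℂ _ ⟨b, rfl⟩⟩, fun _ => rfl⟩
  have hX : Gens (k := ℂ) X := gens_of C.u_bas.1 hL hXu
  have hirr : Irreducible (MvPolynomial.X 0 : MvPolynomial (Fin (d + 1)) ℂ) :=
    (MvPolynomial.X_prime (i := (0 : Fin (d + 1)))).irreducible
  obtain ⟨v, -, hv⟩ := exists_adic hX hirr
  obtain ⟨w, e, hw⟩ := Pool.Agent.Y172.exists_above (L := K) v
  exact ⟨w, div_adic hX hirr hv hw⟩

end Cv

variable {d R : ℕ} {K : Type} [Field K] [Algebra ℂ K]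

/-- **The main theorem.** -/
theorem main_eff {x : Fin (d + 2) → K} (hx0 : x 0 ≠ 0)
    (hbas : IsTranscendenceBasis ℂ fun b : Fin (d + 1) => x b.succ / x 0)
    {F : Fin (d + 2) → MvPolynomial (Fin (d + 2)) ℂ} {dF : Fin (d + 2) → ℕ} (hd : ∀ k, 0 < dF k)
    (hh : ∀ k, (F k).IsHomogeneous (dF k)) (hF0 : ∀ k, F k ≠ 0) (hN : Noc F) (hL : Lca F)
    {z : Fin R → K} {M : Fin R → ℕ}
    (hM : ∀ j, 0 < M j) {a : Fin R → Fin (d + 2) → ℕ}
    (hz : ∀ j, z j ^ M j = ∏ k, (aeval x (F k) / x 0 ^ dF k) ^ a j k)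
    (hdiv : ∀ j, M j ∣ ∑ k, a j k * dF k)
    (hgen : IntermediateField.adjoin ℂ
      (Set.range (fun b : Fin (d + 1) => x b.succ / x 0) ∪ Set.range z) = ⊤)
    {B : ℕ} (hB1 : ∀ k, dF k ≤ B) (hB2 : ∏ j, M j ≤ B) :
    (APsef (d + 1) K → ∃ h : ℕ, (∃ ω : Fin (h + 1) → (Fin (d + 1) → Derivation ℂ K K) → K,
      (∀ b, ASec (d + 1) {1} (Cv.prd (d + 1) B) 1 (ω b)) ∧
      ∃ D, ω 0 D ≠ 0 ∧ AlgebraicIndependent ℂ (fun b : Fin h => ω b.succ D / ω 0 D)) ∧
      ANum (d + 1) K h) ∧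
    ∀ (N : ℕ) (y : Fin (N + 1) → K), Pool.Agent.Y172.NormalModel y →
      Pool.Agent.R887.Canonical y (d + 1) → Pool.Agent.R887.LogNef y (d + 1) 0 →
      ∀ Q : Place ℂ K, Divisorial (d + 1) Q →
      ∃ ω, Pool.Agent.Y172.IsSection y (d + 1) (Cv.prd (d + 1) B) 0 ω ∧
        ∀ P, Pool.Agent.Y172.IsPrimeDivisor y P → Pool.Agent.Y172.Through y P Q →
          Pool.Agent.Y172.OrdEq P ω 0 := by
  classical
  have hmain := main hx0 hbas hd hh hF0 hN hL hM hz hdiv hgen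
  obtain ⟨Φ, rfl, C, rfl, rfl⟩ := exists_cv hx0 hbas hd hh hF0 hN hL hM hz hdiv hgen
  constructor
  · intro hps
    have hne := hmain.1.1 hps
    exact ⟨_, C.kod_eff hne rfl hB1 hB2, (hmain.2.2 hne).2⟩
  · intro N y hy hcan hnef Q hQ
    have hn : Algebra.trdeg ℂ K = ((d + 1 : ℕ) : Cardinal) := by
      rw [← C.u_bas.cardinalMk_eq_trdeg, Cardinal.mk_fin]
    obtain ⟨D0, hD0⟩ := exists_dual C.u_bas
    have hD : ∀ i j, D0 i (C.u j) = if i = j then 1 else 0 := by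
      intro i j
      have h1 := congrFun (congrFun hD0 i) j
      rw [Matrix.of_apply, Matrix.one_apply] at h1
      exact h1
    obtain ⟨Q0, hQ0⟩ := C.exists_div
    have hne := hmain.1.1 (psef_of_nef hy hn C.u_bas hD hcan hnef hQ0)
    exact C.semi_eff hne hB1 hB2 hy hcan hnef hQ

end Pool.Agent.J4.H19.LC
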