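import Pool.Agent.Y172.Dim2
import Pool.Agent.R887.DefsNefP
import Pool.Agent.Y169.CH.Top

/-!
Base points of sections which compute the asymptotic order at a place, if `K_X` is nef.
-/

set_option autoImplicit false
set_option linter.overlappingInstances false
set_option linter.unusedSectionVars false
set_option maxHeartbeats 400000

open FF MvPolynomial Pool.Agent.W602.GT Pool.Agent.W603.LV Pool.Agent.W619.PQ
open Pool.Agent.TH122.AB Pool.Agent.Y172 Pool.Agent.R887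

namespace Pool.Agent.J4.H19.LC

section

variable {K : Type} [Field K] [Algebra ℂ K] {N n : ℕ} {y : Fin (N + 1) → K}

/-- **The order along a place in terms of the value on a fixed frame.** -/
theorem exists_c [Algebra.EssFiniteType ℂ K] (hn : Algebra.trdeg ℂ K = n) {x : Fin n → K}
    (hx : IsTranscendenceBasis ℂ x) {D : Fin n → Derivation ℂ K K}
    (hD : ∀ i j, D i (x j) = if i = j then 1 else 0) {P : Place ℂ K} (hP : Divisorial n P) :
    ∃ c : ℤ, ∀ (m : ℕ) (ω : (Fin n → Derivation ℂ K K) → K), IsPluri m ω → ∀ r : ℚ,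
      (OrdGe P ω r ↔ (ω D = 0 ∨ r ≤ m * c + P.ord (ω D))) ∧
      (ω D ≠ 0 → (OrdEq P ω r ↔ (m * c + P.ord (ω D) : ℚ) = r)) := by
  classical
  obtain ⟨z, E, i0, hl⟩ := exists_loc hn hP
  obtain ⟨δ, hδ⟩ : ∃ δ, δ = (Matrix.of fun i j => E i (x j)).det := ⟨_, rfl⟩
  have hco : ∀ (m : ℕ) (ω : (Fin n → Derivation ℂ K K) → K), IsPluri m ω →
      ω E = δ ^ m * ω D := fun m ω hω => by rw [hδ]; exact pluri_coord hx hD hω E
  have hδ0 : δ ≠ 0 := by
    intro h0
    have h1 : (Matrix.of fun i j => E i (x j)) * (Matrix.of fun i j => D i (z j)) = 1 := by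
      ext i j
      have h2 := Pool.Agent.W73.PG.PULL.expand x hx D hD (E i)
      have h3 := DFunLike.congr_fun h2 (z j)
      rw [Matrix.mul_apply, Matrix.one_apply, ← hl.dual i j, ← h3, sum_smul_apply]
      rfl
    have h2 := congrArg Matrix.det h1
    rw [Matrix.det_mul, ← hδ, h0, zero_mul, Matrix.det_one] at h2
    exact zero_ne_one h2
  refine ⟨P.ord δ, fun m ω hω r => ?_⟩
  have h1 := hco m ω hω
  constructor
  · rw [ordGe_iff hl hω]
    by_cases h0 : ω D = 0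
    · rw [h1, h0, mul_zero]
      simp
    · have h2 : ω E ≠ 0 := by
        rw [h1]
        exact mul_ne_zero (pow_ne_zero _ hδ0) h0
      have h3 : (P.ord (ω E) : ℚ) = m * P.ord δ + P.ord (ω D) := by
        rw [h1, P.ord_mul (pow_ne_zero _ hδ0) h0, P.ord_pow]
        push_cast
        rfl
      rw [h3]
      simp only [h0, h2, false_or]
  · intro h0
    have h2 : ω E ≠ 0 := by
      rw [h1]
      exact mul_ne_zero (pow_ne_zero _ hδ0) h0
    rw [ordEq_iff hl hω h2, h1, P.ord_mul (pow_ne_zero _ hδ0) h0, P.ord_pow]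
    push_cast
    exact Iff.rfl

/-- a unit of the local ring -/
theorem inv_localRing {Q : Place ℂ K} {f : K} (hf : f ∈ localRing y Q)
    (hf0 : f ≠ 0) (ho : Q.ord f = 0) : f⁻¹ ∈ localRing y Q := by
  obtain ⟨j, hj, a, ha, b, hb, hb0, hbo, hab⟩ := hf
  have ha0 : a ≠ 0 := by
    rw [← hab]
    exact mul_ne_zero hf0 hb0
  refine ⟨j, hj, b, hb, a, ha, ha0, ?_, ?_⟩
  · rw [← hab, Q.ord_mul hf0 hb0, ho, hbo, add_zero]
  · rw [← hab, ← mul_assoc, inv_mul_cancel₀ hf0, one_mul]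

/-- there is a prime divisor through the centre of a place -/
theorem exists_through (hy : NormalModel y) (Q : Place ℂ K) :
    ∃ P, IsPrimeDivisor y P ∧ Through y P Q := by
  by_contra hcon
  push Not at hcon
  obtain ⟨t, ht0, ht⟩ := Q.surj
  have h1 := localRing_reg (mem_localRing_of_reg hy (Q := Q) (f := t⁻¹) fun P hP hPt =>
    absurd hPt (hcon P hP))
  rw [Q.reg_iff (inv_ne_zero ht0), Q.ord_inv] at h1
  omega

/-- the frame dual to a transcendence basis, and the orders of the forms -/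
theorem exists_cc (hy : NormalModel y) (hn : Algebra.trdeg ℂ K = n) {x : Fin n → K}
    (hx : IsTranscendenceBasis ℂ x) {D : Fin n → Derivation ℂ K K}
    (hD : ∀ i j, D i (x j) = if i = j then 1 else 0) :
    IsFrame D ∧ (∃ c : Place ℂ K → ℤ, ∀ P, Divisorial n P → ∀ (m : ℕ)
      (ω : (Fin n → Derivation ℂ K K) → K), IsPluri m ω → ∀ r : ℚ,
      (OrdGe P ω r ↔ (ω D = 0 ∨ r ≤ m * c P + P.ord (ω D))) ∧
      (ω D ≠ 0 → (OrdEq P ω r ↔ (m * c P + P.ord (ω D) : ℚ) = r))) ∧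
    ∀ (m : ℕ) (ω : (Fin n → Derivation ℂ K K) → K), IsPluri m ω → ∀ P r,
      OrdEq P ω r → ω D ≠ 0 := by
  have hess := hy.ess
  have hfr : IsFrame D := fun F => ⟨fun j => F (x j),
    (Pool.Agent.W73.PG.PULL.expand x hx D hD F).symm⟩
  have hcc : ∀ P : Place ℂ K, ∃ c : ℤ, Divisorial n P → ∀ (m : ℕ)
      (ω : (Fin n → Derivation ℂ K K) → K), IsPluri m ω → ∀ r : ℚ,
      (OrdGe P ω r ↔ (ω D = 0 ∨ r ≤ m * c + P.ord (ω D))) ∧
      (ω D ≠ 0 → (OrdEq P ω r ↔ (m * c + P.ord (ω D) : ℚ) = r)) := by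
    intro P
    by_cases hP : Divisorial n P
    · obtain ⟨c, hc⟩ := exists_c hn hx hD hP
      exact ⟨c, fun _ => hc⟩
    · exact ⟨0, fun h => absurd h hP⟩
  choose c hc using hcc
  refine ⟨hfr, ⟨c, hc⟩, ?_⟩
  intro m ω hω P r h h0
  obtain ⟨-, E', -, h1, -⟩ := h
  rw [pluri_zero hfr hω h0] at h1
  exact h1 rfl

/-- the quotients of the homogeneous coordinates -/
noncomputable def quo (y : Fin (N + 1) → K) (i : Fin (N + 1)) : Finset K := by
  classical
  exact Finset.univ.image fun l => y l / y i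

theorem mem_quo (y : Fin (N + 1) → K) (i l : Fin (N + 1)) : y l / y i ∈ quo y i := by
  classical
  unfold quo
  exact Finset.mem_image_of_mem _ (Finset.mem_univ l)

/-- twisted sections are sections on all models -/
theorem twist_sec (hy : NormalModel y) (hn : Algebra.trdeg ℂ K = n) {x : Fin n → K}
    (hx : IsTranscendenceBasis ℂ x) {D : Fin n → Derivation ℂ K K}
    (hD : ∀ i j, D i (x j) = if i = j then 1 else 0)
    (hcan : Canonical y n) {i : Fin (N + 1)} (hi : y i ≠ 0) {m q : ℕ}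
    {ω : (Fin n → Derivation ℂ K K) → K} (hω : IsTwistedSectionP y i n 0 (m * q) m ω) :
    Pool.Agent.Y169.CH.ASec n (quo y i) (m * q) m ω := by
  classical
  have hess := hy.ess
  obtain ⟨hfr, ⟨c, hc⟩, hne⟩ := exists_cc hy hn hx hD
  have hdiv : ∀ P, IsPrimeDivisor y P → Divisorial n P := fun P hP => hP.divisorial hy hn
  refine ⟨hω.1, fun Q' hQ' D' hD' => ?_⟩
  obtain ⟨r', hr', η', hη', hη'eq, hη'Q⟩ := hcan Q' hQ'
  obtain ⟨P', hP', hP't⟩ := exists_through hy Q'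
  have hη'D : η' D ≠ 0 := hne r' η' hη' P' 0 (hη'eq P' hP' hP't)
  obtain ⟨l, hl⟩ := exists_centred hy Q'
  have hyl : y i / y l ≠ 0 := div_ne_zero hi hl.1
  by_cases hωD : ω D = 0
  · left
    rw [pluri_zero hfr hω.1 hωD]
    rfl
  have hf : ω D ^ r' * (y i / y l) ^ (m * r') / η' D ^ (m * q) ∈ localRing y Q' := by
    refine mem_localRing_of_reg hy fun P hP hPt => ?_
    right
    rw [P.ord_div (mul_ne_zero (pow_ne_zero _ hωD) (pow_ne_zero _ hyl)) (pow_ne_zero _ hη'D),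
      P.ord_mul (pow_ne_zero _ hωD) (pow_ne_zero _ hyl), P.ord_pow, P.ord_pow, P.ord_pow]
    have h1 := ((hc P (hdiv P hP) _ ω hω.1 _).1.1 (hω.2 P l hP (hPt.centred hl))).resolve_left hωD
    have h2 := ((hc P (hdiv P hP) _ η' hη' 0).2 hη'D).1 (hη'eq P hP hPt)
    rw [Pi.zero_apply, mul_zero, neg_zero, zero_sub] at h1
    have h3 : -((m : ℤ) * P.ord (y i / y l)) ≤ ((m * q : ℕ) : ℤ) * c P + P.ord (ω D) := by
      exact_mod_cast h1
    have h4 : (r' : ℤ) * c P + P.ord (η' D) = 0 := by exact_mod_cast h2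
    have h5 : (0 : ℤ) ≤ r' := by positivity
    have h6 := mul_le_mul_of_nonneg_left h3 h5
    have h7 : P.ord (η' D) = - (r' * c P) := by linarith
    rw [h7]
    push_cast at h6 ⊢
    nlinarith
  have h1 := localRing_reg hf
  rw [Q'.reg_iff (div_ne_zero (mul_ne_zero (pow_ne_zero _ hωD) (pow_ne_zero _ hyl))
    (pow_ne_zero _ hη'D)),
    Q'.ord_div (mul_ne_zero (pow_ne_zero _ hωD) (pow_ne_zero _ hyl)) (pow_ne_zero _ hη'D),
    Q'.ord_mul (pow_ne_zero _ hωD) (pow_ne_zero _ hyl), Q'.ord_pow, Q'.ord_pow, Q'.ord_pow] at h1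
  have h2 := ((hc Q' hQ' _ η' hη' 0).1.1 hη'Q).resolve_left hη'D
  have h3 : (0 : ℤ) ≤ (r' : ℤ) * c Q' + Q'.ord (η' D) := by exact_mod_cast h2
  have h4 : OrdGe Q' ω (-(m * Q'.ord (y i / y l))) := by
    refine (hc Q' hQ' _ ω hω.1 _).1.2 (Or.inr ?_)
    have h5 : -((m : ℤ) * Q'.ord (y i / y l)) ≤ ((m * q : ℕ) : ℤ) * c Q' + Q'.ord (ω D) := by
      have h6 : (0 : ℤ) < r' := by exact_mod_cast hr'
      have h7 := mul_nonneg (show (0 : ℤ) ≤ (m * q : ℕ) by positivity) h3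
      refine le_of_mul_le_mul_left ?_ h6
      push_cast at h1 h7 ⊢
      nlinarith
    exact_mod_cast h5
  rcases h4 D' hD' with h5 | h5
  · exact Or.inl h5
  right
  refine ⟨y l / y i, ?_, div_ne_zero hl.1 hi, ?_⟩
  · exact mem_quo y i l
  · have h6 : Q'.ord (y l / y i) = - Q'.ord (y i / y l) := by
      rw [Q'.ord_div hl.1 hi, Q'.ord_div hi hl.1]
      ring
    rw [h6]
    have h7 : -((m : ℤ) * Q'.ord (y i / y l)) ≤ Q'.ord (ω D') := by exact_mod_cast h5
    linarith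

/-- **Base points.** Let `K_X` be nef, and let the order at `Q` of the section `ω0` of `T K_X` be,
relatively, the smallest one asymptotically. Then the centre of `Q` is not a base point. -/
theorem semi_of_low (hy : NormalModel y) (hn : Algebra.trdeg ℂ K = n) {x : Fin n → K}
    (hx : IsTranscendenceBasis ℂ x) {D : Fin n → Derivation ℂ K K}
    (hD : ∀ i j, D i (x j) = if i = j then 1 else 0)
    (hcan : Canonical y n) (hnef : LogNef y n 0) {Q : Place ℂ K} (hQ : Divisorial n Q) {T : ℕ}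
    {ω0 : (Fin n → Derivation ℂ K K) → K} (hω0 : IsPluri T ω0)
    (hreg : ∀ P, IsPrimeDivisor y P → OrdGe P ω0 0) (hω00 : ω0 D ≠ 0)
    (hlow : ∀ S : Finset K, ∃ A1 : ℚ, 0 ≤ A1 ∧ ∀ (m j : ℕ) (ω : (Fin n → Derivation ℂ K K) → K),
      Pool.Agent.Y169.CH.ASec n S m j ω → ω D = 0 ∨
        (m : ℚ) * Q.ord (ω0 D) ≤ T * Q.ord (ω D) + A1 * (j + 1)) :
    ∀ P, IsPrimeDivisor y P → Through y P Q → OrdEq P ω0 0 := by
  classical
  have hess := hy.ess
  obtain ⟨hfr, ⟨c, hc⟩, hne⟩ := exists_cc hy hn hx hD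
  have hdiv : ∀ P, IsPrimeDivisor y P → Divisorial n P := fun P hP => hP.divisorial hy hn
  obtain ⟨i, hi⟩ := hy.ne
  obtain ⟨A1, hA1, hlow⟩ := hlow (quo y i)
  obtain ⟨r, hr, η, hη, hηeq, hηQ⟩ := hcan Q hQ
  obtain ⟨P0, hP0, hP0t⟩ := exists_through hy Q
  have hηD : η D ≠ 0 := hne r η hη P0 0 (hηeq P0 hP0 hP0t)
  obtain ⟨q, hq⟩ := exists_nat_gt (2 * r * A1)
  have hq1 : 1 ≤ q := by
    have h1 : (0 : ℚ) ≤ 2 * r * A1 := by positivity
    have h2 : (0 : ℚ) < q := lt_of_le_of_lt h1 hq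
    exact_mod_cast h2
  obtain ⟨m, hm, hgen⟩ := hnef i hi q hq1
  obtain ⟨ω, hω, hωg⟩ := hgen Q hQ
  have hsec := twist_sec hy hn hx hD hcan hi hω
  obtain ⟨l, hl⟩ := exists_centred hy Q
  have hyl : y i / y l ≠ 0 := div_ne_zero hi hl.1
  have hωD : ω D ≠ 0 := hne _ ω hω.1 P0 _ (hωg P0 l hP0 hP0t (hP0t.centred hl))
  -- the generators
  have hPη : ∀ P, IsPrimeDivisor y P → Through y P Q → (r : ℤ) * c P + P.ord (η D) = 0 := by
    intro P hP hPt
    have h2 := ((hc P (hdiv P hP) _ η hη 0).2 hηD).1 (hηeq P hP hPt)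
    exact_mod_cast h2
  obtain ⟨f2, hf2⟩ : ∃ f2, f2 = ω D ^ r * (y i / y l) ^ (m * r) / η D ^ (m * q) := ⟨_, rfl⟩
  have hf20 : f2 ≠ 0 := by
    rw [hf2]
    exact div_ne_zero (mul_ne_zero (pow_ne_zero _ hωD) (pow_ne_zero _ hyl)) (pow_ne_zero _ hηD)
  have hordf2 : ∀ P : Place ℂ K, P.ord f2 = r * P.ord (ω D) + (m * r : ℕ) * P.ord (y i / y l) -
      (m * q : ℕ) * P.ord (η D) := by
    intro P
    rw [hf2, P.ord_div (mul_ne_zero (pow_ne_zero _ hωD) (pow_ne_zero _ hyl)) (pow_ne_zero _ hηD),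
      P.ord_mul (pow_ne_zero _ hωD) (pow_ne_zero _ hyl), P.ord_pow, P.ord_pow, P.ord_pow]
  have hf2P : ∀ P, IsPrimeDivisor y P → Through y P Q → P.ord f2 = 0 := by
    intro P hP hPt
    have h1 := ((hc P (hdiv P hP) _ ω hω.1 _).2 hωD).1 (hωg P l hP hPt (hPt.centred hl))
    rw [Pi.zero_apply, mul_zero, neg_zero, zero_sub] at h1
    have h3 : ((m * q : ℕ) : ℤ) * c P + P.ord (ω D) = -((m : ℤ) * P.ord (y i / y l)) := by
      exact_mod_cast h1
    have h4 := hPη P hP hPt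
    have h5 : P.ord (ω D) = -((m : ℤ) * P.ord (y i / y l)) - ((m * q : ℕ) : ℤ) * c P := by linarith
    have h7 : P.ord (η D) = - (r * c P) := by linarith
    rw [hordf2, h5, h7]
    push_cast
    ring
  have hf2Q : Q.ord f2 = 0 := by
    have h1 := localRing_reg (mem_localRing_of_reg hy (Q := Q) (f := f2) fun P hP hPt =>
      Or.inr (hf2P P hP hPt).ge)
    have h2 := localRing_reg (mem_localRing_of_reg hy (Q := Q) (f := f2⁻¹) fun P hP hPt =>
      Or.inr (by rw [P.ord_inv, hf2P P hP hPt, neg_zero]))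
    rw [Q.reg_iff hf20] at h1
    rw [Q.reg_iff (inv_ne_zero hf20), Q.ord_inv] at h2
    omega
  obtain ⟨f1, hf1⟩ : ∃ f1, f1 = ω0 D ^ r / η D ^ T := ⟨_, rfl⟩
  have hf10 : f1 ≠ 0 := by
    rw [hf1]
    exact div_ne_zero (pow_ne_zero _ hω00) (pow_ne_zero _ hηD)
  have hordf1 : ∀ P : Place ℂ K, P.ord f1 = r * P.ord (ω0 D) - T * P.ord (η D) := by
    intro P
    rw [hf1, P.ord_div (pow_ne_zero _ hω00) (pow_ne_zero _ hηD), P.ord_pow, P.ord_pow]
  have hf1mem : f1 ∈ localRing y Q := by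
    refine mem_localRing_of_reg hy fun P hP hPt => ?_
    right
    have h1 := ((hc P (hdiv P hP) _ ω0 hω0 _).1.1 (hreg P hP)).resolve_left hω00
    have h3 : (0 : ℤ) ≤ (T : ℤ) * c P + P.ord (ω0 D) := by exact_mod_cast h1
    have h4 := hPη P hP hPt
    have h7 : P.ord (η D) = - (r * c P) := by linarith
    have h8 := mul_nonneg (show (0 : ℤ) ≤ r by positivity) h3
    rw [hordf1, h7]
    nlinarith
  have hf1Q : Q.ord f1 = 0 := by
    have h1 := (Q.reg_iff hf10).1 (localRing_reg hf1mem)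
    have h2 := (hlow (m * q) m ω hsec).resolve_left hωD
    have h3 := hf2Q
    rw [hordf2] at h3
    have h4 : 0 ≤ Q.ord (y i / y l) := (Q.reg_iff hyl).1 (hl.2 i)
    by_contra hne1
    have h5 : 1 ≤ Q.ord f1 := by omega
    have h6 : ((m * q : ℕ) : ℤ) * Q.ord f1 ≤
        r * (((m * q : ℕ) : ℤ) * Q.ord (ω0 D) - T * Q.ord (ω D)) := by
      rw [hordf1]
      have h7 : (0 : ℤ) ≤ (T : ℤ) * ((m * r : ℕ) * Q.ord (y i / y l)) := by positivity
      have h8 : ((m * q : ℕ) : ℤ) * Q.ord (η D) = r * Q.ord (ω D) +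
        (m * r : ℕ) * Q.ord (y i / y l) := by linarith
      have h9 : ((m * q : ℕ) : ℤ) * (r * Q.ord (ω0 D) - T * Q.ord (η D)) =
          r * (((m * q : ℕ) : ℤ) * Q.ord (ω0 D)) - T * (((m * q : ℕ) : ℤ) * Q.ord (η D)) := by ring
      rw [h9, h8]
      nlinarith
    have h7 : ((m * q : ℕ) : ℚ) * Q.ord f1 ≤
        r * (((m * q : ℕ) : ℚ) * Q.ord (ω0 D) - T * Q.ord (ω D)) := by exact_mod_cast h6
    have h8 : (1 : ℚ) ≤ Q.ord f1 := by exact_mod_cast h5
    have h9 : (1 : ℚ) ≤ m := by exact_mod_cast hm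
    have h10 : (0 : ℚ) ≤ r := by positivity
    have h11 : (r : ℚ) * (((m * q : ℕ) : ℚ) * Q.ord (ω0 D) - T * Q.ord (ω D)) ≤
        r * (A1 * (m + 1)) := mul_le_mul_of_nonneg_left (by linarith) h10
    have h12 : (r : ℚ) * (A1 * (m + 1)) ≤ (2 * r * A1) * m := by
      have : (0 : ℚ) ≤ r * A1 := by positivity
      nlinarith
    have h13 : ((m * q : ℕ) : ℚ) * 1 ≤ ((m * q : ℕ) : ℚ) * Q.ord f1 :=
      mul_le_mul_of_nonneg_left h8 (by positivity)
    push_cast at h13 h7 h11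
    have h14 : (m : ℚ) * q ≤ (2 * r * A1) * m := by linarith
    have h15 : (2 * r * A1) * m < q * m := mul_lt_mul_of_pos_right hq (by linarith)
    linarith
  intro P hP hPt
  have h1 := hPt _ (inv_localRing hf1mem hf10 hf1Q)
  have h2 := hPt _ hf1mem
  rw [P.reg_iff (inv_ne_zero hf10), P.ord_inv] at h1
  rw [P.reg_iff hf10] at h2
  have h3 : P.ord f1 = 0 := by omega
  rw [hordf1] at h3
  refine ((hc P (hdiv P hP) _ ω0 hω0 0).2 hω00).2 ?_
  have h4 := hPη P hP hPt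
  have h5 : (T : ℤ) * c P + P.ord (ω0 D) = 0 := by
    have h6 : (0 : ℤ) < r := by exact_mod_cast hr
    have h7 : (r : ℤ) * ((T : ℤ) * c P + P.ord (ω0 D)) = 0 := by
      have h8 : P.ord (η D) = - (r * c P) := by linarith
      rw [h8] at h3
      linarith
    exact (mul_eq_zero.1 h7).resolve_left h6.ne'
  exact_mod_cast h5

/-- nef divisors are pseudo-effective -/
theorem psef_of_nef (hy : NormalModel y) (hn : Algebra.trdeg ℂ K = n) {x : Fin n → K}
    (hx : IsTranscendenceBasis ℂ x) {D : Fin n → Derivation ℂ K K}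
    (hD : ∀ i j, D i (x j) = if i = j then 1 else 0)
    (hcan : Canonical y n) (hnef : LogNef y n 0) {Q : Place ℂ K} (hQ : Divisorial n Q) :
    Pool.Agent.Y169.CH.APsef n K := by
  classical
  obtain ⟨hfr, ⟨c, hc⟩, hne⟩ := exists_cc hy hn hx hD
  obtain ⟨i, hi⟩ := hy.ne
  refine ⟨quo y i, fun M => ?_⟩
  rcases Nat.eq_zero_or_pos M with rfl | hM
  · refine ⟨1, le_rfl, fun _ => 1, fun h0 => one_ne_zero (congrFun h0 D), fun A D' => by simp,
      fun P _ D' _ => Or.inr ⟨1, ?_, one_ne_zero, by simp⟩⟩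
    have h1 := mem_quo y i i
    rwa [div_self hi] at h1
  · obtain ⟨m, hm, hgen⟩ := hnef i hi M hM
    obtain ⟨ω, hω, hωg⟩ := hgen Q hQ
    obtain ⟨P0, hP0, hP0t⟩ := exists_through hy Q
    obtain ⟨l, hl⟩ := exists_centred hy Q
    have hωD : ω D ≠ 0 := hne _ ω hω.1 P0 _ (hωg P0 l hP0 hP0t (hP0t.centred hl))
    exact ⟨m, hm, ω, fun h0 => hωD (congrFun h0 D), twist_sec hy hn hx hD hcan hi hω⟩

end

end Pool.Agent.J4.H19.LC
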