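import Pool.Agent.Y169.TH.LP

/-!
Vertices of rational polyhedra and the minima of linear forms.
-/

set_option autoImplicit false
set_option linter.overlappingInstances false
set_option linter.unusedSectionVars false
set_option maxHeartbeats 400000

open Pool.Agent.TH152.AC Pool.Agent.Y169.TH

namespace Pool.Agent.J4.H19.LC

section

variable {N : ℕ} {ι : Type} [Fintype ι] {d : Fin N → ℚ} {κ : ℚ} {v : ι → Fin N → ℚ}

/-- **Stability of the minimum.** -/
theorem lp_min (hd : ∀ k, 0 < d k) (hv : ∀ y : Fin N → ℚ, (∀ s, 0 ≤ dotL (v s) y) → ∀ k, 0 ≤ y k)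
    {u : Fin N → ℚ} {c0 : ℚ} (hu : ∀ y ∈ Pol d κ v, c0 ≤ dotL u y) :
    ∃ A0 : ℚ, 0 ≤ A0 ∧ ∀ (y : Fin N → ℚ) (m c B : ℚ), 0 ≤ m → 0 ≤ c → 0 ≤ B →
      (∀ s, m - c ≤ dotL (v s) y) → |dotL d y - κ * m| ≤ B →
        c0 * m - A0 * (c + B) ≤ dotL u y := by
  classical
  let l : ι ⊕ (Bool ⊕ Unit) → ((Fin N → ℚ) × ℚ) →ₗ[ℚ] ℚ := Sum.elim
    (fun s => LinearMap.snd ℚ _ _ - (dotL (v s)).comp (LinearMap.fst ℚ _ _))
    (Sum.elim (fun b => (if b then (1 : ℚ) else -1) • ((dotL d).comp (LinearMap.fst ℚ _ _) -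
      κ • LinearMap.snd ℚ _ _)) fun _ => - LinearMap.snd ℚ _ _)
  obtain ⟨w, hw, hf⟩ := farkas_fin l
    (c0 • LinearMap.snd ℚ (Fin N → ℚ) ℚ - (dotL u).comp (LinearMap.fst ℚ _ _)) (by
    rintro ⟨y, t⟩ hyt
    have h1 : ∀ s, t - dotL (v s) y ≤ 0 := fun s => hyt (Sum.inl s)
    have h2 := hyt (Sum.inr (Sum.inl true))
    have h3 := hyt (Sum.inr (Sum.inl false))
    have h4 : - t ≤ 0 := hyt (Sum.inr (Sum.inr ()))
    simp only [l, Sum.elim_inr, Sum.elim_inl, if_true, LinearMap.smul_apply, LinearMap.sub_apply,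
      LinearMap.comp_apply, LinearMap.fst_apply, LinearMap.snd_apply, smul_eq_mul] at h2 h3
    have h5 : dotL d y = κ * t := by
      simp at h3
      linarith
    change c0 * t - dotL u y ≤ 0
    rcases (show 0 ≤ t by linarith).lt_or_eq with ht | ht
    · have h6 := hu _ (scale_pol ht h5 fun s => by linarith [h1 s])
      rw [map_smul, smul_eq_mul, ← div_eq_inv_mul, le_div_iff₀ ht] at h6
      linarith
    · have h6 : ∀ k, 0 ≤ y k := hv y fun s => by linarith [h1 s]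
      rw [← ht, mul_zero, dotL_apply] at h5
      have h7 := (Finset.sum_eq_zero_iff_of_nonneg fun k _ => mul_nonneg (hd k).le (h6 k)).1 h5
      have h8 : y = 0 := by
        funext k
        exact (mul_eq_zero.1 (h7 k (Finset.mem_univ k))).resolve_left (hd k).ne'
      rw [h8, map_zero, ← ht]
      simp)
  obtain ⟨c1, hc1⟩ : ∃ c1, c1 = w (Sum.inr (Sum.inl true)) - w (Sum.inr (Sum.inl false)) := ⟨_, rfl⟩
  refine ⟨∑ s, w (Sum.inl s) + |c1|, add_nonneg (Finset.sum_nonneg fun s _ => hw _) (abs_nonneg _),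
    fun y m c B hm hc hB h1 h2 => ?_⟩
  have h3 := hf (y, m)
  rw [Fintype.sum_sum_type, Fintype.sum_sum_type, Fintype.sum_bool] at h3
  simp only [l, Sum.elim_inr, Sum.elim_inl, if_true, LinearMap.smul_apply, LinearMap.sub_apply,
    LinearMap.comp_apply, LinearMap.fst_apply, LinearMap.snd_apply, smul_eq_mul,
    LinearMap.neg_apply, Finset.univ_unique, Finset.sum_singleton] at h3
  have h4 : ∑ s, w (Sum.inl s) * (m - dotL (v s) y) ≤ (∑ s, w (Sum.inl s)) * c := by
    rw [Finset.sum_mul]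
    exact Finset.sum_le_sum fun s _ => mul_le_mul_of_nonneg_left (by linarith [h1 s]) (hw _)
  have h5 : c1 * (dotL d y - κ * m) ≤ |c1| * B := by
    calc c1 * (dotL d y - κ * m) ≤ |c1 * (dotL d y - κ * m)| := le_abs_self _
      _ = |c1| * |dotL d y - κ * m| := abs_mul _ _
      _ ≤ |c1| * B := mul_le_mul_of_nonneg_left h2 (abs_nonneg _)
  have h6 : 0 ≤ w (Sum.inr (Sum.inr ())) * m := mul_nonneg (hw _) hm
  have h7 : 0 ≤ (∑ s, w (Sum.inl s)) * B := mul_nonneg (Finset.sum_nonneg fun s _ => hw _) hB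
  have h8 : 0 ≤ |c1| * c := mul_nonneg (abs_nonneg _) hc
  have h9 : c0 * m - dotL u y = ∑ s, w (Sum.inl s) * (m - dotL (v s) y) +
      c1 * (dotL d y - κ * m) - w (Sum.inr (Sum.inr ())) * m := by
    rw [h3, hc1]
    simp
    ring
  nlinarith

/-- vertices -/
def Vert (d : Fin N → ℚ) (κ : ℚ) (v : ι → Fin N → ℚ) (y : Fin N → ℚ) : Prop :=
  y ∈ Pol d κ v ∧ ∀ z : Fin N → ℚ, dotL d z = 0 → (∀ s, dotL (v s) y = 1 → dotL (v s) z = 0) → z = 0

theorem vert_finite : {y | Vert d κ v y}.Finite := by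
  classical
  let A : (Fin N → ℚ) → Finset ι := fun y => Finset.univ.filter fun s => dotL (v s) y = 1
  refine Set.Finite.of_injOn (f := A) (t := Set.univ) (fun _ _ => trivial) ?_ (Set.toFinite _)
  intro y hy y' hy' h
  have h1 : y - y' = 0 := by
    refine hy.2 _ (by rw [map_sub, hy.1.1, hy'.1.1, sub_self]) fun s hs => ?_
    have h2 : s ∈ A y := by simpa [A] using hs
    rw [h] at h2
    have h3 : dotL (v s) y' = 1 := by simpa [A] using h2
    rw [map_sub, hs, h3, sub_self]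
  exact sub_eq_zero.1 h1

theorem exists_vert_le (hd : ∀ k, 0 < d k)
    (hv : ∀ y : Fin N → ℚ, (∀ s, 0 ≤ dotL (v s) y) → ∀ k, 0 ≤ y k) (u : Fin N → ℚ)
    {y' : Fin N → ℚ} (hy' : y' ∈ Pol d κ v) : ∃ y, Vert d κ v y ∧ dotL u y ≤ dotL u y' := by
  classical
  let A : (Fin N → ℚ) → Finset ι := fun y => Finset.univ.filter fun s => dotL (v s) y = 1
  obtain ⟨S, hS⟩ : ∃ S : Set (Fin N → ℚ), S = {y | y ∈ Pol d κ v ∧ dotL u y ≤ dotL u y'} :=
    ⟨_, rfl⟩
  have hne : S.Nonempty := ⟨y', by rw [hS]; exact ⟨hy', le_rfl⟩⟩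
  obtain ⟨F, ⟨y, hyS, rfl⟩, hmax⟩ := Set.exists_max_image (A '' S) Finset.card
    (Set.toFinite _) (hne.image _)
  rw [hS] at hyS
  obtain ⟨hy, hyu⟩ := hyS
  refine ⟨y, ⟨hy, fun z0 hz00 hz0a => ?_⟩, hyu⟩
  by_contra hz0ne
  obtain ⟨z, hz0, hz, hzne, hzu⟩ : ∃ z : Fin N → ℚ, dotL d z = 0 ∧
      (∀ s, dotL (v s) y = 1 → dotL (v s) z = 0) ∧ z ≠ 0 ∧ dotL u z ≤ 0 := by
    rcases le_total (dotL u z0) 0 with h | h
    · exact ⟨z0, hz00, hz0a, hz0ne, h⟩
    · refine ⟨-z0, by rw [map_neg, hz00, neg_zero], fun s hs => by rw [map_neg, hz0a s hs, neg_zero],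
        neg_ne_zero.2 hz0ne, by rw [map_neg]; linarith⟩
  obtain ⟨s0, hs0⟩ : ∃ s, dotL (v s) z < 0 := by
    by_contra hcon
    push Not at hcon
    have h1 := hv z hcon
    rw [dotL_apply] at hz0
    have h2 := (Finset.sum_eq_zero_iff_of_nonneg fun k _ => mul_nonneg (hd k).le (h1 k)).1 hz0
    apply hzne
    funext k
    exact (mul_eq_zero.1 (h2 k (Finset.mem_univ k))).resolve_left (hd k).ne'
  obtain ⟨s, hs, hmin⟩ := Finset.exists_min_image (Finset.univ.filter fun s => dotL (v s) z < 0)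
    (fun s => (dotL (v s) y - 1) / (- dotL (v s) z)) ⟨s0, by simpa using hs0⟩
  rw [Finset.mem_filter] at hs
  have hsz : 0 < - dotL (v s) z := by linarith [hs.2]
  obtain ⟨t, ht⟩ : ∃ t, t = (dotL (v s) y - 1) / (- dotL (v s) z) := ⟨_, rfl⟩
  have ht0 : 0 ≤ t := by
    rw [ht]
    exact div_nonneg (by linarith [hy.2 s]) hsz.le
  have hdot : ∀ s, dotL (v s) (y + t • z) = dotL (v s) y + t * dotL (v s) z := by
    intro s
    rw [map_add, map_smul, smul_eq_mul]
  have hmem : y + t • z ∈ Pol d κ v := by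
    refine ⟨?_, fun s' => ?_⟩
    · rw [map_add, map_smul, hz0, hy.1, smul_zero, add_zero]
    · rw [hdot]
      by_cases h1 : dotL (v s') z < 0
      · have h2 := hmin s' (by simpa using h1)
        rw [← ht, le_div_iff₀ (by linarith)] at h2
        linarith
      · push Not at h1
        have h2 := hy.2 s'
        have h3 := mul_nonneg ht0 h1
        linarith
  have hmemS : y + t • z ∈ S := by
    rw [hS]
    refine ⟨hmem, ?_⟩
    rw [map_add, map_smul, smul_eq_mul]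
    have := mul_nonneg ht0 (neg_nonneg.2 hzu)
    linarith
  have hlt : (A y).card < (A (y + t • z)).card := by
    apply Finset.card_lt_card
    rw [Finset.ssubset_iff_of_subset]
    · refine ⟨s, ?_, ?_⟩
      · simp only [A, Finset.mem_filter, Finset.mem_univ, true_and]
        have h1 : t * (- dotL (v s) z) = dotL (v s) y - 1 := by
          rw [ht]
          exact div_mul_cancel₀ _ hsz.ne'
        rw [hdot]
        linarith
      · simp only [A, Finset.mem_filter, Finset.mem_univ, true_and]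
        intro h1
        have h2 := hz s h1
        linarith
    · intro s' hs'
      simp only [A, Finset.mem_filter, Finset.mem_univ, true_and] at hs' ⊢
      rw [hdot, hz s' hs', mul_zero, add_zero, hs']
  exact absurd (hmax _ ⟨_, hmemS, rfl⟩) (not_le.2 hlt)

/-- **Minimal vertices.** -/
theorem exists_vert_min (hd : ∀ k, 0 < d k)
    (hv : ∀ y : Fin N → ℚ, (∀ s, 0 ≤ dotL (v s) y) → ∀ k, 0 ≤ y k) (u : Fin N → ℚ)
    (hne : (Pol d κ v).Nonempty) :
    ∃ y, Vert d κ v y ∧ ∀ y' ∈ Pol d κ v, dotL u y ≤ dotL u y' := by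
  obtain ⟨y0, hy0⟩ := hne
  obtain ⟨y1, hy1, -⟩ := exists_vert_le hd hv u hy0
  obtain ⟨y, hy, hmin⟩ := Set.exists_min_image {y | Vert d κ v y} (fun y => dotL u y) vert_finite
    ⟨y1, hy1⟩
  refine ⟨y, hy, fun y' hy' => ?_⟩
  obtain ⟨y2, hy2, h⟩ := exists_vert_le hd hv u hy'
  exact (hmin y2 hy2).trans h

/-- **Independent vertices.** -/
theorem exists_verts (hd : ∀ k, 0 < d k)
    (hv : ∀ y : Fin N → ℚ, (∀ s, 0 ≤ dotL (v s) y) → ∀ k, 0 ≤ y k)
    (hne : (Pol d κ v).Nonempty) {h : ℕ}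
    (hh : Module.finrank ℚ (vectorSpan ℚ (Pol d κ v)) = h) :
    ∃ (y0 : Fin N → ℚ) (y : Fin h → Fin N → ℚ), Vert d κ v y0 ∧ (∀ i, Vert d κ v (y i)) ∧
      LinearIndependent ℚ fun i => y i - y0 := by
  classical
  obtain ⟨y0, hy0, -⟩ := exists_vert_min hd hv 0 hne
  obtain ⟨S, hS⟩ : ∃ S : Set (Fin N → ℚ), S = (fun y => y - y0) '' {y | Vert d κ v y} := ⟨_, rfl⟩
  have hspan : Submodule.span ℚ S = vectorSpan ℚ (Pol d κ v) := by
    apply le_antisymm
    · rw [Submodule.span_le, hS]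
      rintro _ ⟨y, hy, rfl⟩
      exact vsub_mem_vectorSpan ℚ hy.1 hy0.1
    · intro w hw
      by_contra hcon
      obtain ⟨f, hf0, hf⟩ := Submodule.exists_dual_map_eq_bot_of_notMem hcon inferInstance
      obtain ⟨u, hu⟩ : ∃ u : Fin N → ℚ, ∀ z, f z = dotL u z := by
        refine ⟨fun i => f fun j => if i = j then 1 else 0, fun z => ?_⟩
        rw [LinearMap.pi_apply_eq_sum_univ f z, dotL_apply]
        exact Finset.sum_congr rfl fun i _ => by rw [smul_eq_mul, mul_comm]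
      have hfS : ∀ y, Vert d κ v y → f y = f y0 := by
        intro y hy
        have h1 : f (y - y0) ∈ (Submodule.span ℚ S).map f :=
          Submodule.mem_map_of_mem (Submodule.subset_span (by rw [hS]; exact ⟨y, hy, rfl⟩))
        rw [hf, Submodule.mem_bot, map_sub] at h1
        exact sub_eq_zero.1 h1
      have hfc : ∀ y ∈ Pol d κ v, f y = f y0 := by
        intro y hy
        obtain ⟨y1, hy1, h1⟩ := exists_vert_le hd hv u hy
        obtain ⟨y2, hy2, h2⟩ := exists_vert_le hd hv (-u) hy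
        have h3 : ∀ z, dotL (-u) z = - dotL u z := by
          intro z
          rw [dotL_apply, dotL_apply, ← Finset.sum_neg_distrib]
          exact Finset.sum_congr rfl fun i _ => by rw [Pi.neg_apply, neg_mul]
        rw [h3, h3, ← hu, ← hu, hfS y2 hy2] at h2
        rw [← hu, ← hu, hfS y1 hy1] at h1
        linarith
      apply hf0
      have h4 : vectorSpan ℚ (Pol d κ v) ≤ LinearMap.ker f := by
        rw [vectorSpan_def, Submodule.span_le]
        rintro z ⟨y, hy, y', hy', rfl⟩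
        change f (y - y') = 0
        rw [map_sub, hfc y hy, hfc y' hy', sub_self]
      exact h4 hw
  have hfin := Submodule.exists_fun_fin_finrank_span_eq ℚ S
  have hN : Module.finrank ℚ (Submodule.span ℚ S) = h := by rw [hspan, hh]
  rw [hN] at hfin
  obtain ⟨g, hg1, -, hg3⟩ := hfin
  rw [hS] at hg1
  choose y hy using hg1
  refine ⟨y0, y, hy0, fun i => (hy i).1, ?_⟩
  have h1 : (fun i => y i - y0) = g := funext fun i => (hy i).2
  rw [h1]
  exact hg3

end

/-- **Small denominators.** -/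
theorem vert_small {N : ℕ} {ι : Type} [Fintype ι] {d : Fin N → ℤ} {κ : ℤ} {v : ι → Fin N → ℤ}
    {y : Fin N → ℚ} (hyv : Vert (fun k => (d k : ℚ)) (κ : ℚ) (fun s k => (v s k : ℚ)) y)
    {B : ℤ} (hdB : ∀ k, |d k| ≤ B) (hvB : ∀ s k, |v s k| ≤ B) :
    ∃ T : ℕ, 1 ≤ T ∧ (T : ℤ) ≤ N.factorial * B ^ N ∧ ∀ k, ∃ z : ℤ, (T : ℚ) * y k = z := by
  classical
  obtain ⟨hy, hvert⟩ := hyv
  let ro : Option {s // dotL (fun k => (v s k : ℚ)) y = 1} → Fin N → ℤ :=
    fun o => o.elim d fun s => v s.1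
  let rq : Option {s // dotL (fun k => (v s k : ℚ)) y = 1} → Fin N → ℚ :=
    fun o k => (ro o k : ℚ)
  let rh : Option {s // dotL (fun k => (v s k : ℚ)) y = 1} → ℤ := fun o => o.elim κ fun _ => 1
  have hro : ∀ o, dotL (rq o) y = rh o := by
    rintro (_ | s)
    · exact hy.1
    · exact s.2.trans (by simp [rh])
  have hspan : Submodule.span ℚ (Set.range rq) = ⊤ := by
    by_contra hne
    obtain ⟨f, hf, hker⟩ := Submodule.exists_le_ker_of_lt_top _ (lt_top_iff_ne_top.2 hne)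
    apply hf
    obtain ⟨z, hz⟩ : ∃ z : Fin N → ℚ, z = fun i => f fun j => if i = j then 1 else 0 := ⟨_, rfl⟩
    have hfz : ∀ w, f w = dotL w z := by
      intro w
      rw [LinearMap.pi_apply_eq_sum_univ f w, dotL_apply, hz]
      rfl
    have h0 : ∀ o, dotL (rq o) z = 0 := by
      intro o
      rw [← hfz]
      exact hker (Submodule.subset_span ⟨o, rfl⟩)
    have h1 : z = 0 := hvert z (h0 none) fun s hs => h0 (some ⟨s, hs⟩)
    ext1 w
    ext1
    rw [LinearMap.comp_apply, hfz, h1, map_zero]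
    rfl
  have hfin := Submodule.exists_fun_fin_finrank_span_eq ℚ (Set.range rq)
  have hN : Module.finrank ℚ (Submodule.span ℚ (Set.range rq)) = N := by
    rw [hspan, finrank_top, Module.finrank_fin_fun]
  rw [hN] at hfin
  obtain ⟨f, hf1, -, hf3⟩ := hfin
  choose g hg using hf1
  let Z : Matrix (Fin N) (Fin N) ℤ := Matrix.of fun i k => ro (g i) k
  have hZq : Z.map (Int.cast : ℤ → ℚ) = Matrix.of f := by
    ext i k
    change ((ro (g i) k : ℤ) : ℚ) = f i k
    rw [← hg i]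
  have hdet : Z.det ≠ 0 := by
    intro h0
    have h1 : IsUnit (Matrix.of f) := Matrix.linearIndependent_rows_iff_isUnit.1 hf3
    rw [Matrix.isUnit_iff_isUnit_det, ← hZq] at h1
    have h2 : (Z.map (Int.cast : ℤ → ℚ)).det = ((Z.det : ℤ) : ℚ) :=
      (RingHom.map_det (Int.castRingHom ℚ) Z).symm
    rw [h2, h0, Int.cast_zero] at h1
    exact not_isUnit_zero h1
  refine ⟨Z.det.natAbs, Int.natAbs_pos.2 hdet, ?_, fun k => ?_⟩
  · rw [Int.natCast_natAbs]
    have h1 := Matrix.det_le (A := Z) (abv := AbsoluteValue.abs) (x := B) (by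
      intro i k
      change |ro (g i) k| ≤ B
      rcases g i with _ | s
      · exact hdB k
      · exact hvB s.1 k)
    rw [Fintype.card_fin, nsmul_eq_mul] at h1
    exact h1
  · have h1 : (Z.map (Int.cast : ℤ → ℚ)).mulVec y = fun i => (rh (g i) : ℚ) := by
      rw [hZq]
      funext i
      rw [← hro (g i), dotL_apply, hg i]
      rfl
    have h2 : (Z.adjugate.map (Int.cast : ℤ → ℚ)).mulVec ((Z.map (Int.cast : ℤ → ℚ)).mulVec y) =
        (Z.det : ℚ) • y := by
      rw [Matrix.mulVec_mulVec]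
      have h3 : Z.adjugate.map (Int.cast : ℤ → ℚ) * Z.map (Int.cast : ℤ → ℚ) =
          (Z.adjugate * Z).map (Int.cast : ℤ → ℚ) :=
        (Matrix.map_mul (f := Int.castRingHom ℚ)).symm
      rw [h3, Matrix.adjugate_mul]
      have h4 : (Z.det • (1 : Matrix (Fin N) (Fin N) ℤ)).map (Int.cast : ℤ → ℚ) =
          (Z.det : ℚ) • (1 : Matrix (Fin N) (Fin N) ℚ) := by
        ext i j
        rw [Matrix.map_apply, Matrix.smul_apply, Matrix.smul_apply, Matrix.one_apply,
          Matrix.one_apply]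
        split_ifs
        · rw [smul_eq_mul, smul_eq_mul, mul_one, mul_one]
        · rw [smul_zero, smul_zero, Int.cast_zero]
      rw [h4, Matrix.smul_mulVec, Matrix.one_mulVec]
    rw [h1] at h2
    obtain ⟨w, hw⟩ : ∃ w : ℤ, w = ∑ i, Z.adjugate k i * rh (g i) := ⟨_, rfl⟩
    have h3 : (Z.det : ℚ) * y k = w := by
      have h4 := congrFun h2 k
      rw [Pi.smul_apply, smul_eq_mul] at h4
      rw [← h4, hw]
      push_cast
      rfl
    obtain ⟨δ, hδ⟩ : ∃ δ : ℤ, δ = Z.det := ⟨_, rfl⟩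
    rw [← hδ] at h3 ⊢
    have h6 : ((δ.natAbs : ℕ) : ℚ) = |(δ : ℚ)| := by
      rw [← Int.cast_abs, Int.abs_eq_natAbs, Int.cast_natCast]
    rw [h6]
    rcases abs_choice (δ : ℚ) with h5 | h5
    · exact ⟨w, by rw [h5, h3]⟩
    · exact ⟨- w, by rw [h5, neg_mul, h3, Int.cast_neg]⟩

end Pool.Agent.J4.H19.LC
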