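import Pool.Agent.Y169.TH.Low
import Pool.Agent.Y169.CH.Clo
import Pool.Agent.Y172.Cov3

/-!
Log canonical pairs of projective space and hypersurfaces without a common point.
-/

set_option autoImplicit false
set_option linter.overlappingInstances false
set_option linter.unusedSectionVars false
set_option maxHeartbeats 400000

open FF MvPolynomial Pool.Agent.W603.LV Pool.Agent.W602.GT Pool.Agent.W602.Cov
open Pool.Agent.W602.Cov.G Pool.Agent.TH152.AC
open Pool.Agent.TH122.AB Pool.Agent.Y169.CH Pool.Agent.Y169.TH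

namespace Pool.Agent.J4.H19.LC

variable {n : ℕ}

/-- the forms have no common zero -/
def Noc (F : Fin (n + 1) → MvPolynomial (Fin (n + 1)) ℂ) : Prop :=
  ∀ x : Fin (n + 1) → ℂ, x ≠ 0 → ∃ k, eval x (F k) ≠ 0

/-- log canonical pairs -/
def Lca (F : Fin (n + 1) → MvPolynomial (Fin (n + 1)) ℂ) : Prop :=
  ∀ (K : Type) [Field K] [Algebra ℂ K] (x : Fin (n + 1) → K), x 0 ≠ 0 →
    IsTranscendenceBasis ℂ (fun b : Fin n => x b.succ / x 0) →
    IntermediateField.adjoin ℂ (Set.range fun b : Fin n => x b.succ / x 0) = ⊤ →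
    ∀ P : Place ℂ K, Divisorial n P → (∀ l, 0 ≤ P.ord (x l)) → (∃ l, P.ord (x l) = 0) →
    ∀ D : Fin n → Derivation ℂ K K, (∀ c, DerReg P (D c)) →
      bw D x = 0 ∨ ∑ k, P.ord (aeval x (F k)) - 1 ≤ P.ord (bw D x)

variable {F : Fin (n + 1) → MvPolynomial (Fin (n + 1)) ℂ}

theorem null_cert2 (hN : Noc F) (j : Fin (n + 1)) :
    ∃ (M : ℕ) (A : Fin (n + 1) → MvPolynomial (Fin (n + 1)) ℂ), X j ^ M = ∑ k, A k * F k := by
  classical
  obtain ⟨I, hI⟩ : ∃ I : Ideal (MvPolynomial (Fin (n + 1)) ℂ), I = Ideal.span (Set.range F) :=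
    ⟨_, rfl⟩
  have h1 : (X j : MvPolynomial (Fin (n + 1)) ℂ) ∈ vanishingIdeal ℂ (zeroLocus ℂ I) := by
    rw [mem_vanishingIdeal_iff]
    intro x hx
    have hx0 : x = 0 := by
      by_contra hne
      obtain ⟨k, hk⟩ := hN x hne
      apply hk
      rw [mem_zeroLocus_iff] at hx
      exact hx (F k) (by rw [hI]; exact Ideal.subset_span ⟨k, rfl⟩)
    rw [hx0, aeval_X]
    rfl
  rw [vanishingIdeal_zeroLocus_eq_radical] at h1
  obtain ⟨M, hM⟩ := h1
  rw [hI, Ideal.mem_span_range_iff_exists_fun] at hM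
  obtain ⟨A, hA⟩ := hM
  exact ⟨M, A, hA.symm⟩

section

variable {K : Type} [Field K] [Algebra ℂ K]

/-- one of the forms does not vanish -/
theorem exists_unit_form (P : Place ℂ K) (hN : Noc F) {y : Fin (n + 1) → K}
    (hy : ∀ l, P.Reg (y l)) {j : Fin (n + 1)} (hj : y j = 1) :
    ∃ k, aeval y (F k) ≠ 0 ∧ P.ord (aeval y (F k)) = 0 := by
  classical
  by_contra hcon
  push Not at hcon
  have h1 : ∀ k, Ge P 1 (aeval y (F k)) := by
    intro k
    by_cases h0 : aeval y (F k) = 0
    · exact Or.inl h0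
    · right
      have h2 := hcon k h0
      have h3 := (reg_aeval hy (F k)).resolve_left h0
      omega
  obtain ⟨M, A, hA⟩ := null_cert2 hN j
  have h4 : Ge P 1 (1 : K) := by
    have h5 := congrArg (aeval y) hA
    rw [map_pow, aeval_X, hj, one_pow, map_sum] at h5
    rw [h5]
    refine Ge.sum _ _ fun k _ => ?_
    rw [map_mul]
    have h6 := (show Ge P 0 (aeval y (A k)) from reg_aeval hy (A k)).mul (h1 k)
    simpa using h6
  rcases h4 with h4 | h4
  · exact one_ne_zero h4
  · rw [P.ord_one] at h4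
    omega

/-- the field generated by the affine coordinates -/
theorem sub_basis {u : Fin n → K} (hu : IsTranscendenceBasis ℂ u) {L : IntermediateField ℂ K}
    (hL : L = IntermediateField.adjoin ℂ (Set.range u)) (hfd : FiniteDimensional L K)
    {u' : Fin n → L} (hu' : ∀ b, (u' b : K) = u b) :
    Algebra.trdeg ℂ L = n ∧ IsTranscendenceBasis ℂ u' ∧
      IntermediateField.adjoin ℂ (Set.range u') = ⊤ ∧ Algebra.EssFiniteType ℂ L := by
  classical
  have halg : Algebra.IsAlgebraic L K := Algebra.IsAlgebraic.of_finite L K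
  have h1 : Algebra.trdeg ℂ L = n := by
    have h2 := trdeg_add_eq ℂ L (A := K)
    rw [trdeg_eq_zero (R := L) (A := K), add_zero,
      Pool.Agent.W602.GT.trdeg_of_basis hu] at h2
    exact h2
  have h2 : AlgebraicIndependent ℂ u' := by
    have h3 : (fun b => L.val (u' b)) = u := funext hu'
    have h4 : AlgebraicIndependent ℂ (L.val ∘ u') := by
      have h5 := hu.1
      rw [← h3] at h5
      exact h5
    exact h4.of_comp L.val
  refine ⟨h1, ?_, ?_, ?_⟩
  · exact h2.isTranscendenceBasis_of_trdeg_le_of_finite (by rw [h1]; simp)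
  · apply IntermediateField.map_injective L.val
    rw [IntermediateField.adjoin_map]
    have h3 : (L.val '' Set.range u') = Set.range u := by
      rw [← Set.range_comp]
      congr 1
      exact funext hu'
    rw [h3, ← hL]
    ext z
    constructor
    · intro hz
      exact ⟨⟨z, hz⟩, trivial, rfl⟩
    · rintro ⟨z, -, rfl⟩
      exact z.2
  · rw [IntermediateField.essFiniteType_iff, hL]
    exact IntermediateField.fg_adjoin_of_finite (Set.finite_range u)

/-- bordered determinants in extensions -/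
theorem map_bw {K0 : Type} [Field K0] [Algebra ℂ K0] [Algebra K0 K] {D : Fin n → Derivation ℂ K0 K0}
    {D' : Fin n → Derivation ℂ K K} (h : ∀ i f, D' i (algebraMap K0 K f) = algebraMap K0 K (D i f))
    (y : Fin (n + 1) → K0) :
    bw D' (fun j => algebraMap K0 K (y j)) = algebraMap K0 K (bw D y) := by
  unfold bw
  rw [RingHom.map_det]
  congr 1
  ext i j
  rw [RingHom.mapMatrix_apply, Matrix.map_apply, Matrix.of_apply, Matrix.of_apply]
  refine Fin.cases rfl (fun l => ?_) i
  exact h l (y j)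

theorem bw_pluri (y : Fin (n + 1) → K) : IsPluri 1 fun D : Fin n → Derivation ℂ K K => bw D y := by
  intro A D
  change bw _ y = _
  rw [(bwa n K).2.1 A D y, pow_one]

/-- **The order in finite extensions.** -/
theorem up_ord (hL : Lca F) {P : Place ℂ K} (hP : Divisorial n P) {u : Fin n → K}
    (hu : IsTranscendenceBasis ℂ u)
    (hfd : FiniteDimensional (IntermediateField.adjoin ℂ (Set.range u)) K) {y : Fin (n + 1) → K}
    {j : Fin (n + 1)} (hj : y j = 1) (hy : ∀ l, y l ≠ 0) (hreg : ∀ l, P.Reg (y l))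
    (hyu : ∀ b, y b.succ / y 0 = u b) {D : Fin n → Derivation ℂ K K} (hD : ∀ l, DerReg P (D l)) :
    Ge P (∑ k, P.ord (aeval y (F k)) - 1) (bw D y) := by
  classical
  obtain ⟨L, hLd⟩ : ∃ L, L = IntermediateField.adjoin ℂ (Set.range u) := ⟨_, rfl⟩
  rw [← hLd] at hfd
  have huL : ∀ b, u b ∈ L := fun b => by
    rw [hLd]
    exact IntermediateField.subset_adjoin ℂ _ ⟨b, rfl⟩
  have h0 : ∀ l, y l / y 0 ∈ L := by
    intro l
    refine Fin.cases ?_ (fun b => ?_) l
    · rw [div_self (hy 0)]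
      exact L.one_mem
    · rw [hyu]
      exact huL b
  have hyL : ∀ l, y l ∈ L := by
    intro l
    have h1 : y l = (y l / y 0) / (y j / y 0) := by
      rw [hj]
      have := hy 0
      field_simp
    rw [h1]
    exact L.div_mem (h0 l) (h0 j)
  obtain ⟨y0, hy0⟩ : ∃ y0 : Fin (n + 1) → L, ∀ l, (y0 l : K) = y l :=
    ⟨fun l => ⟨y l, hyL l⟩, fun l => rfl⟩
  have hyK : (fun l => algebraMap L K (y0 l)) = y := funext hy0
  have hu0 : ∀ b : Fin n, ((y0 b.succ / y0 0 : L) : K) = u b := by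
    intro b
    rw [← hyu, ← hy0, ← hy0]
    rfl
  obtain ⟨htr, hbas, htop, hess⟩ := sub_basis hu hLd hfd hu0
  have halg : Algebra.IsAlgebraic L K := Algebra.IsAlgebraic.of_finite L K
  obtain ⟨P0, e, hov⟩ := Pool.Agent.Y172.exists_below (K := L) P
  have hP0 : Divisorial n P0 := Pool.Agent.Y172.divisorial_down hov hP
  have hy00 : ∀ l, y0 l ≠ 0 := by
    intro l h
    apply hy l
    rw [← hy0, h]
    rfl
  have hj0 : y0 j = 1 := by
    apply Subtype.ext
    rw [hy0, hj]
    rfl
  have hreg0 : ∀ l, P0.Reg (y0 l) := by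
    intro l
    refine hov.reg.1 ?_
    have h1 := hreg l
    rw [← hy0] at h1
    exact h1
  obtain ⟨yl, E, i0, hloc⟩ := Pool.Agent.Y172.exists_loc htr hP0
  have hb : Ge P0 (∑ k, P0.ord (aeval y0 (F k)) - 1) (bw E y0) :=
    hL L y0 (hy00 0) hbas htop P0 hP0 (fun l => (hreg0 l).resolve_left (hy00 l))
      ⟨j, by rw [hj0]; exact P0.ord_one⟩ E hloc.pres
  choose E' hE' using fun i => Pool.Agent.Y172.exists_lift (L := K) htr (E i)
  have hyK' : IsTranscendenceBasis ℂ (fun j => algebraMap L K (yl j)) := hloc.bas.algebraMap_comp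
  have hEL := Pool.Agent.Y172.lift_dual hloc.dual hE'
  have h1 := Pool.Agent.Y172.pluri_coord hyK' hEL (bw_pluri y) D
  have h2 := Pool.Agent.Y172.pull_reg hov hloc hD (m := 1) (ω := fun D => bw D y0) hb
  have h3 : bw E' y = algebraMap L K (bw E y0) := by
    rw [← hyK]
    exact map_bw hE' y0
  change bw D y = _ * bw E' y at h1
  rw [h3] at h1
  rw [h1]
  refine h2.mono ?_
  have h4 : ∀ k, P.ord (aeval y (F k)) = e * P0.ord (aeval y0 (F k)) := by
    intro k
    rw [← hov.2, ← hyK]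
    congr 1
    exact MvPolynomial.aeval_algebraMap_apply K y0 (F k)
  rw [Finset.sum_congr rfl fun k _ => h4 k, ← Finset.mul_sum]
  push_cast
  have := hov.1
  nlinarith

/-- the order of the canonical form -/
theorem lc_aux (hL : Lca F) {P : Place ℂ K} (hP : Divisorial n P) {dF : Fin (n + 1) → ℕ}
    (hh : ∀ k, (F k).IsHomogeneous (dF k)) {x : Fin (n + 1) → K} (hx0 : x 0 = 1)
    (hu : IsTranscendenceBasis ℂ fun b : Fin n => x b.succ)
    (hfd : FiniteDimensional (IntermediateField.adjoin ℂ (Set.range fun b : Fin n => x b.succ)) K)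
    {α : ℤ} {v : Fin (n + 1) → ℕ} (h : Dat P F dF x α v) {D : Fin n → Derivation ℂ K K}
    (hD : ∀ l, DerReg P (D l)) :
    Ge P (((n : ℤ) + 1) * α + ∑ k, (v k : ℤ) - 1) (bw D x) := by
  classical
  obtain ⟨j, y, hj, hy, hyne, hyj, hyreg, hFy, hFyne, hFyv⟩ := h.norm hh
  have h1 := up_ord hL hP hu hfd hyj hyne hyreg (fun b => by
    rw [hy, hy, hx0, div_div_div_cancel_right₀ (h.hx j), div_one]) hD
  rw [Finset.sum_congr rfl fun k _ => hFyv k] at h1
  have h2 : bw D x = x j ^ (n + 1) * bw D y := by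
    rw [← (bwa n K).1 D (x j) y]
    congr 1
    funext l
    rw [hy, mul_div_cancel₀ _ (h.hx j)]
  rw [h2]
  have h3 : Ge P (((n : ℤ) + 1) * α) (x j ^ (n + 1)) := by
    right
    rw [P.ord_pow, hj]
    push_cast
    exact le_rfl
  refine (h3.mul h1).mono (le_of_eq ?_)
  ring

/-- **The order on logarithmic vector fields.** -/
theorem lc_log_ord (hL : Lca F) {P : Place ℂ K} (hP : Divisorial n P) {dF : Fin (n + 1) → ℕ}
    (hh : ∀ k, (F k).IsHomogeneous (dF k)) {x : Fin (n + 1) → K} (hx0 : x 0 = 1)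
    (hu : IsTranscendenceBasis ℂ fun b : Fin n => x b.succ) (hess : Algebra.EssFiniteType ℂ K)
    (hfd : FiniteDimensional (IntermediateField.adjoin ℂ (Set.range fun b : Fin n => x b.succ)) K)
    {α : ℤ} {v : Fin (n + 1) → ℕ} (h : Dat P F dF x α v) {D : Fin n → Derivation ℂ K K}
    (hD : ∀ l z, P.Reg (D l z / z)) : Ge P (((n : ℤ) + 1) * α + ∑ k, (v k : ℤ)) (bw D x) := by
  classical
  have htr := Pool.Agent.W602.GT.trdeg_of_basis hu
  have h1 := Pool.Agent.Y172.log_gain htr hP (bw_pluri x)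
    (c := ((((n : ℤ) + 1) * α + ∑ k, (v k : ℤ) - 1 : ℤ) : ℝ)) (fun G hG => by
      rcases lc_aux hL hP hh hx0 hu hfd h hG with h2 | h2
      · exact Or.inl h2
      · exact Or.inr (by exact_mod_cast h2)) (D := D) (fun i => hD i)
  rcases h1 with h1 | h1
  · exact Or.inl h1
  · right
    have h2 : (((((n : ℤ) + 1) * α + ∑ k, (v k : ℤ) : ℤ)) : ℝ) ≤ P.ord (bw D x) := by
      refine le_trans (le_of_eq ?_) h1
      push_cast
      ring
    exact_mod_cast h2

/-- **The order on regular vector fields.** -/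
theorem lc_reg_ord (hL : Lca F) {P : Place ℂ K} (hP : Divisorial n P) {dF : Fin (n + 1) → ℕ}
    (hh : ∀ k, (F k).IsHomogeneous (dF k)) {x : Fin (n + 1) → K} (hx0 : x 0 = 1)
    (hu : IsTranscendenceBasis ℂ fun b : Fin n => x b.succ)
    (hfd : FiniteDimensional (IntermediateField.adjoin ℂ (Set.range fun b : Fin n => x b.succ)) K)
    {α : ℤ} {v : Fin (n + 1) → ℕ} (h : Dat P F dF x α v) {D : Fin n → Derivation ℂ K K}
    (hD : ∀ l, DerReg P (D l)) :
    Ge P (((n : ℤ) + 1) * α + ∑ k, (v k : ℤ) - (if v = 0 then 0 else 1)) (bw D x) := by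
  classical
  by_cases hv : v = 0
  · rw [if_pos hv]
    obtain ⟨j, y, hj, hy, hyne, hyj, hyreg, hFy, hFyne, hFyv⟩ := h.norm hh
    have h1 : Ge P 0 (bw D y) := by
      refine Pool.Agent.W619.PQ.ge_det P _ fun i b => ?_
      refine Fin.cases ?_ (fun l => ?_) i
      · exact hyreg b
      · exact hD l _ (hyreg b)
    have h2 : bw D x = x j ^ (n + 1) * bw D y := by
      rw [← (bwa n K).1 D (x j) y]
      congr 1
      funext l
      rw [hy, mul_div_cancel₀ _ (h.hx j)]
    rw [h2]
    have h3 : Ge P (((n : ℤ) + 1) * α) (x j ^ (n + 1)) := by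
      right
      rw [P.ord_pow, hj]
      push_cast
      exact le_rfl
    refine (h3.mul h1).mono (le_of_eq ?_)
    rw [hv]
    simp
  · rw [if_neg hv]
    exact lc_aux hL hP hh hx0 hu hfd h hD

end

end Pool.Agent.J4.H19.LC
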