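import Pool.Agent.J4.H19.LC.SecTr
import Pool.Agent.J4.H19.LC.Kod
import Pool.Agent.J4.H19.LC.LPv

/-!
The order of the sections of multiples of the canonical divisor at arbitrary places: the bound by
the minimum of a linear form on the polyhedron.
-/

set_option autoImplicit false
set_option linter.overlappingInstances false
set_option linter.unusedSectionVars false
set_option maxHeartbeats 1000000

open FF MvPolynomial IntermediateField Pool.Agent.W603.LV Pool.Agent.W619.PQ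
open Pool.Agent.W619.TW Pool.Agent.W602.GT Pool.Agent.TH122.AB Pool.Agent.TH756.PN
open Pool.Agent.Y169.CH Pool.Agent.W602.Cov.G
open Pool.Agent.Y169.TH

namespace Pool.Agent.J4.H19.LC

namespace Cv

variable {d : ℕ} {Φ : Arr (d + 1)} {K : Type} [Field K] [Algebra ℂ K] {R : ℕ} (C : Cv Φ K R)

include C in
theorem kappa_pos (hne : (PiA C.M C.a Φ.dF).Nonempty) :
    0 < ∑ k, (Φ.dF k : ℤ) - (d + 2) := by
  have hPi := PiA_eq (M := C.M) (a := C.a) (dF := Φ.dF) C.hM (by omega)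
  have hdq : ∀ k, (0 : ℚ) < Φ.dF k := fun k => by exact_mod_cast Φ.hd k
  have hL : (0 : ℚ) < per C.M := by exact_mod_cast per_pos C.hM
  obtain ⟨y, hy⟩ := hne
  rw [hPi] at hy
  have h1 : ∀ k, 0 < y k := by
    intro k
    have h2 := nonneg_of_red C.hM (by omega) hy.2 k
    by_contra hneg
    push Not at hneg
    nlinarith
  have h2 : (0 : ℚ) < (∑ k, (Φ.dF k : ℚ) - ((d + 2 : ℕ) : ℚ)) := by
    rw [← hy.1, dotL_apply]
    exact Finset.sum_pos (fun k _ => mul_pos (hdq k) (h1 k)) ⟨0, Finset.mem_univ _⟩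
  have h3 : ((0 : ℤ) : ℚ) < ((∑ k, (Φ.dF k : ℤ) - (d + 2) : ℤ) : ℚ) := by
    push_cast at h2 ⊢
    exact h2
  exact_mod_cast h3

/-- **The lower bound.** -/
theorem sec_low (S : Finset K)
    {D : Fin (d + 1) → Derivation ℂ K K} (hD : ∀ i j, D i (C.u j) = if i = j then 1 else 0)
    {Q : Place ℂ K} {α : ℤ} {v : Fin (d + 2) → ℕ} (hdat : Dat Q Φ.F Φ.dF C.x α v) (hα : α ≤ 0)
    (hne : (PiA C.M C.a Φ.dF).Nonempty) {c0 : ℚ}
    (hc0 : ∀ y ∈ PiA C.M C.a Φ.dF, c0 ≤ ∑ k, (v k : ℚ) * y k) :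
    ∃ A1 : ℚ, 0 ≤ A1 ∧ ∀ (m j : ℕ) (ω : (Fin (d + 1) → Derivation ℂ K K) → K),
      Sec (d + 1) (pw S j) m ω → ω D = 0 ∨
        c0 * m + α * (∑ k, (Φ.dF k : ℚ) - (d + 2)) * m - A1 * (j + 1) ≤
          (Q.ord (ω D * C.Lam m) : ℚ) := by
  classical
  have hκ0' := C.kappa_pos hne
  rw [PiA_eq C.hM (by omega)] at hc0
  choose T hT using fun s : Red C.M C.a => C.exists_dir s.2
  obtain ⟨c, hC⟩ := C.sec_tr T S hD Q
  obtain ⟨κ, hκ⟩ : ∃ κ : ℤ, κ = ∑ k, (Φ.dF k : ℤ) - (d + 2) := ⟨_, rfl⟩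
  have hκq : (∑ k, (Φ.dF k : ℚ) - ((d + 2 : ℕ) : ℚ)) = κ := by
    rw [hκ]
    push_cast
    ring
  have hκq' : (∑ k, (Φ.dF k : ℚ) - (d + 2)) = κ := by
    rw [hκ]
    push_cast
    ring
  rw [hκq] at hc0
  rw [hκq']
  rw [← hκ] at hκ0'
  have hdq : ∀ k, (0 : ℚ) < Φ.dF k := fun k => by exact_mod_cast Φ.hd k
  have hL : (0 : ℚ) < per C.M := by exact_mod_cast per_pos C.hM
  have hnn : ∀ y : Fin (d + 2) → ℚ, (∀ s : Red C.M C.a, 0 ≤ dotL s.q y) → ∀ k, 0 ≤ y k := by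
    intro y hy k
    have h1 := nonneg_of_red C.hM (by omega) hy k
    exact nonneg_of_mul_nonneg_right h1 hL
  obtain ⟨A0, hA0, hmin⟩ := lp_min (u := fun k => (v k : ℚ)) (c0 := c0) hdq hnn (fun y hy => by
    rw [dotL_apply]
    exact hc0 y hy)
  refine ⟨A0 * (2 * c + Φ.E) + c + (-α) * (c + Φ.E), ?_, fun m j ω hω => ?_⟩
  · have h1 : (0 : ℚ) ≤ -α := by
      have : (0 : ℤ) ≤ -α := by omega
      exact_mod_cast this
    positivity
  by_cases hω0 : ω D = 0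
  · exact Or.inl hω0
  right
  obtain ⟨X, hX⟩ : ∃ X : ℤ, X = κ * m + c * (j + 1) := ⟨_, rfl⟩
  have hX0 : 0 ≤ X := by
    rw [hX]
    positivity
  obtain ⟨q, hq⟩ : ∃ q : ℕ, q = X.toNat / Φ.E + 1 := ⟨_, rfl⟩
  have hXn : (X.toNat : ℤ) = X := Int.toNat_of_nonneg hX0
  have hq1 : X ≤ Φ.E * q := by
    have h1 : X.toNat < Φ.E * (X.toNat / Φ.E + 1) := Nat.lt_mul_div_succ _ Φ.E_pos
    have h2 : (X.toNat : ℤ) ≤ Φ.E * q := by
      rw [hq]
      exact_mod_cast h1.le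
    rwa [hXn] at h2
  have hq2 : (Φ.E * q : ℤ) ≤ X + Φ.E := by
    have h1 : (Φ.E * q : ℕ) ≤ X.toNat + Φ.E := by
      rw [hq, mul_add, mul_one]
      exact Nat.add_le_add_right (Nat.mul_div_le _ _) _
    have h2 : (Φ.E * q : ℤ) ≤ (X.toNat : ℤ) + Φ.E := by exact_mod_cast h1
    rwa [hXn] at h2
  obtain ⟨μ0, hμ0⟩ : ∃ μ0 : ℤ, μ0 = ⌈c0 * m - A0 * (c * (j + 1) + (c * (j + 1) + Φ.E))⌉ := ⟨_, rfl⟩
  obtain ⟨μ, hμ⟩ : ∃ μ : ℤ, μ = μ0 - q * (Φ.ee 0 * v 0) := ⟨_, rfl⟩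
  have h1 := hC m j q ω hω (by rw [← hκ, ← hX]; exact hq1) μ (fun a ha => ?_)
  · have hG0 : aeval C.x (Φ.G 0) ^ q ≠ 0 := pow_ne_zero _ (C.G_ne 0)
    have hnum : ω D * C.Lam m ≠ 0 := mul_ne_zero hω0 (C.Lam_ne m)
    have h2 := h1.resolve_left (div_ne_zero hnum hG0)
    rw [Q.ord_div hnum hG0, Q.ord_pow, C.ord_G hdat, hμ] at h2
    have h3 : μ0 - c * (j + 1) + q * (Φ.E * α) ≤ Q.ord (ω D * C.Lam m) := by
      have h4 : ((q : ℕ) : ℤ) * (Φ.E * α + Φ.ee 0 * v 0) = q * (Φ.E * α) + q * (Φ.ee 0 * v 0) := by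
        ring
      rw [h4] at h2
      linarith
    have h4 : c0 * m - A0 * (c * (j + 1) + (c * (j + 1) + Φ.E)) ≤ (μ0 : ℚ) := by
      rw [hμ0]
      exact Int.le_ceil _
    have h5 : (α : ℚ) * (κ * m + c * (j + 1) + Φ.E) ≤ α * (Φ.E * q) := by
      have h6 : (α : ℤ) * (X + Φ.E) ≤ α * (Φ.E * q) := by nlinarith
      rw [hX] at h6
      exact_mod_cast h6
    have h6 : ((μ0 - c * (j + 1) + q * (Φ.E * α) : ℤ) : ℚ) ≤ (Q.ord (ω D * C.Lam m) : ℚ) := by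
      exact_mod_cast h3
    push_cast at h6
    have h7 : (0 : ℚ) ≤ -α := by
      have : (0 : ℤ) ≤ -α := by omega
      exact_mod_cast this
    have h8 : (0 : ℚ) ≤ j := by positivity
    have h9 : (0 : ℚ) ≤ A0 * Φ.E * j := by positivity
    have h10 : (0 : ℚ) ≤ (-α) * (Φ.E * j) := by positivity
    nlinarith
  · have h2 := hmin (fun k => (yv Φ q a k : ℚ)) m (c * (j + 1)) (c * (j + 1) + Φ.E)
      (by positivity) (by positivity) (by positivity) (fun s => by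
        change _ ≤ dotL (fun k => (s.v k : ℚ)) _
        rw [dotq_yv, dot_yv]
        have h3 := ha s
        rw [hT] at h3
        have h4 : (((m : ℤ) - c * (j + 1) : ℤ) : ℚ) ≤
            ((((Φ.ee 0 * s.v 0 : ℤ) * (q - ∑ b, (a b : ℤ)) +
              ∑ b, (Φ.ee b.succ * s.v b.succ : ℤ) * a b : ℤ)) : ℚ) := by
          exact_mod_cast h3
        push_cast at h4 ⊢
        exact h4) (by
        rw [dotq_yv, deg_yv, abs_le]
        have h3 : ((X : ℤ) : ℚ) ≤ ((Φ.E * q : ℤ) : ℚ) := by exact_mod_cast hq1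
        have h4 : ((Φ.E * q : ℤ) : ℚ) ≤ ((X + Φ.E : ℤ) : ℚ) := by exact_mod_cast hq2
        rw [hX] at h3 h4
        push_cast at h3 h4 ⊢
        have h5 : (0 : ℚ) ≤ c * (j + 1) := by positivity
        have h6 : (0 : ℚ) ≤ Φ.E := by positivity
        constructor <;> linarith)
    rw [dotq_yv] at h2
    have h3 : μ0 ≤ ∑ k, (v k : ℤ) * yv Φ q a k := by
      rw [hμ0, Int.ceil_le]
      exact h2
    have h4 : ∑ b, (a b : ℤ) * Q.ord (C.Y b) = ∑ k, (v k : ℤ) * yv Φ q a k -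
        q * (Φ.ee 0 * v 0) := by
      rw [dot_yv]
      have h5 : ∀ b, (a b : ℤ) * Q.ord (C.Y b) = (Φ.ee b.succ * v b.succ : ℤ) * a b -
          (a b : ℤ) * (Φ.ee 0 * v 0) := by
        intro b
        rw [C.ord_Y hdat]
        ring
      rw [Finset.sum_congr rfl fun b _ => h5 b, Finset.sum_sub_distrib, ← Finset.sum_mul]
      ring
    rw [h4, hμ]
    linarith

end Cv

end Pool.Agent.J4.H19.LC
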