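import Pool.Agent.J4.H19.LC.Kod
import Pool.Agent.Y169.CH.Mak

/-!
A linear change of the coordinates.
-/

set_option autoImplicit false
set_option linter.overlappingInstances false
set_option linter.unusedSectionVars false
set_option maxHeartbeats 400000

open FF MvPolynomial Pool.Agent.W603.LV Pool.Agent.W602.GT Pool.Agent.W602.Cov
open Pool.Agent.TH122.AB Pool.Agent.Y169.CH

open Pool.Agent.W602.Cov.G Pool.Agent.TH152.AC
open Pool.Agent.Y169.TH

namespace Pool.Agent.J4.H19.LC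

section

variable {n : ℕ} {F : Fin (n + 1) → MvPolynomial (Fin (n + 1)) ℂ}

/-- the point in the new coordinates -/
def shp (q y : Fin (n + 1) → ℂ) (j : Fin (n + 1)) : ℂ := y j + q j * y (Fin.last n)

theorem eval_shp (q y : Fin (n + 1) → ℂ) (G : MvPolynomial (Fin (n + 1)) ℂ) :
    eval y (aeval (sh q) G) = eval (shp q y) G := by
  have h2 := MvPolynomial.comp_aeval_apply (sh q) (aeval (R := ℂ) y) G
  have h3 : (fun j => aeval y (sh q j)) = shp q y := by
    funext j
    unfold sh shp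
    rw [map_add, map_mul, aeval_X, aeval_X, aeval_C]
    rfl
  rw [h3] at h2
  exact h2

theorem noc_sh {q : Fin (n + 1) → ℂ} (hq : q (Fin.last n) = 0) (hN : Noc F) :
    Noc fun k => shF q 1 (F k) := by
  intro y hy
  have hy0 : shp q y ≠ 0 := by
    intro h0
    apply hy
    have h1 : ∀ j, y j + q j * y (Fin.last n) = 0 := fun j => congrFun h0 j
    have h2 := h1 (Fin.last n)
    rw [hq, zero_mul, add_zero] at h2
    funext j
    have h3 := h1 j
    rw [h2, mul_zero, add_zero] at h3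
    exact h3
  obtain ⟨k, hk⟩ := hN _ hy0
  refine ⟨k, ?_⟩
  change eval y (shF q 1 (F k)) ≠ 0
  unfold shF
  rw [C_1, one_mul, eval_shp]
  exact hk

/-- the change of the coordinates has determinant one -/
theorem bw_shx {K : Type} [Field K] [Algebra ℂ K] {q : Fin (n + 1) → ℂ} (hq : q (Fin.last n) = 0)
    (D : Fin n → Derivation ℂ K K) (y : Fin (n + 1) → K) :
    bw D (fun j => y j + algebraMap ℂ K (q j) * y (Fin.last n)) = bw D y := by
  classical
  obtain ⟨c, hc⟩ : ∃ c : Matrix (Fin (n + 1)) (Fin (n + 1)) ℂ,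
    c = 1 + Matrix.replicateCol Unit q * Matrix.replicateRow Unit (Pi.single (Fin.last n) (1 : ℂ)) :=
    ⟨_, rfl⟩
  have hdet : c.det = 1 := by
    rw [hc, Matrix.det_one_add_replicateCol_mul_replicateRow, single_one_dotProduct, hq, add_zero]
  have h1 := (bwa n K).2.2 c D y
  rw [hdet, map_one, one_mul] at h1
  rw [← h1]
  congr 1
  funext i
  have h2 : ∀ j, c i j = (if i = j then 1 else 0) + (if j = Fin.last n then q i else 0) := by
    intro j
    rw [hc, Matrix.add_apply, Matrix.one_apply, Matrix.mul_apply]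
    congr 1
    simp only [Finset.univ_unique, Matrix.replicateCol_apply, Matrix.replicateRow_apply,
      Finset.sum_const, Finset.card_singleton, one_smul]
    by_cases hj : j = Fin.last n
    · rw [if_pos hj, hj, Pi.single_eq_same, mul_one]
    · rw [if_neg hj, Pi.single_eq_of_ne hj, mul_zero]
  simp only [h2, map_add, add_mul, Finset.sum_add_distrib]
  congr 1
  · rw [Finset.sum_eq_single i]
    · rw [if_pos rfl, map_one, one_mul]
    · intro j _ hj
      rw [if_neg hj.symm, map_zero, zero_mul]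
    · intro h
      exact absurd (Finset.mem_univ _) h
  · rw [Finset.sum_eq_single (Fin.last n)]
    · rw [if_pos rfl]
    · intro j _ hj
      rw [if_neg hj, map_zero, zero_mul]
    · intro h
      exact absurd (Finset.mem_univ _) h

theorem lca_sh {d : ℕ} {F : Fin (d + 2) → MvPolynomial (Fin (d + 2)) ℂ} {q : Fin (d + 2) → ℂ}
    (hq : q (Fin.last (d + 1)) = 0) (hL : Lca F) : Lca fun k => shF q 1 (F k) := by
  intro K _ _ x' hx'0 hbas htop P hP hreg hex D hD
  obtain ⟨x, hx⟩ : ∃ x : Fin (d + 2) → K,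
    x = fun j => x' j + algebraMap ℂ K (q j) * x' (Fin.last (d + 1)) := ⟨_, rfl⟩
  have hxj : ∀ j, x j = x' j + algebraMap ℂ K (q j) * x' (Fin.last (d + 1)) := fun j => by rw [hx]
  have hxl : x (Fin.last (d + 1)) = x' (Fin.last (d + 1)) := by
    rw [hxj, hq, map_zero, zero_mul, add_zero]
  have hx'j : ∀ j, x' j = x j - algebraMap ℂ K (q j) * x (Fin.last (d + 1)) := fun j => by
    rw [hxl, hxj]
    ring
  have hx'ne : ∀ l, x' l ≠ 0 := by
    intro l
    refine Fin.cases hx'0 (fun b => ?_) l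
    intro h0
    have h1 := hbas.1.ne_zero b
    rw [h0, zero_div] at h1
    exact h1 rfl
  have hx0 : x 0 ≠ 0 := by
    intro h0
    rw [hxj] at h0
    have h1 : aeval (fun b : Fin (d + 1) => x' b.succ / x' 0) (1 + C (q 0) * X (Fin.last d)) =
        0 := by
      rw [map_add, map_one, map_mul, aeval_C, aeval_X]
      have h4 : (Fin.last d).succ = Fin.last (d + 1) := rfl
      rw [h4]
      field_simp
      linear_combination h0
    have h2 := (injective_iff_map_eq_zero _).1 hbas.1 _ h1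
    have h3 := congrArg (eval (0 : Fin (d + 1) → ℂ)) h2
    simp at h3
  have hle : IntermediateField.adjoin ℂ (Set.range fun b : Fin (d + 1) => x' b.succ / x' 0) ≤
      IntermediateField.adjoin ℂ (Set.range fun b : Fin (d + 1) => x b.succ / x 0) := by
    obtain ⟨L, hLd⟩ : ∃ L, L = IntermediateField.adjoin ℂ
      (Set.range fun b : Fin (d + 1) => x b.succ / x 0) := ⟨_, rfl⟩
    rw [← hLd, IntermediateField.adjoin_le_iff]
    have h1 : ∀ j, x j / x 0 ∈ L := by
      intro j
      refine Fin.cases ?_ (fun b => ?_) j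
      · rw [div_self hx0]
        exact L.one_mem
      · rw [hLd]
        exact IntermediateField.subset_adjoin ℂ _ ⟨b, rfl⟩
    have h2 : ∀ j, x' j / x 0 ∈ L := by
      intro j
      have h3 : x' j / x 0 = x j / x 0 - algebraMap ℂ K (q j) * (x (Fin.last (d + 1)) / x 0) := by
        rw [hx'j j]
        ring
      rw [h3]
      exact L.sub_mem (h1 j) (L.mul_mem (L.algebraMap_mem _) (h1 _))
    rintro _ ⟨b, rfl⟩
    have h3 : x' b.succ / x' 0 = (x' b.succ / x 0) / (x' 0 / x 0) :=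
      (div_div_div_cancel_right₀ hx0 _ _).symm
    dsimp only
    rw [h3]
    exact L.div_mem (h2 _) (h2 _)
  have hreg' : ∀ l, P.Reg (x' l) := fun l => Or.inr (hreg l)
  have hregx : ∀ l, P.Reg (x l) := by
    intro l
    rw [hxj]
    exact P.reg_add (hreg' l) (P.reg_mul (P.reg_const _) (hreg' _))
  have h1 := hL K x hx0 (basis_of_le hbas hle) (by
    rw [eq_top_iff, ← htop]
    exact hle) P hP (fun l => by
      rcases hregx l with h | h
      · rw [h, P.ord_zero]
      · exact h) (by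
      by_contra hcon
      push Not at hcon
      obtain ⟨l, hl⟩ := hex
      have h2 : ∀ j, Ge P 1 (x j) := by
        intro j
        rcases hregx j with h | h
        · exact Or.inl h
        · right
          have := hcon j
          omega
      have h3 : Ge P 1 (x' l) := by
        rw [hx'j]
        refine (h2 l).sub ?_
        have h4 := (Ge.const (P := P) (q l)).mul (h2 (Fin.last (d + 1)))
        simpa using h4
      have h4 := h3.resolve_left (hx'ne l)
      omega) D hD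
  have h2 : ∀ k, aeval x' (shF q 1 (F k)) = aeval x (F k) := by
    intro k
    unfold shF
    rw [C_1, one_mul]
    have h3 := MvPolynomial.comp_aeval_apply (sh q) (aeval (R := ℂ) x') (F k)
    have h4 : (fun j => aeval x' (sh q j)) = x := by
      funext j
      unfold sh
      rw [map_add, map_mul, aeval_X, aeval_X, aeval_C, hxj]
    rw [h4] at h3
    exact h3
  have h3 : bw D x = bw D x' := by
    rw [hx]
    exact bw_shx hq D x'
  rw [h3] at h1
  rcases h1 with h1 | h1
  · exact Or.inl h1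
  · right
    refine le_trans (le_of_eq ?_) h1
    congr 1
    exact Finset.sum_congr rfl fun k _ => by rw [h2]

/-- a common shear -/
theorem exists_sh2 {dF : Fin (n + 1) → ℕ} (hh : ∀ k, (F k).IsHomogeneous (dF k))
    (hF : ∀ k, F k ≠ 0) : ∃ q : Fin (n + 1) → ℂ, q (Fin.last n) = 0 ∧
      ∀ k, coeff (Finsupp.single (Fin.last n) (dF k)) (shF q 1 (F k)) ≠ 0 := by
  classical
  obtain ⟨p, hp⟩ : ∃ p : Fin (n + 1) → ℂ, eval p ((∏ k, F k) * X (Fin.last n)) ≠ 0 := by
    by_contra hcon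
    push Not at hcon
    have h1 : (∏ k, F k) * X (Fin.last n) = 0 := by
      apply MvPolynomial.funext
      intro p
      rw [hcon p, map_zero]
    exact (mul_ne_zero (Finset.prod_ne_zero_iff.2 fun k _ => hF k) (X_ne_zero _)) h1
  rw [map_mul, eval_X, map_prod] at hp
  have hp1 : ∀ k, eval p (F k) ≠ 0 := fun k =>
    Finset.prod_ne_zero_iff.1 (left_ne_zero_of_mul hp) k (Finset.mem_univ k)
  have hp2 := right_ne_zero_of_mul hp
  obtain ⟨p', hp'⟩ : ∃ p' : Fin (n + 1) → ℂ, p' = fun j => (p (Fin.last n))⁻¹ * p j := ⟨_, rfl⟩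
  have hp3 : ∀ k, eval p' (F k) ≠ 0 := by
    intro k
    have h1 := aeval_smul_form (K := ℂ) (hh k) (p (Fin.last n))⁻¹ p
    have h2 : eval p' (F k) = (p (Fin.last n))⁻¹ ^ dF k * eval p (F k) := by
      rw [hp']
      exact h1
    rw [h2]
    exact mul_ne_zero (pow_ne_zero _ (inv_ne_zero hp2)) (hp1 k)
  have hpl : p' (Fin.last n) = 1 := by
    rw [hp']
    exact inv_mul_cancel₀ hp2
  refine ⟨Function.update p' (Fin.last n) 0, Function.update_self _ _ _, fun k => ?_⟩
  rw [coeff_eq_eval (shF_hom _ _ (hh k))]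
  unfold shF
  rw [C_1, one_mul, eval_shp]
  have h3 : shp (Function.update p' (Fin.last n) 0) (Pi.single (Fin.last n) (1 : ℂ)) = p' := by
    funext j
    unfold shp
    rw [Pi.single_eq_same, mul_one]
    by_cases hj : j = Fin.last n
    · rw [hj, Pi.single_eq_same, Function.update_self, add_zero, hpl]
    · rw [Pi.single_eq_of_ne hj, Function.update_of_ne hj, zero_add]
  rw [h3]
  exact hp3 k

end

variable {d R : ℕ} {K : Type} [Field K] [Algebra ℂ K]

/-- **The cover.** -/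
theorem exists_cv {x : Fin (d + 2) → K} (hx0 : x 0 ≠ 0)
    (hbas : IsTranscendenceBasis ℂ fun b : Fin (d + 1) => x b.succ / x 0)
    {F : Fin (d + 2) → MvPolynomial (Fin (d + 2)) ℂ} {dF : Fin (d + 2) → ℕ} (hd : ∀ k, 0 < dF k)
    (hh : ∀ k, (F k).IsHomogeneous (dF k)) (hF0 : ∀ k, F k ≠ 0) (hN : Noc F) (hL : Lca F) {z : Fin R → K} {M : Fin R → ℕ}
    (hM : ∀ j, 0 < M j) {a : Fin R → Fin (d + 2) → ℕ}
    (hz : ∀ j, z j ^ M j = ∏ k, (aeval x (F k) / x 0 ^ dF k) ^ a j k)
    (hdiv : ∀ j, M j ∣ ∑ k, a j k * dF k)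
    (hgen : IntermediateField.adjoin ℂ
      (Set.range (fun b : Fin (d + 1) => x b.succ / x 0) ∪ Set.range z) = ⊤) :
    ∃ Φ : Arr (d + 1), Φ.dF = dF ∧ ∃ C : Cv Φ K R, C.M = M ∧ C.a = a := by
  classical
  obtain ⟨q, hq, hqc⟩ := exists_sh2 hh hF0
  obtain ⟨x', hx'⟩ : ∃ x' : Fin (d + 2) → K, x' = shx q x := ⟨_, rfl⟩
  obtain ⟨F', hF'⟩ : ∃ F' : Fin (d + 2) → MvPolynomial (Fin (d + 2)) ℂ,
    F' = fun k => shF q 1 (F k) := ⟨_, rfl⟩
  have hxx' : ∀ j, x j = x' j + algebraMap ℂ K (q j) * x' (Fin.last (d + 1)) := by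
    intro j
    rw [hx', shx_last hq]
    unfold shx
    ring
  have hev : ∀ k, aeval x' (F' k) = aeval x (F k) := fun k => by
    rw [hx', hF']
    have h1 := aeval_shF hq x 1 (F k)
    rwa [map_one, one_mul] at h1
  have hx'0 : x' 0 ≠ 0 := by
    intro h0
    rw [hx'] at h0
    have h1 : aeval (fun b : Fin (d + 1) => x b.succ / x 0) (1 - C (q 0) * X (Fin.last d)) = 0 := by
      rw [map_sub, map_one, map_mul, aeval_C, aeval_X]
      have h3 : x 0 - algebraMap ℂ K (q 0) * x (Fin.last (d + 1)) = 0 := h0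
      have h4 : (Fin.last d).succ = Fin.last (d + 1) := rfl
      rw [h4]
      field_simp
      linear_combination h3
    have h2 := (injective_iff_map_eq_zero _).1 hbas.1 _ h1
    have h3 := congrArg (eval (0 : Fin (d + 1) → ℂ)) h2
    simp at h3
  obtain ⟨ρ, hρ⟩ : ∃ ρ : K, ρ = x 0 / x' 0 := ⟨_, rfl⟩
  have hρ0 : ρ ≠ 0 := by
    rw [hρ]
    exact div_ne_zero hx0 hx'0
  have hkey : ∀ L : IntermediateField ℂ K, (∀ b : Fin (d + 1), x' b.succ / x' 0 ∈ L) → ∀ j,
      x j / x' 0 ∈ L := by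
    intro L hL j
    have h1 : ∀ j, x' j / x' 0 ∈ L := by
      intro j
      refine Fin.cases ?_ (fun l => hL l) j
      rw [div_self hx'0]
      exact L.one_mem
    have h2 : x j / x' 0 = x' j / x' 0 +
        algebraMap ℂ K (q j) * (x' (Fin.last (d + 1)) / x' 0) := by
      rw [hxx' j]
      ring
    rw [h2]
    exact L.add_mem (h1 j) (L.mul_mem (L.algebraMap_mem _) (h1 _))
  have hkey2 : ∀ L : IntermediateField ℂ K, (∀ b : Fin (d + 1), x' b.succ / x' 0 ∈ L) →
      ∀ b : Fin (d + 1), x b.succ / x 0 ∈ L := by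
    intro L hL b
    have h1 : x b.succ / x 0 = (x b.succ / x' 0) / (x 0 / x' 0) :=
      (div_div_div_cancel_right₀ hx'0 _ _).symm
    rw [h1]
    exact L.div_mem (hkey L hL _) (hkey L hL _)
  obtain ⟨X, hX⟩ : ∃ X : Fin (d + 2) → K, X = fun j => x' j / x' 0 := ⟨_, rfl⟩
  have hX0 : X 0 = 1 := by
    rw [hX]
    exact div_self hx'0
  have hXs : ∀ b : Fin (d + 1), X b.succ = x' b.succ / x' 0 := fun b => by rw [hX]
  have hbas' : IsTranscendenceBasis ℂ fun b : Fin (d + 1) => X b.succ := by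
    refine basis_of_le hbas ?_
    rw [IntermediateField.adjoin_le_iff]
    rintro _ ⟨b, rfl⟩
    refine hkey2 _ (fun b' => ?_) b
    rw [← hXs]
    exact IntermediateField.subset_adjoin ℂ _ ⟨b', rfl⟩
  have hFX : ∀ k, aeval X (F' k) = aeval x (F k) / x' 0 ^ dF k := by
    intro k
    have h1 : (F' k).IsHomogeneous (dF k) := by
      rw [hF']
      exact shF_hom _ _ (hh k)
    rw [eq_div_iff (pow_ne_zero _ hx'0), mul_comm, ← aeval_smul_form h1, ← hev]
    congr 2
    funext l
    rw [hX, mul_div_cancel₀ _ hx'0]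
  obtain ⟨s, hs⟩ : ∃ s : Fin R → ℕ, s = fun j => (∑ k, a j k * dF k) / M j := ⟨_, rfl⟩
  have hsM : ∀ j, s j * M j = ∑ k, a j k * dF k := fun j => by
    rw [hs]
    exact Nat.div_mul_cancel (hdiv j)
  let Φ : Arr (d + 1) :=
    { F := F'
      dF := dF
      hd := hd
      hh := fun k => by
        rw [hF']
        exact shF_hom _ _ (hh k)
      hN := by
        rw [hF']
        exact noc_sh hq hN
      hL := by
        rw [hF']
        exact lca_sh hq hL
      hI := fun k => ⟨Finsupp.single (Fin.last (d + 1)) (dF k), by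
        rw [mem_support_iff, hF']
        exact hqc k, by
        rw [Finsupp.single_apply, if_neg]
        exact (Fin.succ_ne_zero (Fin.last d))⟩ }
  refine ⟨Φ, rfl, ⟨X, hX0, hbas', fun j => z j * ρ ^ s j, M, hM, a, fun j => ?_, hdiv, ?_⟩, rfl, rfl⟩
  · change (z j * ρ ^ s j) ^ M j = ∏ k, aeval X (F' k) ^ a j k
    rw [mul_pow, hz, ← pow_mul, hsM, ← Finset.prod_pow_eq_pow_sum, ← Finset.prod_mul_distrib]
    refine Finset.prod_congr rfl fun k _ => ?_
    rw [hFX, mul_comm (a j k), pow_mul ρ, ← mul_pow, hρ]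
    congr 1
    rw [div_pow]
    field_simp
  · rw [eq_top_iff, ← hgen, IntermediateField.adjoin_le_iff]
    obtain ⟨L, hL⟩ : ∃ L, L = IntermediateField.adjoin ℂ
      (Set.range (fun b : Fin (d + 1) => X b.succ) ∪ Set.range fun j => z j * ρ ^ s j) := ⟨_, rfl⟩
    rw [← hL]
    have hu : ∀ b : Fin (d + 1), x' b.succ / x' 0 ∈ L := fun b => by
      rw [hL, ← hXs]
      exact IntermediateField.subset_adjoin ℂ _ (Or.inl ⟨b, rfl⟩)
    rintro _ (⟨b, rfl⟩ | ⟨j, rfl⟩)
    · exact hkey2 L hu b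
    · have h1 : z j * ρ ^ s j ∈ L := by
        rw [hL]
        exact IntermediateField.subset_adjoin ℂ _ (Or.inr ⟨j, rfl⟩)
      have h2 : ρ ^ s j ∈ L := by
        have h3 : ρ ∈ L := by
          rw [hρ]
          exact hkey L hu 0
        exact pow_mem h3 _
      have h3 := L.div_mem h1 h2
      rwa [mul_div_cancel_right₀ _ (pow_ne_zero _ hρ0)] at h3

/-- **The main theorem.** -/
theorem main {x : Fin (d + 2) → K} (hx0 : x 0 ≠ 0)
    (hbas : IsTranscendenceBasis ℂ fun b : Fin (d + 1) => x b.succ / x 0)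
    {F : Fin (d + 2) → MvPolynomial (Fin (d + 2)) ℂ} {dF : Fin (d + 2) → ℕ} (hd : ∀ k, 0 < dF k)
    (hh : ∀ k, (F k).IsHomogeneous (dF k)) (hF0 : ∀ k, F k ≠ 0) (hN : Noc F) (hL : Lca F) {z : Fin R → K} {M : Fin R → ℕ}
    (hM : ∀ j, 0 < M j) {a : Fin R → Fin (d + 2) → ℕ}
    (hz : ∀ j, z j ^ M j = ∏ k, (aeval x (F k) / x 0 ^ dF k) ^ a j k)
    (hdiv : ∀ j, M j ∣ ∑ k, a j k * dF k)
    (hgen : IntermediateField.adjoin ℂ
      (Set.range (fun b : Fin (d + 1) => x b.succ / x 0) ∪ Set.range z) = ⊤) :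
    (APsef (d + 1) K ↔ (PiA M a dF).Nonempty) ∧
    (AKod (d + 1) K 0 ↔ (PiA M a dF).Nonempty) ∧
    ((PiA M a dF).Nonempty →
      AKod (d + 1) K (Module.finrank ℚ (vectorSpan ℚ (PiA M a dF))) ∧
      ANum (d + 1) K (Module.finrank ℚ (vectorSpan ℚ (PiA M a dF)))) := by
  classical
  obtain ⟨Φ, rfl, C, rfl, rfl⟩ := exists_cv hx0 hbas hd hh hF0 hN hL hM hz hdiv hgen
  have h1 : APsef (d + 1) K → (PiA C.M C.a Φ.dF).Nonempty := by
    rintro ⟨S, hpsef⟩
    by_contra hcon
    rw [Set.not_nonempty_iff_eq_empty] at hcon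
    obtain ⟨M0, hM0⟩ := C.not_psef hcon S
    obtain ⟨j, hj, ω, hω0, hω⟩ := hpsef M0
    exact hω0 (hM0 j hj ω (asec_sec hω))
  have h2 : (PiA C.M C.a Φ.dF).Nonempty →
      AKod (d + 1) K (Module.finrank ℚ (vectorSpan ℚ (PiA C.M C.a Φ.dF))) := fun hne =>
    C.kod_ge hne rfl
  have h3 : ∀ h, AKod (d + 1) K h → AKod (d + 1) K 0 := by
    rintro h ⟨m, hm, ω, hω, D, hD, -⟩
    refine ⟨m, hm, fun _ => ω 0, fun _ => hω 0, D, hD, ?_⟩
    exact algebraicIndependent_empty_type
  refine ⟨⟨h1, fun hne => psef_of_kod (h2 hne)⟩, ⟨fun hk => h1 (psef_of_kod hk), fun hne =>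
    h3 _ (h2 hne)⟩, fun hne => ⟨h2 hne, fun S => ?_⟩⟩
  obtain ⟨C1, hC1⟩ := C.num_le hne S
  exact ⟨C1, fun m N hm ⟨ω, hlin, hω⟩ => hC1 m N hm ω hlin fun l => asec_one (hω l)⟩

end Pool.Agent.J4.H19.LC
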