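import Pool.Agent.J4.H19.LC.LowB
import Pool.Agent.J4.H19.LC.GenQ
import Pool.Agent.J4.H19.LC.Mak

/-!
The sections given by the vertices of the polyhedron.
-/

set_option autoImplicit false
set_option linter.overlappingInstances false
set_option linter.unusedSectionVars false
set_option maxHeartbeats 1000000

open FF MvPolynomial Pool.Agent.W603.LV Pool.Agent.W602.GT Pool.Agent.W602.Cov
open Pool.Agent.W602.Cov.G Pool.Agent.TH152.AC Pool.Agent.TH122.AB Pool.Agent.Y169.CH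

open Pool.Agent.Y169.TH

namespace Pool.Agent.J4.H19.LC

theorem algInd_of_pow {K : Type} [Field K] [Algebra ℂ K] {h E : ℕ} {ρ : Fin h → K}
    (hρ : AlgebraicIndependent ℂ fun b => ρ b ^ E) : AlgebraicIndependent ℂ ρ := by
  classical
  obtain ⟨A, hA⟩ : ∃ A, A = Algebra.adjoin ℂ (Set.range ρ) := ⟨_, rfl⟩
  have hmem : ∀ b, ρ b ∈ A := fun b => by
    rw [hA]
    exact Algebra.subset_adjoin ⟨b, rfl⟩
  obtain ⟨ρ', hρ'⟩ : ∃ ρ' : Fin h → A, ρ' = fun b => ⟨ρ b, hmem b⟩ := ⟨_, rfl⟩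
  have hval : ∀ b, (ρ' b : K) = ρ b := fun b => by rw [hρ']
  have h1 : AlgebraicIndependent ℂ fun b => ρ' b ^ E := by
    refine AlgebraicIndependent.of_comp A.val ?_
    have h2 : (A.val ∘ fun b => ρ' b ^ E) = fun b => ρ b ^ E := by
      funext b
      change ((ρ' b ^ E : A) : K) = ρ b ^ E
      rw [SubmonoidClass.coe_pow, hval]
    rw [h2]
    exact hρ
  have h3 : Algebra.adjoin ℂ (Set.range ρ') = ⊤ := by
    rw [eq_top_iff]
    rintro ⟨z, hz⟩ -
    have h4 : (Algebra.adjoin ℂ (Set.range ρ')).map A.val = A := by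
      have h5 : (A.val : A → K) '' Set.range ρ' = Set.range ρ := by
        rw [← Set.range_comp]
        exact congrArg Set.range (funext hval)
      rw [← Algebra.adjoin_image, h5, hA]
    have h5 : z ∈ (Algebra.adjoin ℂ (Set.range ρ')).map A.val := by
      rw [h4]
      exact hz
    obtain ⟨w, hw, hwz⟩ := h5
    have h6 : w = ⟨z, hz⟩ := Subtype.ext hwz
    rw [← h6]
    exact hw
  have : Algebra.IsAlgebraic (Algebra.adjoin ℂ (Set.range ρ')) A := by
    rw [h3]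
    exact ⟨fun z => isAlgebraic_algebraMap (R := (⊤ : Subalgebra ℂ A)) ⟨z, trivial⟩⟩
  have : FaithfulSMul ℂ A :=
    (faithfulSMul_iff_algebraMap_injective ℂ A).2 (algebraMap ℂ A).injective
  have h4 := Algebra.IsAlgebraic.isTranscendenceBasis_of_le_trdeg_of_finite ℂ ρ'
    h1.cardinalMk_le_trdeg
  have h5 := h4.1.map' (f := A.val) Subtype.val_injective
  have h6 : (A.val ∘ ρ') = ρ := by
    funext b
    exact hval b
  rwa [h6] at h5

namespace Cv

variable {d : ℕ} {Φ : Arr (d + 1)} {K : Type} [Field K] [Algebra ℂ K] {R : ℕ} (C : Cv Φ K R)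

/-- the product of the powers of the forms -/
noncomputable def Ex (T : ℕ) (w : Fin (d + 2) → ℤ) : K := ∏ k, aeval C.x (Φ.F k) ^ (w k - T)

/-- the form given by an integral vector -/
noncomputable def mon (T : ℕ) (w : Fin (d + 2) → ℤ) (D : Fin (d + 1) → Derivation ℂ K K) : K :=
  bw D C.x ^ T * C.Ex T w

theorem Ex_ne (T : ℕ) (w : Fin (d + 2) → ℤ) : C.Ex T w ≠ 0 :=
  Finset.prod_ne_zero_iff.2 fun k _ => zpow_ne_zero _ (C.F_ne k)

theorem mon_deg {T : ℕ} {w : Fin (d + 2) → ℤ} {p : Fin (d + 2) → ℚ}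
    (hp : p ∈ PiA C.M C.a Φ.dF) (hw : ∀ k, (w k : ℚ) = T * p k) :
    ∑ k, (Φ.dF k : ℤ) * w k = T * (∑ k, (Φ.dF k : ℤ) - (d + 2)) := by
  have h1 : ((∑ k, (Φ.dF k : ℤ) * w k : ℤ) : ℚ) =
      ((T * (∑ k, (Φ.dF k : ℤ) - (d + 2)) : ℤ) : ℚ) := by
    have h2 := hp.1
    push_cast
    have h3 : ∀ k, (Φ.dF k : ℚ) * w k = T * (Φ.dF k * p k) := by
      intro k
      rw [hw]
      ring
    rw [Finset.sum_congr rfl fun k _ => h3 k, ← Finset.mul_sum, h2]
    push_cast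
    ring
  exact_mod_cast h1

theorem mon_pluri (T : ℕ) (w : Fin (d + 2) → ℤ) : IsPluri T (C.mon T w) := by
  intro A D
  unfold mon
  rw [(bwa (d + 1) K).2.1 A D C.x, mul_pow]
  ring

/-- **Sections from the points of the polyhedron.** -/
theorem mon_sec {T : ℕ} {w : Fin (d + 2) → ℤ} {p : Fin (d + 2) → ℚ}
    (hp : p ∈ PiA C.M C.a Φ.dF) (hw : ∀ k, (w k : ℚ) = T * p k) :
    ASec (d + 1) {1} T 1 (C.mon T w) := by
  refine ⟨C.mon_pluri T w, ?_⟩
  intro P hP D hD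
  obtain ⟨α, v, hα, hdat⟩ := C.exists_dat P
  have h1 := lc_reg_ord Φ.hL hP Φ.hh C.hx0 C.hbas C.fin_u hdat hD
  have hEord : P.ord (C.Ex T w) = ∑ k, (w k - T) * (Φ.dF k * α + v k) := by
    unfold Ex
    rw [ord_prod' P Finset.univ _ fun k _ => zpow_ne_zero _ (C.F_ne k)]
    exact Finset.sum_congr rfl fun k _ => by rw [P.ord_zpow, hdat.hv]
  have h2 := (h1.pow T).mul (ge_ord P (C.Ex T w))
  unfold mon
  rcases h2 with h2 | h2
  · exact Or.inl h2
  · right
    refine ⟨1, by simp, one_ne_zero, ?_⟩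
    rw [P.ord_one, mul_zero]
    refine le_trans ?_ h2
    rw [hEord]
    have h3 : ∑ k, (w k - T) * (Φ.dF k * α + v k) =
        α * (∑ k, (Φ.dF k : ℤ) * w k) + ∑ k, w k * v k -
        T * α * ∑ k, (Φ.dF k : ℤ) - T * ∑ k, (v k : ℤ) := by
      rw [Finset.mul_sum, Finset.mul_sum, Finset.mul_sum, ← Finset.sum_add_distrib,
        ← Finset.sum_sub_distrib, ← Finset.sum_sub_distrib]
      exact Finset.sum_congr rfl fun k _ => by ring
    rw [h3, C.mon_deg hp hw]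
    have h4 : (T : ℤ) * (if v = 0 then 0 else 1) ≤ ∑ k, w k * v k := by
      by_cases hv : v = 0
      · rw [if_pos hv, hv]
        simp
      · rw [if_neg hv]
        have h5 := hp.2 v (C.adm hdat hv)
        have h6 : (T : ℚ) * 1 ≤ T * ∑ k, (v k : ℚ) * p k :=
          mul_le_mul_of_nonneg_left h5 (by positivity)
        have h7 : (T : ℚ) * ∑ k, (v k : ℚ) * p k = ((∑ k, w k * v k : ℤ) : ℚ) := by
          rw [Finset.mul_sum]
          push_cast
          refine Finset.sum_congr rfl fun k _ => ?_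
          rw [hw]
          ring
        rw [h7] at h6
        exact_mod_cast h6
    push_cast
    nlinarith

/-- the order of the form, in terms of the vector -/
theorem mon_ord {Q : Place ℂ K} {α : ℤ} {v : Fin (d + 2) → ℕ} (hdat : Dat Q Φ.F Φ.dF C.x α v)
    {D : Fin (d + 1) → Derivation ℂ K K} (hbw : bw D C.x = 1) {T : ℕ} {w : Fin (d + 2) → ℤ}
    {p : Fin (d + 2) → ℚ} (hp : p ∈ PiA C.M C.a Φ.dF) (hw : ∀ k, (w k : ℚ) = T * p k) :
    (Q.ord (C.mon T w D * C.Lam T) : ℚ) =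
      T * (∑ k, (v k : ℚ) * p k + α * (∑ k, (Φ.dF k : ℚ) - (d + 2))) := by
  have h1 : C.mon T w D * C.Lam T = ∏ k, aeval C.x (Φ.F k) ^ (w k) := by
    unfold mon Lam Ex
    rw [hbw, one_pow, one_mul, ← Finset.prod_mul_distrib]
    refine Finset.prod_congr rfl fun k _ => ?_
    rw [← zpow_natCast, ← zpow_add₀ (C.F_ne k)]
    congr 1
    ring
  have h2 := C.mon_deg hp hw
  rw [h1, ord_prod' Q Finset.univ _ fun k _ => zpow_ne_zero _ (C.F_ne k)]
  have h3 : ∑ k, Q.ord (aeval C.x (Φ.F k) ^ w k) = α * (∑ k, (Φ.dF k : ℤ) * w k) +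
      ∑ k, w k * v k := by
    rw [Finset.mul_sum, ← Finset.sum_add_distrib]
    refine Finset.sum_congr rfl fun k _ => ?_
    rw [Q.ord_zpow, hdat.hv]
    ring
  rw [h3, h2]
  push_cast
  have h4 : ∑ k, (w k : ℚ) * v k = T * ∑ k, (v k : ℚ) * p k := by
    rw [Finset.mul_sum]
    refine Finset.sum_congr rfl fun k _ => ?_
    rw [hw]
    ring
  rw [h4]
  ring

include C in
/-- the data of the polyhedron -/
theorem pol_data : (∀ k, (0 : ℚ) < Φ.dF k) ∧
    ∀ y : Fin (d + 2) → ℚ, (∀ s : Red C.M C.a, 0 ≤ dotL s.q y) → ∀ k, 0 ≤ y k := by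
  have hL : (0 : ℚ) < per C.M := by exact_mod_cast per_pos C.hM
  refine ⟨fun k => by exact_mod_cast Φ.hd k, fun y hy k => ?_⟩
  have h1 := nonneg_of_red C.hM (by omega) hy k
  exact nonneg_of_mul_nonneg_right h1 hL

/-- the multiple -/
def prd (n B : ℕ) : ℕ := ((n + 1).factorial * B ^ (n + 1)).factorial

/-- the vertices have small denominators -/
theorem vert_int {B : ℕ} (hB1 : ∀ k, Φ.dF k ≤ B) (hB2 : per C.M ≤ B) {p : Fin (d + 2) → ℚ}
    (hp : Vert (fun k => (Φ.dF k : ℚ)) (∑ k, (Φ.dF k : ℚ) - ((d + 2 : ℕ) : ℚ))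
      (fun s : Red C.M C.a => s.q) p) :
    ∃ w : Fin (d + 2) → ℤ, ∀ k, (w k : ℚ) = prd (d + 1) B * p k := by
  have h1 : Vert (fun k => (((Φ.dF k : ℕ) : ℤ) : ℚ))
      ((∑ k, (Φ.dF k : ℤ) - ((d + 2 : ℕ) : ℤ) : ℤ) : ℚ)
      (fun (s : Red C.M C.a) k => (((s.v k : ℕ) : ℤ) : ℚ)) p := by
    have e1 : (fun (s : Red C.M C.a) k => (((s.v k : ℕ) : ℤ) : ℚ)) = fun s => s.q := by
      funext s k
      unfold Red.q
      push_cast
      rfl
    have e2 : ((∑ k, (Φ.dF k : ℤ) - ((d + 2 : ℕ) : ℤ) : ℤ) : ℚ) =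
        ∑ k, (Φ.dF k : ℚ) - ((d + 2 : ℕ) : ℚ) := by
      push_cast
      rfl
    have e3 : (fun k => (((Φ.dF k : ℕ) : ℤ) : ℚ)) = fun k => (Φ.dF k : ℚ) := by
      funext k
      push_cast
      rfl
    rw [e1, e2, e3]
    exact hp
  obtain ⟨T, hT1, hT2, hT⟩ := vert_small h1 (B := B) (fun k => by
      rw [abs_of_nonneg (by positivity)]
      exact_mod_cast hB1 k) (fun s k => by
      rw [abs_of_nonneg (by positivity)]
      have h2 : s.v k ≤ per C.M := Nat.lt_succ_iff.1 (s.1 k).2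
      exact_mod_cast h2.trans hB2)
  have h2 : T ≤ (d + 2).factorial * B ^ (d + 2) := by exact_mod_cast hT2
  obtain ⟨c, hc⟩ : T ∣ prd (d + 1) B := Nat.dvd_factorial hT1 h2
  choose z hz using hT
  refine ⟨fun k => c * z k, fun k => ?_⟩
  rw [hc]
  push_cast
  rw [← hz]
  ring

/-- **Effective Kodaira dimension.** -/
theorem kod_eff (hne : (PiA C.M C.a Φ.dF).Nonempty) {h : ℕ}
    (hh : Module.finrank ℚ (vectorSpan ℚ (PiA C.M C.a Φ.dF)) = h) {B : ℕ}
    (hB1 : ∀ k, Φ.dF k ≤ B) (hB2 : per C.M ≤ B) :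
    ∃ ω : Fin (h + 1) → (Fin (d + 1) → Derivation ℂ K K) → K,
      (∀ b, ASec (d + 1) {1} (prd (d + 1) B) 1 (ω b)) ∧
      ∃ D, ω 0 D ≠ 0 ∧ AlgebraicIndependent ℂ (fun b : Fin h => ω b.succ D / ω 0 D) := by
  classical
  have hPi := PiA_eq (M := C.M) (a := C.a) (dF := Φ.dF) C.hM (by omega)
  obtain ⟨hd0, hv0⟩ := C.pol_data
  obtain ⟨y0, y, hy0, hy, hlin⟩ := exists_verts (h := h) hd0 hv0 (by rw [← hPi]; exact hne)
    (by rw [← hPi]; exact hh)
  obtain ⟨p, hp⟩ : ∃ p : Fin (h + 1) → Fin (d + 2) → ℚ, p = Fin.cases y0 y := ⟨_, rfl⟩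
  have hp0 : p 0 = y0 := by rw [hp]; rfl
  have hps : ∀ i : Fin h, p i.succ = y i := fun i => by rw [hp]; rfl
  have hpV : ∀ b, Vert (fun k => (Φ.dF k : ℚ)) (∑ k, (Φ.dF k : ℚ) - ((d + 2 : ℕ) : ℚ))
      (fun s : Red C.M C.a => s.q) (p b) := by
    intro b
    refine Fin.cases ?_ (fun i => ?_) b
    · rw [hp0]
      exact hy0
    · rw [hps]
      exact hy i
  have hpP : ∀ b, p b ∈ PiA C.M C.a Φ.dF := fun b => by
    rw [hPi]
    exact (hpV b).1
  choose w hw using fun b => C.vert_int hB1 hB2 (hpV b)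
  obtain ⟨T, hT⟩ : ∃ T : ℕ, T = prd (d + 1) B := ⟨_, rfl⟩
  rw [← hT] at hw ⊢
  have hTpos : 0 < T := by
    rw [hT]
    exact Nat.factorial_pos _
  obtain ⟨D0, hD0⟩ := exists_dual C.u_bas
  have hbw0 : bw D0 C.x = 1 := by
    rw [Pool.Agent.W930.CG.bw_one D0 C.x C.hx0]
    change (Matrix.of fun i j => D0 i (C.u j)).det = 1
    rw [hD0, Matrix.det_one]
  have hmD : ∀ b, C.mon T (w b) D0 = C.Ex T (w b) := by
    intro b
    unfold mon
    rw [hbw0, one_pow, one_mul]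
  refine ⟨fun b => C.mon T (w b), fun b => C.mon_sec (hpP b) (hw b), D0, ?_, ?_⟩
  · change C.mon T (w 0) D0 ≠ 0
    rw [hmD]
    exact C.Ex_ne T (w 0)
  -- the ratios
  obtain ⟨δ, hδ⟩ : ∃ δ : Fin h → Fin (d + 2) → ℤ, δ = fun b k => w b.succ k - w 0 k := ⟨_, rfl⟩
  have hδsum : ∀ b, ∑ k, (Φ.dF k : ℤ) * δ b k = 0 := by
    intro b
    have h1 := C.mon_deg (hpP b.succ) (hw b.succ)
    have h2 := C.mon_deg (hpP 0) (hw 0)
    have h4 : ∑ k, (Φ.dF k : ℤ) * δ b k =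
        ∑ k, (Φ.dF k : ℤ) * (w b.succ k) - ∑ k, (Φ.dF k : ℤ) * (w 0 k) := by
      rw [← Finset.sum_sub_distrib]
      refine Finset.sum_congr rfl fun k _ => ?_
      rw [hδ]
      ring
    rw [h4, h1, h2, sub_self]
  have hratio : ∀ b : Fin h, (C.Ex T (w b.succ) / C.Ex T (w 0)) ^ Φ.E =
      ∏ i : Fin (d + 1), C.Y i ^ ((Φ.dF i.succ : ℤ) * δ b i.succ) := by
    intro b
    unfold Ex
    rw [← Finset.prod_div_distrib, ← Finset.prod_pow]
    have h1 : ∀ k, (aeval C.x (Φ.F k) ^ (w b.succ k - T) /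
        aeval C.x (Φ.F k) ^ (w 0 k - T)) ^ Φ.E =
        aeval C.x (Φ.G k) ^ ((Φ.dF k : ℤ) * δ b k) := by
      intro k
      rw [← zpow_sub₀ (C.F_ne k), ae_G, ← zpow_natCast (aeval C.x (Φ.F k)), ← zpow_natCast,
        ← zpow_mul, ← zpow_mul]
      congr 1
      have h2 : (Φ.dF k : ℤ) * Φ.ee k = Φ.E := by exact_mod_cast Φ.d_ee k
      rw [hδ, ← h2]
      ring
    rw [Finset.prod_congr rfl fun k _ => h1 k, Fin.prod_univ_succ]
    have h2 : (Φ.dF 0 : ℤ) * δ b 0 = - ∑ i : Fin (d + 1), (Φ.dF i.succ : ℤ) * δ b i.succ := by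
      have h3 := hδsum b
      rw [Fin.sum_univ_succ] at h3
      linarith
    rw [h2, ← Finset.sum_neg_distrib, ← prod_zpow_sum (C.G_ne 0), ← Finset.prod_mul_distrib]
    refine Finset.prod_congr rfl fun i _ => ?_
    unfold Y
    rw [div_zpow, zpow_neg, div_eq_mul_inv, mul_comm]
  have hfun : (fun b : Fin h => C.mon T (w b.succ) D0 / C.mon T (w 0) D0) =
      fun b : Fin h => C.Ex T (w b.succ) / C.Ex T (w 0) := by
    funext b
    rw [hmD, hmD]
  change AlgebraicIndependent ℂ (fun b : Fin h => C.mon T (w b.succ) D0 / C.mon T (w 0) D0)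
  rw [hfun]
  refine algInd_of_pow (E := Φ.E) ?_
  rw [funext hratio]
  refine laurent_ind C.bas_Y.1 C.Y_ne _ ?_
  rw [Fintype.linearIndependent_iff]
  intro g hg
  have h1 : ∀ i : Fin (d + 1), ∑ b, g b * (δ b i.succ : ℚ) = 0 := by
    intro i
    have h2 := congrFun hg i
    rw [Finset.sum_apply] at h2
    simp only [Pi.smul_apply, smul_eq_mul, Pi.zero_apply] at h2
    push_cast at h2
    have h3 : (Φ.dF i.succ : ℚ) * ∑ b, g b * (δ b i.succ : ℚ) = 0 := by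
      rw [Finset.mul_sum, ← h2]
      exact Finset.sum_congr rfl fun b _ => by ring
    exact (mul_eq_zero.1 h3).resolve_left (by exact_mod_cast (Φ.hd _).ne')
  have h0 : ∑ b, g b * (δ b 0 : ℚ) = 0 := by
    have h3 : (Φ.dF 0 : ℚ) * ∑ b, g b * (δ b 0 : ℚ) = 0 := by
      have h4 : ∀ b, (Φ.dF 0 : ℚ) * δ b 0 = - ∑ i : Fin (d + 1), (Φ.dF i.succ : ℚ) * δ b i.succ := by
        intro b
        have h5 := hδsum b
        rw [Fin.sum_univ_succ] at h5
        have h6 : (((Φ.dF 0 : ℤ) * δ b 0 + ∑ i : Fin (d + 1), (Φ.dF i.succ : ℤ) * δ b i.succ : ℤ) : ℚ)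
            = 0 := by
          rw [h5]
          rfl
        push_cast at h6
        linarith
      calc (Φ.dF 0 : ℚ) * ∑ b, g b * (δ b 0 : ℚ) = ∑ b, g b * ((Φ.dF 0 : ℚ) * δ b 0) := by
            rw [Finset.mul_sum]
            exact Finset.sum_congr rfl fun b _ => by ring
        _ = ∑ b, ∑ i : Fin (d + 1), -((Φ.dF i.succ : ℚ) * (g b * δ b i.succ)) := by
            refine Finset.sum_congr rfl fun b _ => ?_
            rw [h4, mul_neg, Finset.mul_sum, ← Finset.sum_neg_distrib]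
            exact Finset.sum_congr rfl fun i _ => by ring
        _ = ∑ i : Fin (d + 1), -((Φ.dF i.succ : ℚ) * ∑ b, g b * δ b i.succ) := by
            rw [Finset.sum_comm]
            refine Finset.sum_congr rfl fun i _ => ?_
            rw [Finset.sum_neg_distrib, Finset.mul_sum]
        _ = 0 := by
            refine Finset.sum_eq_zero fun i _ => ?_
            rw [h1, mul_zero, neg_zero]
    exact (mul_eq_zero.1 h3).resolve_left (by exact_mod_cast (Φ.hd _).ne')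
  have h2 : ∀ k, ∑ b, g b * (δ b k : ℚ) = 0 := fun k => Fin.cases h0 h1 k
  refine Fintype.linearIndependent_iff.1 hlin g ?_
  funext k
  rw [Finset.sum_apply, Pi.zero_apply]
  have h3 : ∀ b, (T : ℚ) * ((y b - y0) k) = δ b k := by
    intro b
    have h4 := hw b.succ k
    have h5 := hw 0 k
    rw [hps] at h4
    rw [hp0] at h5
    rw [Pi.sub_apply, mul_sub, ← h4, ← h5, hδ]
    push_cast
    ring
  have h4 : (T : ℚ) * ∑ b, (g b • (y b - y0)) k = 0 := by
    calc (T : ℚ) * ∑ b, (g b • (y b - y0)) k = ∑ b, g b * ((T : ℚ) * ((y b - y0) k)) := by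
          rw [Finset.mul_sum]
          refine Finset.sum_congr rfl fun b _ => ?_
          rw [Pi.smul_apply, smul_eq_mul]
          ring
      _ = ∑ b, g b * δ b k := by
          refine Finset.sum_congr rfl fun b _ => ?_
          rw [h3]
      _ = 0 := by rw [h2]
  exact (mul_eq_zero.1 h4).resolve_left (by exact_mod_cast hTpos.ne')

/-- **Effective semiampleness.** -/
theorem semi_eff (hne : (PiA C.M C.a Φ.dF).Nonempty) {B : ℕ}
    (hB1 : ∀ k, Φ.dF k ≤ B) (hB2 : per C.M ≤ B) {N : ℕ} {y : Fin (N + 1) → K}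
    (hy : Pool.Agent.Y172.NormalModel y) (hcan : Pool.Agent.R887.Canonical y (d + 1))
    (hnef : Pool.Agent.R887.LogNef y (d + 1) 0) {Q : Place ℂ K} (hQ : Divisorial (d + 1) Q) :
    ∃ ω, Pool.Agent.Y172.IsSection y (d + 1) (prd (d + 1) B) 0 ω ∧
      ∀ P, Pool.Agent.Y172.IsPrimeDivisor y P → Pool.Agent.Y172.Through y P Q →
        Pool.Agent.Y172.OrdEq P ω 0 := by
  classical
  have hess := hy.ess
  have hn : Algebra.trdeg ℂ K = ((d + 1 : ℕ) : Cardinal) := by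
    rw [← C.u_bas.cardinalMk_eq_trdeg, Cardinal.mk_fin]
  have hPi := PiA_eq (M := C.M) (a := C.a) (dF := Φ.dF) C.hM (by omega)
  obtain ⟨hd0, hv0⟩ := C.pol_data
  obtain ⟨α, v, hα, hdat⟩ := C.exists_dat Q
  obtain ⟨p, hpV, hpmin⟩ := exists_vert_min hd0 hv0 (fun k => (v k : ℚ)) (by rw [← hPi]; exact hne)
  rw [← hPi] at hpmin
  have hp : p ∈ PiA C.M C.a Φ.dF := by
    rw [hPi]
    exact hpV.1
  obtain ⟨w, hw⟩ := C.vert_int hB1 hB2 hpV
  obtain ⟨T, hT⟩ : ∃ T : ℕ, T = prd (d + 1) B := ⟨_, rfl⟩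
  rw [← hT] at hw ⊢
  have hTpos : 0 < T := by
    rw [hT]
    exact Nat.factorial_pos _
  obtain ⟨D0, hD0⟩ := exists_dual C.u_bas
  have hD : ∀ i j, D0 i (C.u j) = if i = j then 1 else 0 := by
    intro i j
    have h1 := congrFun (congrFun hD0 i) j
    rw [Matrix.of_apply, Matrix.one_apply] at h1
    exact h1
  have hbw0 : bw D0 C.x = 1 := by
    rw [Pool.Agent.W930.CG.bw_one D0 C.x C.hx0]
    change (Matrix.of fun i j => D0 i (C.u j)).det = 1
    rw [hD0, Matrix.det_one]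
  have hsec := C.mon_sec hp hw
  have hreg : ∀ P, Pool.Agent.Y172.IsPrimeDivisor y P →
      Pool.Agent.Y172.OrdGe P (C.mon T w) 0 := by
    intro P hP D hD
    rcases hsec.2 P (hP.divisorial hy hn) D hD with h | ⟨s, hs, -, hle⟩
    · exact Or.inl h
    · right
      rw [Finset.mem_singleton] at hs
      subst hs
      rw [P.ord_one, mul_zero] at hle
      exact_mod_cast hle
  have hm0 : C.mon T w D0 ≠ 0 := by
    unfold mon
    rw [hbw0, one_pow, one_mul]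
    exact C.Ex_ne T w
  refine ⟨C.mon T w, ⟨C.mon_pluri T w, fun P hP => ?_⟩, ?_⟩
  · rw [Pi.zero_apply, neg_zero]
    exact hreg P hP
  refine semi_of_low hy hn C.u_bas hD hcan hnef hQ (C.mon_pluri T w) hreg hm0 fun S => ?_
  obtain ⟨A1, hA1, hlow⟩ := C.sec_low S hD hdat hα hne (c0 := ∑ k, (v k : ℚ) * p k) (fun y' hy' => by
    have h1 := hpmin y' hy'
    rwa [dotL_apply, dotL_apply] at h1)
  refine ⟨T * A1, by positivity, fun m j ω hω => ?_⟩
  rcases hlow m j ω (asec_sec hω) with h1 | h1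
  · exact Or.inl h1
  by_cases hω0 : ω D0 = 0
  · exact Or.inl hω0
  right
  have h2 := C.mon_ord hdat hbw0 hp hw
  rw [Q.ord_mul hm0 (C.Lam_ne T), C.ord_Lam] at h2
  rw [Q.ord_mul hω0 (C.Lam_ne m), C.ord_Lam] at h1
  push_cast at h1 h2
  have h3 : (0 : ℚ) ≤ T := by positivity
  have h4 := mul_le_mul_of_nonneg_left h1 h3
  have h5 : (m : ℚ) * ((Q.ord (C.mon T w D0) : ℚ) + T * ∑ t, (Q.ord (aeval C.x (Φ.F t)) : ℚ)) =
      m * (T * (∑ k, (v k : ℚ) * p k + α * (∑ k, (Φ.dF k : ℚ) - (d + 2)))) := by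
    rw [h2]
  nlinarith

end Cv

end Pool.Agent.J4.H19.LC
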