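import Pool.Agent.J4.H19.LC.Jac

/-!
A fixed point lemma for homogeneous maps with an invertible Jacobian determinant.
-/

set_option autoImplicit false
set_option linter.overlappingInstances false
set_option linter.unusedSectionVars false
set_option maxHeartbeats 400000

open FF MvPolynomial Pool.Agent.W603.LV Pool.Agent.W602.GT Pool.Agent.W602.Cov
open Pool.Agent.TH122.AB Pool.Agent.Y169.CH

open Pool.Agent.Y169.TH

namespace Pool.Agent.J4.H19.LC

variable {K : Type} [Field K] [Algebra ℂ K]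

theorem ge_of_unit {w : Place ℂ K} {μ : ℤ} {a u : K} (h : Ge w μ (a * u)) (hu0 : u ≠ 0)
    (hu : w.ord u = 0) : Ge w μ a := by
  rcases h with h | h
  · exact Or.inl ((mul_eq_zero.1 h).resolve_right hu0)
  · by_cases ha : a = 0
    · exact Or.inl ha
    · right
      rwa [w.ord_mul ha hu0, hu, add_zero] at h

theorem ge_cg {w : Place ℂ K} {μ : ℤ} {a b : K} (h : Ge w μ a) (e : b = a) : Ge w μ b := by
  rw [e]
  exact h

/-- the Taylor expansion -/
theorem taylor_all {N : ℕ} {w : Place ℂ K} {y h : Fin N → K} (hy : ∀ b, w.Reg (y b)) {μ : ℤ}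
    (hμ : 1 ≤ μ) (hh : ∀ b, Ge w μ (h b)) (P : MvPolynomial (Fin N) ℂ) :
    Ge w (μ + 1) (aeval (fun b => y b + h b) P - aeval y P - ∑ b, aeval y (pderiv b P) * h b) := by
  classical
  have hsum : ∀ P : MvPolynomial (Fin N) ℂ, Ge w μ (∑ b, aeval y (pderiv b P) * h b) := by
    intro P
    refine Ge.sum _ _ fun b _ => ?_
    have h1 := (show Ge w 0 (aeval y (pderiv b P)) from reg_aeval hy _).mul (hh b)
    simpa using h1
  induction P using MvPolynomial.induction_on with
  | C a =>
    left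
    simp
  | add p q hp hq =>
    have h1 := hp.add hq
    refine ge_cg h1 ?_
    simp only [map_add, add_mul, Finset.sum_add_distrib]
    ring
  | mul_X p i hp =>
    have h1 : ∑ b, aeval y (pderiv b (p * X i)) * h b =
        y i * (∑ b, aeval y (pderiv b p) * h b) + aeval y p * h i := by
      have h2 : ∀ b, aeval y (pderiv b (p * X i)) * h b =
          y i * (aeval y (pderiv b p) * h b) + (if b = i then aeval y p * h b else 0) := by
        intro b
        rw [pderiv_mul, map_add, map_mul, map_mul, aeval_X, pderiv_X]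
        by_cases hb : b = i
        · subst hb
          rw [if_pos rfl, Pi.single_eq_same, map_one]
          ring
        · rw [if_neg hb, Pi.single_eq_of_ne (Ne.symm hb), map_zero]
          ring
      rw [Finset.sum_congr rfl fun b _ => h2 b, Finset.sum_add_distrib, ← Finset.mul_sum,
        Finset.sum_ite_eq' Finset.univ i, if_pos (Finset.mem_univ _)]
    have h2 : aeval (fun b => y b + h b) (p * X i) - aeval y (p * X i) -
        ∑ b, aeval y (pderiv b (p * X i)) * h b =
        (y i + h i) * (aeval (fun b => y b + h b) p - aeval y p -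
          ∑ b, aeval y (pderiv b p) * h b) + h i * ∑ b, aeval y (pderiv b p) * h b := by
      rw [h1, map_mul, map_mul, aeval_X, aeval_X]
      ring
    rw [h2]
    refine Ge.add ?_ ?_
    · have h3 : Ge w 0 (y i + h i) :=
        (show Ge w 0 (y i) from hy i).add ((hh i).mono (by omega))
      have h4 := h3.mul hp
      simpa using h4
    · exact ((hh i).mul (hsum p)).mono (by omega)

variable {n : ℕ} {Φ : Arr n}

/-- **The fixed point lemma.** -/
theorem newton {w : Place ℂ K} {y y' : Fin (n + 1) → K} (hy : ∀ b, w.Reg (y b)) {j : Fin (n + 1)}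
    (hyj : y j = 1) (hyj' : y' j = 1) (h1 : ∀ b, Ge w 1 (y' b - y b))
    (hJ0 : aeval y (jc Φ) ≠ 0) (hJ : w.ord (aeval y (jc Φ)) = 0) {k0 : Fin (n + 1)}
    (hk00 : aeval y (Φ.F k0) ≠ 0) (hk0 : w.ord (aeval y (Φ.F k0)) = 0) {t : Fin (n + 1) → K}
    (ht : ∀ k, aeval y' (Φ.F k) = t k * aeval y (Φ.F k)) (ht1 : ∀ k, Ge w 1 (t k - 1))
    (hts : ∀ k, t k ^ Φ.ee k = t k0 ^ Φ.ee k0) : y' = y := by
  classical
  by_contra hne
  obtain ⟨h, hh⟩ : ∃ h : Fin (n + 1) → K, h = fun b => y' b - y b := ⟨_, rfl⟩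
  have hhb : ∀ b, h b = y' b - y b := fun b => by rw [hh]
  have hex : (Finset.univ.filter fun b => h b ≠ 0).Nonempty := by
    by_contra hcon
    rw [Finset.not_nonempty_iff_eq_empty, Finset.filter_eq_empty_iff] at hcon
    apply hne
    funext b
    have h2 := hcon (Finset.mem_univ b)
    push Not at h2
    rw [hhb] at h2
    exact sub_eq_zero.1 h2
  obtain ⟨b0, hb0, hmin⟩ := Finset.exists_min_image _ (fun b => w.ord (h b)) hex
  obtain ⟨μ, hμ⟩ : ∃ μ, μ = w.ord (h b0) := ⟨_, rfl⟩
  have hb00 : h b0 ≠ 0 := (Finset.mem_filter.1 hb0).2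
  have hμ1 : 1 ≤ μ := by
    have h2 := h1 b0
    rw [← hhb] at h2
    rw [hμ]
    exact h2.resolve_left hb00
  have hge : ∀ b, Ge w μ (h b) := by
    intro b
    by_cases hb : h b = 0
    · exact Or.inl hb
    · right
      rw [hμ]
      exact hmin b (Finset.mem_filter.2 ⟨Finset.mem_univ _, hb⟩)
  -- regularity
  have htreg : ∀ k, Ge w 0 (t k) := by
    intro k
    have h2 : t k = (t k - 1) + 1 := by ring
    rw [h2]
    exact ((ht1 k).mono (by omega)).add Ge.one
  have hpw : ∀ k (i : ℕ), Ge w 1 (t k ^ i - 1) := by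
    intro k i
    have h2 : t k ^ i - 1 = (∑ s ∈ Finset.range i, t k ^ s) * (t k - 1) := (geom_sum_mul _ _).symm
    rw [h2]
    have h3 : Ge w 0 (∑ s ∈ Finset.range i, t k ^ s) := Ge.sum _ _ fun s _ => by
      have := (htreg k).pow s
      simpa using this
    simpa using h3.mul (ht1 k)
  have hS : ∀ k, Ge w 1 ((∑ s ∈ Finset.range (Φ.ee k), t k ^ s) - Φ.ee k) := by
    intro k
    have h2 : (∑ s ∈ Finset.range (Φ.ee k), t k ^ s) - (Φ.ee k : K) =
        ∑ s ∈ Finset.range (Φ.ee k), (t k ^ s - 1) := by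
      rw [Finset.sum_sub_distrib]
      simp
    rw [h2]
    exact Ge.sum _ _ fun s _ => hpw k s
  have heek : ∀ k, (Φ.ee k : K) ≠ 0 ∧ w.ord (Φ.ee k : K) = 0 := by
    intro k
    have h2 : (Φ.ee k : K) = algebraMap ℂ K (Φ.ee k : ℂ) := by rw [map_natCast]
    have h3 : (Φ.ee k : ℂ) ≠ 0 := by exact_mod_cast (Φ.ee_pos k).ne'
    rw [h2]
    exact ⟨by rw [Ne, map_eq_zero]; exact h3, w.ord_const h3⟩
  have hSu : ∀ k, (∑ s ∈ Finset.range (Φ.ee k), t k ^ s) ≠ 0 ∧
      w.ord (∑ s ∈ Finset.range (Φ.ee k), t k ^ s) = 0 := by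
    intro k
    obtain ⟨S, hSd⟩ : ∃ S, S = ∑ s ∈ Finset.range (Φ.ee k), t k ^ s := ⟨_, rfl⟩
    have h2 := hS k
    rw [← hSd] at h2 ⊢
    have h3 : ¬ Ge w 1 S := by
      intro h4
      have h5 : Ge w 1 (Φ.ee k : K) := by
        have h6 : (Φ.ee k : K) = S - (S - Φ.ee k) := by ring
        rw [h6]
        exact h4.sub h2
      rcases h5 with h5 | h5
      · exact (heek k).1 h5
      · rw [(heek k).2] at h5
        omega
    unfold Ge at h3
    push Not at h3
    have h4 : Ge w 0 S := by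
      rw [hSd]
      exact Ge.sum _ _ fun s _ => by
        have := (htreg k).pow s
        simpa using this
    have h5 := h4.resolve_left h3.1
    exact ⟨h3.1, by omega⟩
  -- the expansion
  have hyh : y' = fun b => y b + h b := by
    funext b
    rw [hhb]
    ring
  have hT : ∀ k, Ge w (μ + 1) ((t k - 1) * aeval y (Φ.F k) -
      ∑ b, aeval y (pderiv b (Φ.F k)) * h b) := by
    intro k
    have h2 := taylor_all hy hμ1 hge (Φ.F k)
    rw [← hyh, ht] at h2
    refine ge_cg h2 ?_
    ring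
  have hlin : ∀ k, Ge w μ (∑ b, aeval y (pderiv b (Φ.F k)) * h b) := by
    intro k
    refine Ge.sum _ _ fun b _ => ?_
    have h1 := (show Ge w 0 (aeval y (pderiv b (Φ.F k))) from reg_aeval hy _).mul (hge b)
    simpa using h1
  have ht0 : Ge w μ (t k0 - 1) := by
    refine ge_of_unit (u := aeval y (Φ.F k0)) ?_ hk00 hk0
    have h2 := ((hT k0).mono (by omega : μ ≤ μ + 1)).add (hlin k0)
    refine ge_cg h2 ?_
    ring
  obtain ⟨s, hs⟩ : ∃ s, s = t k0 ^ Φ.ee k0 := ⟨_, rfl⟩
  have hs1 : ∀ k, s - 1 = (∑ i ∈ Finset.range (Φ.ee k), t k ^ i) * (t k - 1) := by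
    intro k
    rw [geom_sum_mul, hts, hs]
  have hsμ : Ge w μ (s - 1) := by
    rw [hs1 k0]
    have h3 : Ge w 0 (∑ i ∈ Finset.range (Φ.ee k0), t k0 ^ i) := Ge.sum _ _ fun i _ => by
      have := (htreg k0).pow i
      simpa using this
    simpa using h3.mul ht0
  have htk : ∀ k, Ge w μ (t k - 1) := by
    intro k
    refine ge_of_unit (u := ∑ i ∈ Finset.range (Φ.ee k), t k ^ i) ?_ (hSu k).1 (hSu k).2
    rw [mul_comm, ← hs1]
    exact hsμ
  have hE : ∀ k, Ge w (μ + 1) (Φ.ee k * (t k - 1) - (s - 1)) := by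
    intro k
    have h2 := (hS k).mul (htk k)
    have h3 : (Φ.ee k : K) * (t k - 1) - (s - 1) =
        - (((∑ i ∈ Finset.range (Φ.ee k), t k ^ i) - Φ.ee k) * (t k - 1)) := by
      rw [hs1 k]
      ring
    rw [h3]
    exact (h2.mono (by omega)).neg
  -- the linear system
  obtain ⟨r, hr⟩ : ∃ r : Fin (n + 1) → K, r = fun b => (Φ.E : K) * h b - (s - 1) * y b := ⟨_, rfl⟩
  have hEnat : ∀ m : ℕ, Ge w 0 (m : K) := fun m => ge_nat w m
  have hsys : ∀ k, Ge w (μ + 1) (∑ b, aeval y (pderiv b (Φ.F k)) * r b) := by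
    intro k
    have h2 : ∑ b, aeval y (pderiv b (Φ.F k)) * r b =
        Φ.dF k * (Φ.ee k * (t k - 1) - (s - 1)) * aeval y (Φ.F k) -
        Φ.E * ((t k - 1) * aeval y (Φ.F k) - ∑ b, aeval y (pderiv b (Φ.F k)) * h b) := by
      have h3 := euler Φ.hh y k
      have h4 : ∑ b, aeval y (pderiv b (Φ.F k)) * r b =
          Φ.E * (∑ b, aeval y (pderiv b (Φ.F k)) * h b) -
          (s - 1) * ∑ l, y l * aeval y (pderiv l (Φ.F k)) := by
        rw [Finset.mul_sum, Finset.mul_sum, ← Finset.sum_sub_distrib]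
        refine Finset.sum_congr rfl fun b _ => ?_
        rw [hr]
        ring
      have h5 : (Φ.E : K) = Φ.dF k * Φ.ee k := by
        rw [← Φ.d_ee k]
        push_cast
        ring
      rw [h4, h3, h5]
      ring
    rw [h2]
    refine Ge.sub ?_ ?_
    · have h3 := ((hEnat (Φ.dF k)).mul (hE k)).mul
        (show Ge w 0 (aeval y (Φ.F k)) from reg_aeval hy _)
      simpa using h3
    · have h3 := (hEnat Φ.E).mul (hT k)
      simpa using h3
  obtain ⟨A, hA⟩ : ∃ A : Matrix (Fin (n + 1)) (Fin (n + 1)) K,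
    A = Matrix.of fun k b => aeval y (pderiv b (Φ.F k)) := ⟨_, rfl⟩
  have hdet : A.det = aeval y (jc Φ) := by
    rw [jc_eq, ← Matrix.det_transpose, hA]
    rfl
  have hrb : ∀ b, Ge w (μ + 1) (r b) := by
    intro b
    refine ge_of_unit (u := aeval y (jc Φ)) ?_ hJ0 hJ
    have h2 : A.adjugate.mulVec (A.mulVec r) = A.det • r := by
      rw [Matrix.mulVec_mulVec, Matrix.adjugate_mul, Matrix.smul_mulVec, Matrix.one_mulVec]
    have h3 := congrFun h2 b
    rw [Pi.smul_apply, smul_eq_mul, hdet, mul_comm] at h3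
    rw [← h3, Matrix.mulVec, dotProduct]
    refine Ge.sum _ _ fun k _ => ?_
    have h4 : Ge w 0 (A.adjugate b k) := by
      rw [Matrix.adjugate_apply]
      refine Pool.Agent.W619.PQ.ge_det w _ fun i l => ?_
      rw [Matrix.updateRow_apply]
      split_ifs
      · by_cases hbl : l = b
        · subst hbl
          rw [Pi.single_eq_same]
          exact Ge.one
        · rw [Pi.single_eq_of_ne hbl]
          exact Or.inl rfl
      · rw [hA]
        exact reg_aeval hy _
    have h5 : Ge w (μ + 1) (A.mulVec r k) := by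
      have h6 := hsys k
      rw [hA]
      exact h6
    simpa using h4.mul h5
  have hs2 : Ge w (μ + 1) (s - 1) := by
    have h2 := hrb j
    rw [hr] at h2
    dsimp only at h2
    rw [hhb, hyj, hyj', sub_self, mul_zero, mul_one, zero_sub] at h2
    have h3 := h2.neg
    rwa [neg_neg] at h3
  have hfin : Ge w (μ + 1) (h b0) := by
    refine ge_of_unit (u := (Φ.E : K)) ?_ (Cv.E_unit Φ w).1 (Cv.E_unit Φ w).2
    have h2 : h b0 * (Φ.E : K) = r b0 + (s - 1) * y b0 := by
      rw [hr]
      ring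
    rw [h2]
    refine (hrb b0).add ?_
    have h3 := hs2.mul (show Ge w 0 (y b0) from hy b0)
    simpa using h3
  rcases hfin with h2 | h2
  · exact hb00 h2
  · rw [← hμ] at h2
    omega

end Pool.Agent.J4.H19.LC
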