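import Pool.Agent.J4.H19.LC.Newt
import Pool.Agent.Y169.CH.Ram
import Pool.Agent.Y169.CH.Cv2

/-!
The ramification indices at the toric places.
-/

set_option autoImplicit false
set_option linter.overlappingInstances false
set_option linter.unusedSectionVars false
set_option maxHeartbeats 400000

open FF MvPolynomial IntermediateField Pool.Agent.W603.LV Pool.Agent.W602.GT Pool.Agent.W602.Cov
open Pool.Agent.TH122.AB Pool.Agent.Y169.CH Pool.Agent.W619.PQ

open Pool.Agent.Y169.TH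

namespace Pool.Agent.J4.H19.LC

theorem pow_inert {K' : Type} [Field K'] [Algebra ℂ K'] {w : Place ℂ K'} {σ : K' ≃ₐ[ℂ] K'}
    (h : Inert w σ) (N : ℕ) : Inert w (σ ^ N) := by
  induction N with
  | zero =>
    intro z _
    left
    simp
  | succ N ih =>
    intro z hz
    have h1 : (σ ^ (N + 1)) z - z = ((σ ^ N) (σ z) - σ z) + (σ z - z) := by
      rw [pow_succ, AlgEquiv.mul_apply]
      ring
    rw [h1]
    refine Ge.add (ih _ ?_) (h z hz)
    have h2 : σ z = (σ z - z) + z := by ring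
    rw [h2]
    exact ((h z hz).mono (by omega)).add hz

variable {n : ℕ} {Φ : Arr n} {K : Type} [Field K] [Algebra ℂ K] {R : ℕ}

namespace Cv

variable (C : Cv Φ K R) {K' : Type} [Field K'] [Algebra ℂ K'] [Algebra K K'] [IsScalarTower ℂ K K']

/-- **The ramification index at a toric place.** -/
theorem ram {G : Subgroup (K' ≃ₐ[ℂ] K')} [Finite G] {v : Place ℂ (fixedField G)}
    {w : Place ℂ K'} {e : ℕ} (hwv : Over w v e) {I : Subgroup G}
    (hI : ∀ g ∈ I, Inert w (g : K' ≃ₐ[ℂ] K')) (hcard : Nat.card I = e) {g : K' ≃ₐ[ℂ] K'}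
    (hg : g ∈ G) {P : Place ℂ K} {e1 e2 : ℕ} (h1 : Over (w.comp g) P e1) (he : e = e1 * e2)
    (hY : ∀ b, ∀ σ ∈ G, σ (algebraMap K K' (C.Y b)) = algebraMap K K' (C.Y b))
    {α : ℤ} {vv : Fin (n + 1) → ℕ} (h : Dat P Φ.F Φ.dF C.x α vv)
    (hJ : ∀ (y : Fin (n + 1) → K) (j : Fin (n + 1)), P.ord (C.x j) = α →
      (∀ l, y l = C.x l / C.x j) → aeval y (jc Φ) ≠ 0 ∧ P.ord (aeval y (jc Φ)) = 0)
    {v0 V : Fin (n + 1) → ℕ} {N : ℕ} (hv : ∀ k, Φ.ee k * v0 k = N * V k)
    (hrel : ∀ k, Φ.ee k * vv k = e2 * V k) (hT : ∀ j, C.M j ∣ ∑ k, C.a j k * v0 k) : e2 ∣ N := by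
  classical
  obtain ⟨σ, hσG, hσI, ζ, hζ, hrot⟩ := exists_rot_conj hI hg
  rw [hcard] at hζ
  obtain ⟨w', hw'⟩ : ∃ w', w' = w.comp g := ⟨_, rfl⟩
  rw [← hw'] at h1 hσI hrot
  obtain ⟨j, y, hj, hy, hyne, hyj, hyreg, hFy, hFyne, hFyv⟩ := h.norm Φ.hh
  obtain ⟨τ, hτ⟩ : ∃ τ : K' ≃ₐ[ℂ] K', τ = σ ^ N := ⟨_, rfl⟩
  have hτI : Inert w' τ := by
    rw [hτ]
    exact pow_inert hσI N
  -- the exponents
  have hexp : ∀ k, (e : ℤ) * v0 k = e1 * vv k * N := by
    intro k
    have h2 : (Φ.ee k : ℤ) ≠ 0 := by exact_mod_cast (Φ.ee_pos k).ne'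
    apply mul_left_cancel₀ h2
    have h3 := congrArg (Nat.cast (R := ℤ)) (hv k)
    have h4 := congrArg (Nat.cast (R := ℤ)) (hrel k)
    push_cast at h3 h4
    have h5 := congrArg (Nat.cast (R := ℤ)) he
    push_cast at h5
    rw [h5]
    calc (Φ.ee k : ℤ) * (e1 * e2 * v0 k) = e1 * e2 * (Φ.ee k * v0 k) := by ring
      _ = e1 * (e2 * V k) * N := by rw [h3]; ring
      _ = _ := by rw [← h4]; ring
  have hrotτ : ∀ z : K', z ≠ 0 → (e : ℤ) ∣ w'.ord z * N → Ge w' (w'.ord z + 1) (τ z - z) := by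
    intro z hz hdvd
    have h2 := rot_pow hσI (hrot z hz) N
    have h3 : (ζ ^ w'.ord z) ^ N = 1 := by
      obtain ⟨c, hc⟩ := hdvd
      rw [← zpow_natCast, ← zpow_mul, hc, zpow_mul, zpow_natCast, hζ.pow_eq_one, one_zpow]
    rw [h3, map_one, one_mul, ← hτ] at h2
    exact h2
  have hyK : ∀ P : MvPolynomial (Fin (n + 1)) ℂ,
      aeval (fun b => algebraMap K K' (y b)) P = algebraMap K K' (aeval y P) := fun P =>
    MvPolynomial.aeval_algebraMap_apply K' y P
  obtain ⟨A, hA⟩ : ∃ A : Fin (n + 1) → K', A = fun k => algebraMap K K' (aeval y (Φ.F k)) :=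
    ⟨_, rfl⟩
  have hAne : ∀ k, A k ≠ 0 := by
    intro k
    rw [hA]
    dsimp only
    rw [Ne, map_eq_zero]
    exact hFyne k
  have hAord : ∀ k, w'.ord (A k) = e1 * vv k := by
    intro k
    rw [hA]
    dsimp only
    rw [h1.2, hFyv]
  obtain ⟨t, ht⟩ : ∃ t : Fin (n + 1) → K', t = fun k => τ (A k) / A k := ⟨_, rfl⟩
  have htA : ∀ k, τ (A k) = t k * A k := by
    intro k
    rw [ht]
    dsimp only
    rw [div_mul_cancel₀ _ (hAne k)]
  have ht1 : ∀ k, Ge w' 1 (t k - 1) := by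
    intro k
    have h2 := hrotτ (A k) (hAne k) ⟨v0 k, by rw [hAord, hexp]⟩
    rw [htA] at h2
    have h3 : t k * A k - A k = (t k - 1) * A k := by ring
    rw [h3] at h2
    rcases h2 with h2 | h2
    · left
      exact (mul_eq_zero.1 h2).resolve_right (hAne k)
    · by_cases h4 : t k - 1 = 0
      · exact Or.inl h4
      · right
        rw [w'.ord_mul h4 (hAne k)] at h2
        omega
  have hYτ : ∀ b, τ (algebraMap K K' (C.Y b)) = algebraMap K K' (C.Y b) := by
    intro b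
    rw [hτ]
    exact pow_fix (hY b σ hσG) N
  have hts0 : ∀ k, t k ^ Φ.ee k = t 0 ^ Φ.ee 0 := by
    intro k
    refine Fin.cases rfl (fun b => ?_) k
    have hA1 : ∀ k, A k ^ Φ.ee k = algebraMap K K' (aeval y (Φ.F k) ^ Φ.ee k) := by
      intro k
      rw [hA, map_pow]
    have h2 : algebraMap K K' (C.Y b) = A b.succ ^ Φ.ee b.succ / A 0 ^ Φ.ee 0 := by
      rw [hA1, hA1, ← map_div₀]
      congr 1
      unfold Y
      rw [ae_G, ae_G, hFy, hFy, mul_pow, mul_pow, ← pow_mul, ← pow_mul, Φ.d_ee, Φ.d_ee,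
        mul_div_mul_left _ _ (pow_ne_zero _ (C.x_ne j))]
    have h3 := hYτ b
    rw [h2, map_div₀, map_pow, map_pow, htA, htA, mul_pow, mul_pow] at h3
    have h4 : A b.succ ^ Φ.ee b.succ ≠ 0 := pow_ne_zero _ (hAne _)
    have h5 : A 0 ^ Φ.ee 0 ≠ 0 := pow_ne_zero _ (hAne _)
    have h6 : t 0 ^ Φ.ee 0 ≠ 0 := by
      intro h0
      have h7 : τ (A 0) = 0 := by
        rw [htA, pow_eq_zero_iff (Φ.ee_pos 0).ne' |>.1 h0, zero_mul]
      exact hAne 0 (by simpa using h7)
    field_simp at h3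
    exact h3
  obtain ⟨k0, hk0⟩ := (dat_zero h)
  have hae : ∀ P : MvPolynomial (Fin (n + 1)) ℂ,
      aeval (fun b => τ (algebraMap K K' (y b))) P = τ (algebraMap K K' (aeval y P)) := by
    intro P
    rw [← hyK]
    exact (MvPolynomial.comp_aeval_apply (R := ℂ) (fun b => algebraMap K K' (y b))
      (τ : K' →ₐ[ℂ] K') P).symm
  have hfix := newton (Φ := Φ) (w := w') (y := fun b => algebraMap K K' (y b))
    (y' := fun b => τ (algebraMap K K' (y b))) (j := j) (k0 := k0) (t := t)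
    (fun b => h1.reg.2 (hyreg b)) (by rw [hyj, map_one]) (by rw [hyj, map_one, map_one])
    (fun b => hτI _ (h1.reg.2 (hyreg b)))
    (by
      rw [hyK, Ne, map_eq_zero]
      exact (hJ y j hj hy).1)
    (by rw [hyK, h1.2, (hJ y j hj hy).2, mul_zero])
    (by
      rw [hyK, Ne, map_eq_zero]
      exact hFyne k0)
    (by
      rw [hyK, h1.2, hFyv, hk0]
      simp)
    (fun k => by
      rw [hae, hyK]
      have h2 := htA k
      rw [hA] at h2
      exact h2)
    ht1 (fun k => by rw [hts0 k, hts0 k0])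
  have hτy : ∀ b, τ (algebraMap K K' (y b)) = algebraMap K K' (y b) := fun b => congrFun hfix b
  have hτF : ∀ k, τ (algebraMap K K' (aeval y (Φ.F k))) = algebraMap K K' (aeval y (Φ.F k)) := by
    intro k
    rw [← hae, ← hyK]
    congr 2
  have hxj : C.x j * y 0 = 1 := by
    rw [hy, C.hx0]
    exact mul_one_div_cancel (C.x_ne j)
  have hτx : ∀ b, τ (algebraMap K K' (C.x b)) = algebraMap K K' (C.x b) := by
    intro b
    have h2 : C.x b = y b / y 0 := by
      rw [hy, hy, C.hx0]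
      have := C.x_ne j
      field_simp
    rw [h2, map_div₀, map_div₀, hτy, hτy]
  have hτz : ∀ i, τ (algebraMap K K' (C.z i)) = algebraMap K K' (C.z i) := by
    intro i
    obtain ⟨c, hc⟩ := C.hdiv i
    obtain ⟨c', hc'⟩ := hT i
    obtain ⟨z, hz⟩ : ∃ z, z = C.z i * y 0 ^ c := ⟨_, rfl⟩
    have hz0 : z ≠ 0 := by
      rw [hz]
      exact mul_ne_zero (C.z_ne i) (pow_ne_zero _ (hyne 0))
    have hzM : z ^ C.M i = ∏ k, aeval y (Φ.F k) ^ C.a i k := by
      rw [hz, mul_pow, C.hz, ← pow_mul, mul_comm c, ← hc]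
      simp only [hFy, mul_pow, Finset.prod_mul_distrib, ← pow_mul]
      rw [Finset.prod_pow_eq_pow_sum]
      have h2 : ∑ k, Φ.dF k * C.a i k = ∑ k, C.a i k * Φ.dF k :=
        Finset.sum_congr rfl fun k _ => mul_comm _ _
      rw [h2]
      calc C.x j ^ (∑ k, C.a i k * Φ.dF k) * (∏ k, aeval y (Φ.F k) ^ C.a i k) *
            y 0 ^ (∑ k, C.a i k * Φ.dF k)
          = (C.x j * y 0) ^ (∑ k, C.a i k * Φ.dF k) * ∏ k, aeval y (Φ.F k) ^ C.a i k := by
            rw [mul_pow]
            ring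
        _ = _ := by rw [hxj, one_pow, one_mul]
    have hz'0 : algebraMap K K' z ≠ 0 := by simpa using hz0
    have hordz : (C.M i : ℤ) * P.ord z = ∑ k, (C.a i k : ℤ) * vv k := by
      have h2 := congrArg P.ord hzM
      rw [P.ord_pow, ord_prod' P Finset.univ _ fun k _ => pow_ne_zero _ (hFyne k)] at h2
      rw [h2]
      exact Finset.sum_congr rfl fun k _ => by rw [P.ord_pow, hFyv]
    have hdvd : (e : ℤ) ∣ w'.ord (algebraMap K K' z) * N := by
      refine ⟨c', ?_⟩
      have hM0 : (C.M i : ℤ) ≠ 0 := by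
        have := C.hM i
        omega
      apply mul_left_cancel₀ hM0
      rw [h1.2]
      have h2 := congrArg (Nat.cast (R := ℤ)) hc'
      push_cast at h2
      calc (C.M i : ℤ) * (e1 * P.ord z * N) = e1 * (C.M i * P.ord z) * N := by ring
        _ = ∑ k, (C.a i k : ℤ) * (e1 * vv k * N) := by
          rw [hordz, Finset.mul_sum, Finset.sum_mul]
          exact Finset.sum_congr rfl fun k _ => by ring
        _ = e * ∑ k, (C.a i k : ℤ) * v0 k := by
          rw [Finset.mul_sum]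
          exact Finset.sum_congr rfl fun k _ => by rw [← hexp]; ring
        _ = _ := by rw [h2]; ring
    have hτz' : τ (algebraMap K K' z) = algebraMap K K' z := by
      have h2 := hrotτ _ hz'0 hdvd
      have h3 := rot_fix w' τ (ζ := 1) (e := 1) IsPrimitiveRoot.one hz'0
        (by rw [one_zpow, map_one, one_mul]; exact h2) (C.hM i) (by
          rw [← map_pow, hzM, map_prod, map_prod]
          refine Finset.prod_congr rfl fun k _ => ?_
          rw [map_pow, map_pow]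
          congr 1
          exact hτF k) (N := 1) (one_dvd _)
      rwa [pow_one] at h3
    have h2 : C.z i = z / y 0 ^ c := by
      rw [hz, mul_div_cancel_right₀ _ (pow_ne_zero _ (hyne 0))]
    rw [h2, map_div₀, map_div₀, hτz', map_pow, map_pow, hτy]
  have hfixall : ∀ x : K, τ (algebraMap K K' x) = algebraMap K K' x := by
    intro x
    have hx : x ∈ IntermediateField.adjoin ℂ
        (Set.range (fun b : Fin n => C.x b.succ) ∪ Set.range C.z) := by
      rw [C.hgen]
      trivial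
    induction hx using IntermediateField.adjoin_induction with
    | mem x hx =>
      rcases hx with ⟨b, rfl⟩ | ⟨j, rfl⟩
      · exact hτx _
      · exact hτz j
    | algebraMap c =>
      rw [← IsScalarTower.algebraMap_apply ℂ K K', AlgEquiv.commutes]
    | add x y _ _ hx hy => rw [map_add, map_add, hx, hy]
    | inv x _ hx => rw [map_inv₀, map_inv₀, hx]
    | mul x y _ _ hx hy => rw [map_mul, map_mul, hx, hy]
  obtain ⟨π, hπ0, hπ⟩ := P.surj
  have hπK : algebraMap K K' π ≠ 0 := by simpa using hπ0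
  have hord : w'.ord (algebraMap K K' π) = e1 := by rw [h1.2, hπ, mul_one]
  have h3 := rot_pow hσI (hrot _ hπK) N
  rw [← hτ, hfixall, hord, ← one_sub_mul, zpow_natCast, ← map_one (algebraMap ℂ K'),
    ← map_sub] at h3
  have h4 : (ζ ^ e1) ^ N = 1 := by
    by_contra hne
    have hc : 1 - (ζ ^ e1) ^ N ≠ 0 := sub_ne_zero.2 (Ne.symm hne)
    have hcK : algebraMap ℂ K' (1 - (ζ ^ e1) ^ N) ≠ 0 := by
      rw [Ne, map_eq_zero]
      exact hc
    rcases h3 with h3 | h3
    · exact mul_ne_zero hcK hπK h3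
    · rw [w'.ord_mul hcK hπK, w'.ord_const hc, hord] at h3
      omega
  rw [← pow_mul] at h4
  have h5 : e ∣ e1 * N := hζ.dvd_of_pow_eq_one _ h4
  rw [he] at h5
  exact Nat.dvd_of_mul_dvd_mul_left h1.1 h5

end Cv

end Pool.Agent.J4.H19.LC
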