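import Pool.Agent.J4.H19.LC.Tr

/-!
The order of sections of multiples of the canonical divisor at arbitrary places.
-/

set_option autoImplicit false
set_option linter.overlappingInstances false
set_option linter.unusedSectionVars false
set_option maxHeartbeats 1000000

open FF MvPolynomial IntermediateField Pool.Agent.W603.LV Pool.Agent.W619.PQ
open Pool.Agent.W619.TW Pool.Agent.W602.GT Pool.Agent.TH122.AB Pool.Agent.TH756.PN
open Pool.Agent.Y169.CH Pool.Agent.W602.Cov.G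
open Pool.Agent.Y169.TH

namespace Pool.Agent.J4.H19.LC

namespace Cv

variable {d : ℕ} {Φ : Arr (d + 1)} {K : Type} [Field K] [Algebra ℂ K] {R : ℕ} (C : Cv Φ K R)

/-- **The order of the sections.** -/
theorem sec_tr {ι : Type} [Fintype ι] (T : ι → C.Dir) (S : Finset K)
    {D : Fin (d + 1) → Derivation ℂ K K} (hD : ∀ i j, D i (C.u j) = if i = j then 1 else 0)
    (Q : Place ℂ K) :
    ∃ c : ℕ, ∀ (m j q : ℕ) (ω : (Fin (d + 1) → Derivation ℂ K K) → K),
      Sec (d + 1) (pw S j) m ω →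
      (∑ k, (Φ.dF k : ℤ) - (d + 2)) * m + c * (j + 1) ≤ Φ.E * q →
      ∀ μ : ℤ,
        (∀ a : Fin (d + 1) →₀ ℕ, (∀ s, (m : ℤ) - c * (j + 1) ≤
          (Φ.ee 0 * (T s).v 0 : ℤ) * (q - ∑ b, (a b : ℤ)) +
            ∑ b, (Φ.ee b.succ * (T s).v b.succ : ℤ) * a b) →
          μ ≤ ∑ b, (a b : ℤ) * Q.ord (C.Y b)) →
        Ge Q (μ - c * (j + 1)) (ω D * C.Lam m / aeval C.x (Φ.G 0) ^ q) := by
  classical
  obtain ⟨K', iF, iA, iK, hT, G0, G, fG0, fG, hGG, a1, a2, a3, a4, b1, b2, b3, b4, Y, X, hY, hX,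
    hYK, hXZ, hbX⟩ := exists_closure2 C.u_bas C.bas_Y C.adj_le C.fin_Y
  obtain ⟨DY, hDY0⟩ := exists_dual C.bas_Y
  have hDY : ∀ i j, DY i (C.Y j) = if i = j then 1 else 0 := by
    intro i j
    have h1 := congrFun (congrFun hDY0 i) j
    rw [Matrix.of_apply, Matrix.one_apply] at h1
    exact h1
  -- the coordinates in `K'`
  have hXK' : ∀ j, (X j : K') = algebraMap K K' (C.u j) := by
    intro j
    rw [← hXZ, ← IsScalarTower.algebraMap_apply (fixedField G) K K']
    rfl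
  have hYK' : ∀ j, (Y j : K') = algebraMap K K' (C.Y j) := by
    intro j
    rw [← hYK, ← IsScalarTower.algebraMap_apply (fixedField G0) K K']
    rfl
  have hXfun : (fun j => (X j : K')) = fun j => algebraMap K K' (C.u j) := funext hXK'
  have hYfun : (fun j => (Y j : K')) = fun j => algebraMap K K' (C.Y j) := funext hYK'
  obtain ⟨γ, hγd⟩ : ∃ γ, γ = aeval C.x (Φ.G 0) := ⟨_, rfl⟩
  have hγ0 : γ ≠ 0 := by
    rw [hγd]
    exact C.G_ne 0
  have hγG : ∀ g ∈ G, g (algebraMap K K' γ) = algebraMap K K' γ := by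
    intro g hg
    have h1 : algebraMap K K' γ = ((aeval X (deh (Φ.G 0)) : fixedField G) : K') := by
      rw [← aeval_fix, hXfun, hγd, ← C.ae_deh]
      exact (MvPolynomial.aeval_algebraMap_apply K' C.u (deh (Φ.G 0))).symm
    rw [h1]
    exact (aeval X (deh (Φ.G 0)) : fixedField G).2 ⟨g, hg⟩
  have hint : ∀ (q : ℕ) (P : MvPolynomial (Fin (d + 1)) ℂ),
      (∀ m ∈ P.support, ∑ b, m b ≤ Φ.E * q) →
      IsIntegral (Algebra.adjoin ℂ (Set.range fun j => (Y j : K')))
        (aeval (fun j => (X j : K')) P / (algebraMap K K' γ) ^ q) := by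
    intro q P hP
    obtain ⟨p, hp, hp0⟩ := C.int_u hP
    have hle : ∀ x ∈ Algebra.adjoin ℂ (Set.range C.Y), algebraMap K K' x ∈
        Algebra.adjoin ℂ (Set.range fun j => (Y j : K')) := by
      intro x hx
      rw [Algebra.adjoin_range_eq_range_aeval] at hx ⊢
      obtain ⟨Q, rfl⟩ := hx
      refine ⟨Q, ?_⟩
      rw [hYfun]
      exact MvPolynomial.aeval_algebraMap_apply K' C.Y Q
    let φ : Algebra.adjoin ℂ (Set.range C.Y) →+*
        Algebra.adjoin ℂ (Set.range fun j => (Y j : K')) :=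
      ((algebraMap K K').comp (Algebra.adjoin ℂ (Set.range C.Y)).subtype).codRestrict
        (Algebra.adjoin ℂ (Set.range fun j => (Y j : K'))) fun x => hle x.1 x.2
    have hel : aeval (fun j => (X j : K')) P / (algebraMap K K' γ) ^ q =
        algebraMap K K' (aeval C.u P / aeval C.x (Φ.G 0) ^ q) := by
      rw [map_div₀, map_pow, ← hγd, hXfun]
      congr 1
      exact MvPolynomial.aeval_algebraMap_apply K' C.u P
    rw [hel]
    refine ⟨p.map φ, hp.map _, ?_⟩
    rw [Polynomial.eval₂_map]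
    have h1 := congrArg (algebraMap K K') hp0
    rw [map_zero, Polynomial.hom_eval₂] at h1
    exact h1
  -- the place at infinity
  obtain ⟨v0, hv0, hinf⟩ := C.inf_f hX hXZ hD
  obtain ⟨w0, e0, I0, hw0, hI0c, hI0⟩ := exists_inertia G v0
  -- the test places
  have hpl : ∀ s : ι, ∃ v : Place ℂ (fixedField G0), ∀ P : MvPolynomial (Fin (d + 1)) ℂ, P ≠ 0 →
      v.ord (aeval Y P) = zord (T s).lam P := fun s => exists_zmono hY _ (T s).hlam
  choose vs hvs using hpl
  choose ws es Is hws hIsc hIs using fun s => exists_inertia G0 (vs s)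
  obtain ⟨δ, c1, Q0, bb, hQ0, hC⟩ := two_trace G0 G hGG hX hbX hY (γ := algebraMap K K' γ)
    (by simpa using hγ0) hγG Φ.E hint hv0 hw0 (fun s => (T s).lam) hvs hws
    (S.image (algebraMap K K'))
  -- the constants of `S`
  obtain ⟨c2, hc2, hc2'⟩ : ∃ c2 : ℕ, (∀ g ∈ G0, ∀ s ∈ S, -(c2 : ℤ) ≤
      w0.ord (g (algebraMap K K' s))) ∧
      ∀ t, ∀ g ∈ G0, ∀ s ∈ S, -(c2 : ℤ) ≤ (ws t).ord (g (algebraMap K K' s)) := by
    have hfin : ((Set.image2 (fun (g : K' ≃ₐ[ℂ] K') (s : K) => w0.ord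
        (g (algebraMap K K' s))) (G0 : Set (K' ≃ₐ[ℂ] K')) (S : Set K)) ∪
        (⋃ t, Set.image2 (fun (g : K' ≃ₐ[ℂ] K') (s : K) => (ws t).ord
        (g (algebraMap K K' s))) (G0 : Set (K' ≃ₐ[ℂ] K')) (S : Set K))).Finite :=
      (Set.Finite.image2 _ (Set.toFinite _) (Set.toFinite _)).union
        (Set.finite_iUnion fun t => Set.Finite.image2 _ (Set.toFinite _) (Set.toFinite _))
    obtain ⟨M0, hM0⟩ := hfin.bddBelow
    refine ⟨M0.natAbs, fun g hg s hs => ?_, fun t g hg s hs => ?_⟩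
    · have h1 := hM0 (Or.inl (Set.mem_image2_of_mem hg hs))
      have h2 : -(M0.natAbs : ℤ) ≤ M0 := by omega
      exact h2.trans h1
    · have h1 := hM0 (Or.inr (Set.mem_iUnion.2 ⟨t, Set.mem_image2_of_mem hg hs⟩))
      have h2 : -(M0.natAbs : ℤ) ≤ M0 := by omega
      exact h2.trans h1
  obtain ⟨NN, hNN⟩ : ∃ NN : ℕ, NN = ∑ s, (T s).N := ⟨_, rfl⟩
  have hNle : ∀ s, (T s).N ≤ NN := by
    intro s
    rw [hNN]
    exact Finset.single_le_sum (f := fun s => (T s).N) (fun _ _ => Nat.zero_le _)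
      (Finset.mem_univ s)
  -- the place above `Q`
  have hfdK' : FiniteDimensional (fixedField G0) K' := by
    have hGal : IsGaloisGroup G0 (fixedField G0) K' := isGaloisGroup_fixed G0
    exact IsGaloisGroup.finiteDimensional G0 _ K'
  have hfdKK : FiniteDimensional K K' := Module.Finite.right (fixedField G0) K K'
  obtain ⟨w, eQ, hwQ⟩ := Pool.Agent.Y172.exists_above (L := K') Q
  obtain ⟨c3, hc3⟩ : ∃ c3 : ℕ, (∀ i, -(c3 : ℤ) ≤ w.ord (bb i)) ∧ w.ord Q0 ≤ c3 := by
    refine ⟨(∑ i, |w.ord (bb i)|).toNat + (w.ord Q0).natAbs, fun i => ?_, ?_⟩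
    · have h1 : |w.ord (bb i)| ≤ ∑ i, |w.ord (bb i)| :=
        Finset.single_le_sum (f := fun i => |w.ord (bb i)|) (fun _ _ => abs_nonneg _)
          (Finset.mem_univ i)
      have h2 := neg_abs_le (w.ord (bb i))
      have h3 := Int.self_le_toNat (∑ i, |w.ord (bb i)|)
      push_cast
      have h4 : (0 : ℤ) ≤ |w.ord Q0| := abs_nonneg _
      linarith
    · push_cast
      have h4 := le_abs_self (w.ord Q0)
      have h5 : (0 : ℤ) ≤ max (∑ i, |w.ord (bb i)|) 0 := le_max_right _ _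
      linarith
  refine ⟨(NN + 1) * (c1 + c2 + 1) + 2 * c3, fun m j q ω hsec hq μ hA => ?_⟩
  -- from `K` to `K'`
  have hS' : ∀ s' ∈ pw S j, algebraMap K K' s' ∈ pw (S.image (algebraMap K K')) j := by
    intro s' hs'
    obtain ⟨s, hs, rfl⟩ := mem_pw.1 hs'
    rw [map_pow]
    exact mem_pw.2 ⟨_, Finset.mem_image_of_mem _ hs, rfl⟩
  have hq2 : (∑ k, (Φ.dF k : ℤ) - (d + 2)) * m + c2 * j + c1 * (j + 1) ≤ Φ.E * q := by
    refine le_trans ?_ hq
    push_cast
    have h1 : (0 : ℤ) ≤ NN * (c1 + c2 + 1) * (j + 1) := by positivity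
    have h2 : (0 : ℤ) ≤ (c2 + j + 1 : ℤ) := by positivity
    have h3 : (0 : ℤ) ≤ 2 * c3 * (j + 1) := by positivity
    nlinarith
  have hfine : Fine G X (pw (S.image (algebraMap K K')) j)
      (algebraMap K K' (ω D * C.Lam m)) := by
    -- the places of the irreducible polynomials
    intro p hp v hvp hv
    obtain ⟨w, e, I, hwv, hcard, hI⟩ := exists_inertia G v
    refine ⟨w, e, hwv, fun g hg => ?_⟩
    obtain ⟨P, e1, e2, h1, h2, he⟩ := exists_restr (K := K) (over_comp hwv hg)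
    have hcase : e2 = 1 ∨ ∃ t, p ∣ deh (Φ.F t) := by
      by_cases hex : ∃ t, p ∣ deh (Φ.F t)
      · exact Or.inr hex
      left
      push Not at hex
      refine C.ramG hXZ hwv hI hcard hg h1 he fun i => ?_
      have h3 : ¬ p ∣ C.pb i := by
        unfold pb
        intro h4
        obtain ⟨t, -, ht⟩ := (Prime.dvd_finset_prod_iff hp.prime _).1 h4
        exact hex t (hp.prime.dvd_of_dvd_pow ht)
      rw [(hv _ (C.pb_ne i)).2.2 h3]
      exact dvd_zero _
    rcases C.adic_f hX hXZ hD hp hvp hv h2 hcase hsec with h3 | ⟨s', hs', hs0, hle⟩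
    · left
      rw [h3, map_zero]
    · right
      refine ⟨algebraMap K K' s', hS' s' hs', by simpa using hs0, ?_⟩
      rw [← Place.comp_ord, ← Place.comp_ord, h1.2, h1.2]
      exact mul_le_mul_of_nonneg_left hle (by positivity)
  have hinf2 : ∀ g ∈ G, Ge w0 (- (e0 * ((∑ k, (Φ.dF k : ℤ) - (d + 2)) * m + c2 * j)))
      (g (algebraMap K K' (ω D * C.Lam m))) := by
    -- the place at infinity
    intro g hg
    obtain ⟨P, e1, e2, h1, h2, he⟩ := exists_restr (K := K) (over_comp hw0 hg)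
    have he2 : e2 = 1 := by
      refine C.ramG hXZ hw0 hI0 hI0c hg h1 he fun i => ?_
      rw [pb, map_prod, ord_prod' v0 Finset.univ _ fun s _ => by
        rw [map_pow]
        exact pow_ne_zero _ (hX.ne (deh_F_ne s))]
      have h3 : ∀ s, v0.ord (aeval X (deh (Φ.F s) ^ C.a i s)) =
          - ((C.a i s * Φ.dF s : ℕ) : ℤ) := by
        intro s
        rw [map_pow, v0.ord_pow, hv0 _ (deh_F_ne s), degB_deh (Φ.hh s) (Φ.hI s)]
        push_cast
        ring
      rw [Finset.sum_congr rfl fun s _ => h3 s, Finset.sum_neg_distrib, dvd_neg]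
      exact_mod_cast C.hdiv i
    subst he2
    rcases hinf P h2 (pw S j) m ω hsec with h3 | ⟨s', hs', hs0, hle⟩
    · left
      rw [h3, map_zero, map_zero]
    · right
      obtain ⟨s, hs, rfl⟩ := mem_pw.1 hs'
      have h4 := hc2 g (hGG hg) s hs
      rw [← Place.comp_ord, h1.2] at h4
      rw [← Place.comp_ord, h1.2]
      rw [P.ord_pow] at hle
      have h5 : (e0 : ℤ) = e1 := by
        rw [he]
        push_cast
        ring
      rw [h5]
      have h6 : (e1 : ℤ) * (j * P.ord s) ≤ e1 * (P.ord (ω D * C.Lam m) +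
        (∑ k, (Φ.dF k : ℤ) - (d + 2)) * m) := mul_le_mul_of_nonneg_left hle (by positivity)
      have h7 : (j : ℤ) * (-(c2 : ℤ)) ≤ j * (e1 * P.ord s) :=
        mul_le_mul_of_nonneg_left h4 (by positivity)
      have h8 : (1 : ℤ) ≤ e1 := by exact_mod_cast h1.1
      have h9 : (0 : ℤ) ≤ c2 * j := by positivity
      have h10 : (c2 : ℤ) * j ≤ e1 * (c2 * j) := by nlinarith
      nlinarith
  have htest : ∀ s, ∀ g ∈ G0,
      Ge (ws s) (- ((-((es s : ℤ) * m)) / ((T s).N : ℤ)) - c2 * j - q * (es s * (T s).V 0))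
      (g (algebraMap K K' (ω D * C.Lam m) / algebraMap K K' γ ^ q)) := by
    -- the test places
    intro s g hg
    obtain ⟨P, e1, e2, h1, h2, he⟩ := exists_restr (K := K) (over_comp (hws s) hg)
    obtain ⟨b0, hb0⟩ := (T s).ne
    obtain ⟨α, vv, hα, hdat⟩ := C.exists_dat P
    -- the logarithmic vector fields
    obtain ⟨dd, hdddef⟩ : ∃ dd : Fin (d + 1) → Derivation ℂ K K,
      dd = fun b => algebraMap (fixedField G0) K (Y b) • DY b := ⟨_, rfl⟩
    have hlog : ∀ b z, P.Reg (dd b z / z) := fun b z => by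
      rw [hdddef]
      exact log_zmono hY (T s).lam (hvs s) h2 (fun j => by rw [hYK]; exact hDY b j) z
    have hdd : ∀ i j, dd i (C.Y j) = if i = j then C.Y j else 0 := by
      intro i j
      rw [hdddef]
      dsimp only
      rw [Derivation.smul_apply, hDY, smul_eq_mul, hYK]
      split_ifs with hij
      · rw [mul_one, hij]
      · rw [mul_zero]
    have hordY : ∀ b, P.ord (C.Y b) = e2 * (((T s).V b.succ : ℤ) - (T s).V 0) := by
      intro b
      have h3 := hvs s (MvPolynomial.X b) (X_ne_zero _)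
      rw [aeval_X, zord_X] at h3
      rw [← hYK, h2.2, h3]
      rfl
    have hrel := C.toric_rel hdat (T s).h0 hordY
    have hdvd : e2 ∣ (T s).N := C.ram (hws s) (hIs s) (hIsc s) hg h1 he
      (fun b σ hσ => by
        rw [← hYK']
        exact (Y b).2 ⟨σ, hσ⟩) hdat (fun y j hj hy => C.jc_unit (div_zmono hY (T s).lam hb0 (hvs s) h2) hdat hdd hlog hj hy)
      (T s).hv hrel (T s).hT
    have hq3 : (∑ k, (Φ.dF k : ℤ) - (d + 2)) * m ≤ Φ.E * q := by
      have h3 : (0 : ℤ) ≤ c2 * j + c1 * (j + 1) := by positivity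
      linarith
    rw [← map_pow, ← map_div₀, hγd]
    rcases C.test_f hY hYK hD hDY (T s).lam hb0 (hvs s) h2 hdat hα hsec hq3 with
      h3 | ⟨s', hs', hs0, hle⟩
    · left
      rw [h3, map_zero, map_zero]
    · right
      obtain ⟨s0, hs, rfl⟩ := mem_pw.1 hs'
      have h4 := hc2' s g hg s0 hs
      rw [← Place.comp_ord, h1.2] at h4
      rw [← Place.comp_ord, h1.2]
      rw [P.ord_pow] at hle
      have hr0 : (Φ.ee 0 : ℤ) * vv 0 = e2 * (T s).V 0 := by exact_mod_cast hrel 0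
      rw [hr0] at hle
      have hN0 : (0 : ℤ) < (T s).N := by exact_mod_cast (T s).hN
      have he2N : e2 ≤ (T s).N := Nat.le_of_dvd (T s).hN hdvd
      have h5 := mul_le_mul_of_nonneg_left hle (show (0 : ℤ) ≤ e1 by positivity)
      have h7 : (j : ℤ) * (-(c2 : ℤ)) ≤ j * (e1 * P.ord s0) :=
        mul_le_mul_of_nonneg_left h4 (by positivity)
      have h8 : - ((-((es s : ℤ) * m)) / ((T s).N : ℤ)) ≤ e1 * m := by
        rw [neg_le, Int.le_ediv_iff_mul_le hN0]
        rw [he]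
        push_cast
        have h9 : (e2 : ℤ) ≤ (T s).N := by exact_mod_cast he2N
        have h10 : (0 : ℤ) ≤ e1 * m := by positivity
        nlinarith
      have h11 : (q : ℤ) * (es s * (T s).V 0) = e1 * (q * (e2 * (T s).V 0)) := by
        rw [he]
        push_cast
        ring
      rw [h11]
      nlinarith
  obtain ⟨RR, hRR1, hRR2⟩ := hC j q ((∑ k, (Φ.dF k : ℤ) - (d + 2)) * m + c2 * j)
    (fun s => - ((-((es s : ℤ) * m)) / ((T s).N : ℤ)) - c2 * j - q * (es s * (T s).V 0))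
    (algebraMap K K' (ω D * C.Lam m)) hfine hinf2 hq2 htest
  -- the exponents
  have hexpo : ∀ i, ∀ a ∈ (RR i).support, μ ≤ ∑ b, (a b : ℤ) * Q.ord (C.Y b) := by
    intro i a ha
    refine hA a fun s => ?_
    have h1 := hRR2 i a ha s
    have hN0 : (0 : ℤ) < (T s).N := by exact_mod_cast (T s).hN
    have hes : (1 : ℤ) ≤ es s := by exact_mod_cast (hws s).1
    obtain ⟨W, hW⟩ : ∃ W : ℤ, W = (T s).V 0 * (q - ∑ b, (a b : ℤ)) +
      ∑ b, ((T s).V b.succ : ℤ) * a b := ⟨_, rfl⟩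
    have hsum : (Φ.ee 0 * (T s).v 0 : ℤ) * (q - ∑ b, (a b : ℤ)) +
        ∑ b, (Φ.ee b.succ * (T s).v b.succ : ℤ) * a b = (T s).N * W := by
      have h2 : ∀ k, (Φ.ee k : ℤ) * (T s).v k = (T s).N * (T s).V k := fun k => by
        exact_mod_cast (T s).hv k
      simp only [h2]
      rw [hW, mul_add, Finset.mul_sum]
      congr 1
      · ring
      · exact Finset.sum_congr rfl fun b _ => by ring
    have hz : zwt (T s).lam a = W - q * (T s).V 0 := by
      rw [hW]
      unfold zwt Dir.lam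
      simp only [sub_mul]
      rw [Finset.sum_sub_distrib, ← Finset.mul_sum]
      ring
    rw [hsum]
    rw [hz] at h1
    have h2 : - ((-((es s : ℤ) * m)) / ((T s).N : ℤ)) ≤ es s * W + c2 * j + c1 * (j + 1) := by
      nlinarith
    have h3 : (es s : ℤ) * m ≤ (es s * W + c2 * j + c1 * (j + 1)) * (T s).N := by
      have h4 := Int.emod_add_mul_ediv (-((es s : ℤ) * m)) ((T s).N : ℤ)
      have h5 := Int.emod_nonneg (-((es s : ℤ) * m)) hN0.ne'
      nlinarith
    have h4 : (es s : ℤ) * (m - (T s).N * W) ≤ (c2 * j + c1 * (j + 1)) * (T s).N := by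
      nlinarith
    have h5 : (m : ℤ) - (T s).N * W ≤ (c2 * j + c1 * (j + 1)) * (T s).N := by
      by_cases h6 : (m : ℤ) - (T s).N * W ≤ 0
      · exact h6.trans (by positivity)
      · push Not at h6
        nlinarith
    have h6 : ((T s).N : ℤ) ≤ NN := by exact_mod_cast hNle s
    have h7 : (c2 * j + c1 * (j + 1) : ℤ) * (T s).N ≤ (c2 * j + c1 * (j + 1)) * NN :=
      mul_le_mul_of_nonneg_left h6 (by positivity)
    have h8 : (c2 * j + c1 * (j + 1) : ℤ) * NN ≤ ((NN + 1) * (c1 + c2 + 1) : ℕ) * (j + 1) := by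
      push_cast
      have h9 : (c2 * j + c1 * (j + 1) : ℤ) ≤ (c1 + c2 + 1) * (j + 1) := by
        have : (0 : ℤ) ≤ (c2 + j + 1 : ℤ) := by positivity
        nlinarith
      calc (c2 * j + c1 * (j + 1) : ℤ) * NN ≤ ((c1 + c2 + 1) * (j + 1)) * NN :=
            mul_le_mul_of_nonneg_right h9 (by positivity)
        _ ≤ _ := by
          have : (0 : ℤ) ≤ (c1 + c2 + 1) * (j + 1) := by positivity
          nlinarith
    have h9 : (0 : ℤ) ≤ 2 * c3 * (j + 1) := by positivity
    push_cast at h8 ⊢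
    linarith
  -- the traces
  have htrace : ∀ i, Ge w (eQ * μ) ((aeval Y (RR i) : fixedField G0) : K') := by
    intro i
    have h1 : ((aeval Y (RR i) : fixedField G0) : K') = algebraMap K K' (aeval C.Y (RR i)) := by
      rw [← aeval_fix, hYfun]
      exact MvPolynomial.aeval_algebraMap_apply K' C.Y (RR i)
    rw [h1]
    refine (Pool.Agent.Y172.over_ge hwQ).2 ?_
    rw [aeval_def, eval₂_eq']
    refine Ge.sum _ _ fun a ha => ?_
    have h2 : Ge Q μ (∏ b, C.Y b ^ a b) := by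
      right
      rw [ord_prod' Q Finset.univ _ fun b _ => pow_ne_zero _ (C.Y_ne b)]
      refine (hexpo i a ha).trans (le_of_eq ?_)
      exact Finset.sum_congr rfl fun b _ => (Q.ord_pow _ _).symm
    have h3 := (Ge.const (P := Q) (coeff a (RR i))).mul h2
    simpa using h3
  have hgg : algebraMap K K' (ω D * C.Lam m) / algebraMap K K' γ ^ q =
      algebraMap K K' (ω D * C.Lam m / aeval C.x (Φ.G 0) ^ q) := by
    rw [map_div₀, map_pow, hγd]
  obtain ⟨g, hg⟩ : ∃ g, g = ω D * C.Lam m / aeval C.x (Φ.G 0) ^ q := ⟨_, rfl⟩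
  rw [hgg, ← hg] at hRR1
  rw [← hg]
  have h1 : Ge w (eQ * μ - c3) (algebraMap K K' g * Q0 ^ (j + 1)) := by
    rw [hRR1]
    refine Ge.sum _ _ fun i _ => ?_
    have h2 := (htrace i).mul (show Ge w (-(c3 : ℤ)) (bb i) from Or.inr (hc3.1 i))
    exact h2.mono (by linarith)
  by_cases hg0 : g = 0
  · exact Or.inl hg0
  have hgK : algebraMap K K' g ≠ 0 := by simpa using hg0
  right
  have h2 := h1.resolve_left (mul_ne_zero hgK (pow_ne_zero _ hQ0))
  rw [w.ord_mul hgK (pow_ne_zero _ hQ0), w.ord_pow, hwQ.2] at h2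
  have h3 : ((j + 1 : ℕ) : ℤ) * w.ord Q0 ≤ (j + 1 : ℕ) * c3 :=
    mul_le_mul_of_nonneg_left hc3.2 (by positivity)
  have h4 : (1 : ℤ) ≤ eQ := by exact_mod_cast hwQ.1
  have h5 : (eQ : ℤ) * (μ - Q.ord g) ≤ 2 * c3 * (j + 1) := by
    push_cast at h2 h3
    have h6 : (0 : ℤ) ≤ (j : ℤ) * c3 := by positivity
    nlinarith
  have h6 : μ - Q.ord g ≤ 2 * c3 * (j + 1) := by
    by_cases h7 : μ - Q.ord g ≤ 0
    · exact h7.trans (by positivity)
    · push Not at h7
      nlinarith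
  have h7 : (0 : ℤ) ≤ (NN + 1) * (c1 + c2 + 1) * (j + 1) := by positivity
  push_cast
  linarith

end Cv

end Pool.Agent.J4.H19.LC
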