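import Pool.Agent.J4.H19.LC.Mon
import Pool.Agent.J4.H19.LC.Nc

/-!
The Zariski decomposition of the canonical divisor of covers which are branched along log canonical
hypersurfaces.
-/

set_option autoImplicit false
set_option linter.overlappingInstances false
set_option linter.unusedSectionVars false
set_option maxHeartbeats 1000000

open FF MvPolynomial IntermediateField Pool.Agent.W603.LV Pool.Agent.W602.GT Pool.Agent.W602.Cov
open Pool.Agent.W602.Cov.G Pool.Agent.TH152.AC Pool.Agent.TH122.AB Pool.Agent.Y169.CH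

open Pool.Agent.Y169.TH

namespace Pool.Agent.J4.H19.LC

namespace Cv

variable {d : ℕ} {Φ : Arr (d + 1)} {K : Type} [Field K] [Algebra ℂ K] {R : ℕ} (C : Cv Φ K R)

/-- **The Zariski decomposition.** -/
theorem zar_eff (hne : (PiA C.M C.a Φ.dF).Nonempty) {B : ℕ}
    (hB1 : ∀ k, Φ.dF k ≤ B) (hB2 : per C.M ≤ B) :
    ∃ (N : ℕ) (s : Fin (N + 1) → (Fin (d + 1) → Derivation ℂ K K) → K),
      (∀ i, s i ≠ 0 ∧ ASec (d + 1) {1} (prd (d + 1) B) 1 (s i)) ∧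
      ∀ Q : Place ℂ K, ∃ i, ∀ S : Finset K, ∃ C1 : ℕ,
        ∀ (m j : ℕ) (ω : (Fin (d + 1) → Derivation ℂ K K) → K), ASec (d + 1) S m j ω →
        ∀ D, ω D ≠ 0 →
          (m : ℤ) * Q.ord (s i D) ≤ (prd (d + 1) B : ℤ) * Q.ord (ω D) + C1 * (j + 1) := by
  classical
  have hPi := PiA_eq (M := C.M) (a := C.a) (dF := Φ.dF) C.hM (by omega)
  obtain ⟨hd0, hv0⟩ := C.pol_data
  obtain ⟨V, hV⟩ : ∃ V : Set (Fin (d + 2) → ℚ), V = {p | Vert (fun k => (Φ.dF k : ℚ))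
    (∑ k, (Φ.dF k : ℚ) - ((d + 2 : ℕ) : ℚ)) (fun s : Red C.M C.a => s.q) p} := ⟨_, rfl⟩
  have hVfin : V.Finite := by
    rw [hV]
    exact vert_finite
  have hVne : V.Nonempty := by
    obtain ⟨p, hp, -⟩ := exists_vert_min hd0 hv0 0 (by rw [← hPi]; exact hne)
    exact ⟨p, by rw [hV]; exact hp⟩
  -- an enumeration of the vertices
  obtain ⟨N, p, hp⟩ : ∃ (N : ℕ) (p : Fin (N + 1) → Fin (d + 2) → ℚ), Set.range p = V := by
    have hcard : hVfin.toFinset.card ≠ 0 := by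
      rw [Finset.card_ne_zero]
      exact (Set.Finite.toFinset_nonempty _).2 hVne
    obtain ⟨N, hN⟩ := Nat.exists_eq_succ_of_ne_zero hcard
    let e := (hVfin.toFinset.equivFinOfCardEq hN).symm
    refine ⟨N, fun i => (e i : Fin (d + 2) → ℚ), ?_⟩
    ext x
    constructor
    · rintro ⟨i, rfl⟩
      exact hVfin.mem_toFinset.1 (e i).2
    · intro hx
      obtain ⟨i, hi⟩ := e.surjective ⟨x, hVfin.mem_toFinset.2 hx⟩
      exact ⟨i, congrArg Subtype.val hi⟩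
  have hpV : ∀ i, Vert (fun k => (Φ.dF k : ℚ)) (∑ k, (Φ.dF k : ℚ) - ((d + 2 : ℕ) : ℚ))
      (fun s : Red C.M C.a => s.q) (p i) := by
    intro i
    have h1 : p i ∈ V := by
      rw [← hp]
      exact ⟨i, rfl⟩
    rw [hV] at h1
    exact h1
  have hpP : ∀ i, p i ∈ PiA C.M C.a Φ.dF := fun i => by
    rw [hPi]
    exact (hpV i).1
  choose w hw using fun i => C.vert_int hB1 hB2 (hpV i)
  obtain ⟨T, hT⟩ : ∃ T : ℕ, T = prd (d + 1) B := ⟨_, rfl⟩
  rw [← hT] at hw ⊢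
  obtain ⟨D0, hD0⟩ := exists_dual C.u_bas
  have hD : ∀ i j, D0 i (C.u j) = if i = j then 1 else 0 := by
    intro i j
    have h1 := congrFun (congrFun hD0 i) j
    rw [Matrix.of_apply, Matrix.one_apply] at h1
    exact h1
  have hbw0 : bw D0 C.x = 1 := by
    rw [Pool.Agent.W930.CG.bw_one D0 C.x C.hx0]
    change (Matrix.of fun i j => D0 i (C.u j)).det = 1
    rw [hD0, Matrix.det_one]
  have hm0 : ∀ i, C.mon T (w i) D0 ≠ 0 := by
    intro i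
    unfold mon
    rw [hbw0, one_pow, one_mul]
    exact C.Ex_ne T (w i)
  refine ⟨N, fun i => C.mon T (w i), fun i => ⟨?_, C.mon_sec (hpP i) (hw i)⟩, fun Q => ?_⟩
  · intro h0
    exact hm0 i (congrFun h0 D0)
  obtain ⟨α, v, hα, hdat⟩ := C.exists_dat Q
  obtain ⟨p0, hp0V, hp0min⟩ := exists_vert_min hd0 hv0 (fun k => (v k : ℚ))
    (by rw [← hPi]; exact hne)
  rw [← hPi] at hp0min
  obtain ⟨i, rfl⟩ : ∃ i, p i = p0 := by
    have h1 : p0 ∈ V := by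
      rw [hV]
      exact hp0V
    rw [← hp] at h1
    exact h1
  refine ⟨i, fun S => ?_⟩
  obtain ⟨A1, hA1, hlow⟩ := C.sec_low S hD hdat hα hne (c0 := ∑ k, (v k : ℚ) * p i k)
    (fun y' hy' => by
      have h1 := hp0min y' hy'
      rwa [dotL_apply, dotL_apply] at h1)
  obtain ⟨C1, hC1⟩ := exists_nat_ge (T * A1)
  refine ⟨C1, fun m j ω hω D hωD => ?_⟩
  have hpl := Pool.Agent.Y172.pluri_coord C.u_bas hD hω.1 D
  have hpl' := Pool.Agent.Y172.pluri_coord C.u_bas hD (C.mon_pluri T (w i)) D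
  obtain ⟨δ, hδ⟩ : ∃ δ : K, δ = (Matrix.of fun i j => D i (C.u j)).det := ⟨_, rfl⟩
  rw [← hδ] at hpl hpl'
  have hω0 : ω D0 ≠ 0 := by
    intro h0
    rw [h0, mul_zero] at hpl
    exact hωD hpl
  -- the inequality for the frame `D0`
  have hmain : (m : ℤ) * Q.ord (C.mon T (w i) D0) ≤ (T : ℤ) * Q.ord (ω D0) + C1 * (j + 1) := by
    rcases hlow m j ω (asec_sec hω) with h1 | h1
    · exact absurd h1 hω0
    have h2 := C.mon_ord hdat hbw0 (hpP i) (hw i)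
    rw [Q.ord_mul (hm0 i) (C.Lam_ne T), C.ord_Lam] at h2
    rw [Q.ord_mul hω0 (C.Lam_ne m), C.ord_Lam] at h1
    push_cast at h1 h2
    have h3 : (0 : ℚ) ≤ T := by positivity
    have h4 := mul_le_mul_of_nonneg_left h1 h3
    have h5 : (m : ℚ) * ((Q.ord (C.mon T (w i) D0) : ℚ) +
        T * ∑ t, (Q.ord (aeval C.x (Φ.F t)) : ℚ)) =
        m * (T * (∑ k, (v k : ℚ) * p i k + α * (∑ k, (Φ.dF k : ℚ) - (d + 2)))) := by
      rw [h2]
    have h6 : T * A1 * (j + 1) ≤ (C1 : ℚ) * (j + 1) :=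
      mul_le_mul_of_nonneg_right hC1 (by positivity)
    have h7 : ((m * Q.ord (C.mon T (w i) D0) : ℤ) : ℚ) ≤
        ((T * Q.ord (ω D0) + C1 * (j + 1) : ℤ) : ℚ) := by
      push_cast
      nlinarith
    exact_mod_cast h7
  by_cases hδ0 : δ = 0
  · by_cases hm : m = 0
    · subst hm
      rw [pow_zero, one_mul] at hpl
      rw [hpl]
      simpa using hmain
    · rw [hδ0, zero_pow hm, zero_mul] at hpl
      exact absurd hpl hωD
  · change (m : ℤ) * Q.ord (C.mon T (w i) D) ≤ _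
    rw [hpl, hpl', Q.ord_mul (pow_ne_zero _ hδ0) hω0, Q.ord_mul (pow_ne_zero _ hδ0) (hm0 i),
      Q.ord_pow, Q.ord_pow]
    nlinarith

end Cv

variable {d R : ℕ} {K : Type} [Field K] [Algebra ℂ K]

/-- **The main theorem.** -/
theorem main_zar {x : Fin (d + 2) → K} (hx0 : x 0 ≠ 0)
    (hbas : IsTranscendenceBasis ℂ fun b : Fin (d + 1) => x b.succ / x 0)
    {F : Fin (d + 2) → MvPolynomial (Fin (d + 2)) ℂ} {dF : Fin (d + 2) → ℕ} (hd : ∀ k, 0 < dF k)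
    (hh : ∀ k, (F k).IsHomogeneous (dF k)) (hF0 : ∀ k, F k ≠ 0) (hN : Noc F) (hL : Lca F)
    {z : Fin R → K} {M : Fin R → ℕ}
    (hM : ∀ j, 0 < M j) {a : Fin R → Fin (d + 2) → ℕ}
    (hz : ∀ j, z j ^ M j = ∏ k, (aeval x (F k) / x 0 ^ dF k) ^ a j k)
    (hdiv : ∀ j, M j ∣ ∑ k, a j k * dF k)
    (hgen : IntermediateField.adjoin ℂ
      (Set.range (fun b : Fin (d + 1) => x b.succ / x 0) ∪ Set.range z) = ⊤)
    {B : ℕ} (hB1 : ∀ k, dF k ≤ B) (hB2 : ∏ j, M j ≤ B) (hps : APsef (d + 1) K) :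
    ∃ (N : ℕ) (s : Fin (N + 1) → (Fin (d + 1) → Derivation ℂ K K) → K),
      (∀ i, s i ≠ 0 ∧ ASec (d + 1) {1} (Cv.prd (d + 1) B) 1 (s i)) ∧
      ∀ Q : Place ℂ K, ∃ i, ∀ S : Finset K, ∃ C1 : ℕ,
        ∀ (m j : ℕ) (ω : (Fin (d + 1) → Derivation ℂ K K) → K), ASec (d + 1) S m j ω →
        ∀ D, ω D ≠ 0 →
          (m : ℤ) * Q.ord (s i D) ≤ (Cv.prd (d + 1) B : ℤ) * Q.ord (ω D) + C1 * (j + 1) := by
  have hmain := main hx0 hbas hd hh hF0 hN hL hM hz hdiv hgen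
  obtain ⟨Φ, rfl, C, rfl, rfl⟩ := exists_cv hx0 hbas hd hh hF0 hN hL hM hz hdiv hgen
  exact C.zar_eff (hmain.1.1 hps) hB1 hB2

end Pool.Agent.J4.H19.LC
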